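import Pool.Agent.KS6_22.SP.Wit
import Pool.Agent.KS6_22.MF.Mean

/-!
# Comparison of the recursions

Owner helper22.
-/

set_option autoImplicit false
set_option linter.unusedSectionVars false

open Pool.Agent.T6.H9.MV (norm_zpow_le norm_zpow_sub_one)
open Pool.Agent.KS6_22.MF (exists_prod_bound)

namespace Pool.Agent.KS6_22.SP

section series

/-- the truncated binomial series -/
noncomputable def G (e : ℤ) (M : ℕ) (t : ℂ) : ℂ :=
  ∑ j ∈ Finset.range (M + 1), ((Ring.multichoose e j : ℤ) : ℂ) * t ^ j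

lemma lin_mul_G (e : ℤ) (M : ℕ) (t : ℂ) :
    (1 - t) * G (e + 1) M t = G e M t - ((Ring.multichoose (e + 1) M : ℤ) : ℂ) * t ^ (M + 1) := by
  unfold G
  induction M with
  | zero =>
    rw [Finset.sum_range_one, Finset.sum_range_one, mc_zero, mc_zero]
    simp
  | succ M ih =>
    rw [Finset.sum_range_succ, mul_add, ih, Finset.sum_range_succ _ (M + 1),
      Ring.multichoose_succ_succ]
    push_cast
    ring

lemma G_zero (M : ℕ) (t : ℂ) : G 0 M t = 1 := by
  unfold G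
  rw [Finset.sum_range_succ']
  simp

lemma one_sub_bounds {t : ℂ} {r0 : ℝ} (h1 : r0 < 1) (ht : ‖t‖ ≤ r0) :
    1 - r0 ≤ ‖1 - t‖ ∧ ‖1 - t‖ ≤ 2 := by
  have h2 : ‖(1 : ℂ)‖ - ‖t‖ ≤ ‖1 - t‖ := norm_sub_norm_le _ _
  have h3 : ‖1 - t‖ ≤ ‖(1 : ℂ)‖ + ‖t‖ := norm_sub_le _ _
  rw [norm_one] at h2 h3
  constructor <;> linarith

lemma series_bound (M : ℕ) {r0 : ℝ} (h1 : r0 < 1) (e : ℤ) : ∃ C : ℝ, 0 ≤ C ∧
    ∀ (t : ℂ) (ρ : ℝ), ‖t‖ ≤ ρ → ρ ≤ r0 → ‖G e M t - (1 - t) ^ (-e)‖ ≤ C * ρ ^ (M + 1) := by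
  have h10 : 0 < 1 - r0 := by linarith
  induction e using Int.induction_on with
  | zero =>
    refine ⟨0, le_refl 0, fun t ρ _ _ => ?_⟩
    rw [G_zero, neg_zero, zpow_zero, sub_self, norm_zero, zero_mul]
  | succ e ih =>
    obtain ⟨C, hC, hb⟩ := ih
    refine ⟨(1 - r0)⁻¹ * (C + ‖((Ring.multichoose ((e : ℤ) + 1) M : ℤ) : ℂ)‖), by positivity,
      fun t ρ ht hρ => ?_⟩
    have hne := one_sub_bounds h1 (ht.trans hρ)
    have hne0 : (1 - t) ≠ 0 := by
      intro h
      rw [h, norm_zero] at hne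
      linarith [hne.1]
    have hid : G (e + 1) M t - (1 - t) ^ (-((e : ℤ) + 1)) = (1 - t)⁻¹ *
        ((G e M t - (1 - t) ^ (-(e : ℤ))) -
          ((Ring.multichoose ((e : ℤ) + 1) M : ℤ) : ℂ) * t ^ (M + 1)) := by
      have h3 := lin_mul_G e M t
      have h4 : (1 - t) ^ (-((e : ℤ) + 1)) = (1 - t)⁻¹ * (1 - t) ^ (-(e : ℤ)) := by
        rw [neg_add, add_comm, zpow_add₀ hne0, zpow_neg_one]
      rw [h4]
      have h5 : G (e + 1) M t = (1 - t)⁻¹ * ((1 - t) * G (e + 1) M t) := by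
        rw [← mul_assoc, inv_mul_cancel₀ hne0, one_mul]
      rw [h5, h3]
      ring
    rw [hid, norm_mul, norm_inv, mul_assoc]
    refine mul_le_mul (inv_anti₀ h10 hne.1) ?_ (norm_nonneg _) (inv_nonneg.2 h10.le)
    refine (norm_sub_le _ _).trans ?_
    rw [add_mul, norm_mul, norm_pow]
    have h6 : ‖t‖ ^ (M + 1) ≤ ρ ^ (M + 1) := pow_le_pow_left₀ (norm_nonneg _) ht _
    exact add_le_add (hb t ρ ht hρ) (mul_le_mul_of_nonneg_left h6 (norm_nonneg _))
  | pred e ih =>
    obtain ⟨C, hC, hb⟩ := ih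
    refine ⟨2 * C + ‖((Ring.multichoose (-(e : ℤ)) M : ℤ) : ℂ)‖, by positivity,
      fun t ρ ht hρ => ?_⟩
    have hne := one_sub_bounds h1 (ht.trans hρ)
    have hne0 : (1 - t) ≠ 0 := by
      intro h
      rw [h, norm_zero] at hne
      linarith [hne.1]
    have hid : G (-(e : ℤ) - 1) M t - (1 - t) ^ (-(-(e : ℤ) - 1)) = (1 - t) *
        (G (-(e : ℤ)) M t - (1 - t) ^ (-(-(e : ℤ)))) +
          ((Ring.multichoose (-(e : ℤ)) M : ℤ) : ℂ) * t ^ (M + 1) := by
      have h3 := lin_mul_G (-(e : ℤ) - 1) M t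
      rw [sub_add_cancel] at h3
      have h4 : (1 - t) ^ (-(-(e : ℤ) - 1)) = (1 - t) * (1 - t) ^ (-(-(e : ℤ))) := by
        have : -(-(e : ℤ) - 1) = 1 + -(-(e : ℤ)) := by ring
        rw [this, zpow_add₀ hne0, zpow_one]
      rw [h4]
      linear_combination -h3
    rw [hid]
    refine (norm_add_le _ _).trans ?_
    rw [norm_mul, norm_mul, norm_pow, add_mul, mul_assoc]
    have h6 : ‖t‖ ^ (M + 1) ≤ ρ ^ (M + 1) := pow_le_pow_left₀ (norm_nonneg _) ht _
    exact add_le_add (mul_le_mul hne.2 (hb t ρ ht hρ) (norm_nonneg _) (by norm_num))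
      (mul_le_mul_of_nonneg_left h6 (norm_nonneg _))

lemma prod_close {ι : Type} (S : Finset ι) {B : ℝ} (hB : 1 ≤ B) (f g : ι → ℂ) {x : ℝ}
    (hx : 0 ≤ x) (h : ∀ i ∈ S, ‖f i‖ ≤ B ∧ ‖g i‖ ≤ B ∧ ‖f i - g i‖ ≤ x) :
    ‖∏ i ∈ S, f i - ∏ i ∈ S, g i‖ ≤ S.card * B ^ S.card * x ∧ ‖∏ i ∈ S, g i‖ ≤ B ^ S.card := by
  classical
  induction S using Finset.induction_on with
  | empty => simp
  | insert i S hi ih =>
    obtain ⟨h1, h2⟩ := ih fun j hj => h j (Finset.mem_insert_of_mem hj)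
    obtain ⟨h3, h4, h5⟩ := h i (Finset.mem_insert_self _ _)
    rw [Finset.prod_insert hi, Finset.prod_insert hi, Finset.card_insert_of_notMem hi]
    have hBp : 1 ≤ B ^ S.card := one_le_pow₀ hB
    constructor
    · have h6 : f i * ∏ j ∈ S, f j - g i * ∏ j ∈ S, g j =
          f i * (∏ j ∈ S, f j - ∏ j ∈ S, g j) + (f i - g i) * ∏ j ∈ S, g j := by ring
      rw [h6]
      refine (norm_add_le _ _).trans ?_
      rw [norm_mul, norm_mul]
      have h7 : ‖f i‖ * ‖∏ j ∈ S, f j - ∏ j ∈ S, g j‖ ≤ B * (S.card * B ^ S.card * x) :=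
        mul_le_mul h3 h1 (norm_nonneg _) (by linarith)
      have h8 : ‖f i - g i‖ * ‖∏ j ∈ S, g j‖ ≤ x * B ^ S.card :=
        mul_le_mul h5 h2 (norm_nonneg _) hx
      have h9 : x * B ^ S.card ≤ x * (B ^ S.card * B) :=
        mul_le_mul_of_nonneg_left (le_mul_of_one_le_right (by linarith) hB) hx
      push_cast
      calc _ ≤ B * (S.card * B ^ S.card * x) + x * (B ^ S.card * B) := by linarith
        _ = (S.card + 1) * B ^ (S.card + 1) * x := by ring
    · rw [norm_mul, pow_succ, mul_comm]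
      exact mul_le_mul h2 h4 (norm_nonneg _) (by linarith)

end series

section rec_

/-- comparison of two recursions -/
lemma compare {D U Z p : ℕ → ℂ} {B ε : ℝ} (hB : 1 ≤ B) (hε : 0 ≤ ε) (hD : D 0 = 1) (hU : U 0 = 1)
    (hZ : ∀ d, ‖Z (d + 1)‖ ≤ B) (hp : ∀ d, ‖p (d + 1)‖ ≤ B) (hZp : ∀ d, ‖Z (d + 1) - p (d + 1)‖ ≤ ε)
    {N : ℕ} (hDr : ∀ n ≤ N, ‖(n : ℂ) * D n - ∑ j ∈ Finset.range n, Z (j + 1) * D (n - 1 - j)‖ ≤ ε)
    (hUr : ∀ n ≤ N, (n : ℂ) * U n = ∑ j ∈ Finset.range n, p (j + 1) * U (n - 1 - j)) :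
    ∀ n ≤ N, ‖D n - U n‖ ≤ (3 * B) ^ n * ε ∧ ‖U n‖ ≤ B ^ n := by
  intro n
  induction n using Nat.strong_induction_on with
  | _ n ih =>
    intro hn
    rcases Nat.eq_zero_or_pos n with rfl | hn0
    · rw [hD, hU]
      simp [hε]
    · have hnR : (0 : ℝ) < n := by exact_mod_cast hn0
      have h1n : (1 : ℝ) ≤ n := by exact_mod_cast hn0
      have ihj : ∀ j ∈ Finset.range n, ‖D (n - 1 - j) - U (n - 1 - j)‖ ≤
          (3 * B) ^ (n - 1 - j) * ε ∧ ‖U (n - 1 - j)‖ ≤ B ^ (n - 1 - j) := by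
        intro j hj
        rw [Finset.mem_range] at hj
        exact ih (n - 1 - j) (by omega) (by omega)
      have hUb : ∀ j ∈ Finset.range n, ‖U (n - 1 - j)‖ ≤ B ^ (n - 1) := fun j hj =>
        ((ihj j hj).2).trans (pow_le_pow_right₀ hB (by omega))
      constructor
      · have h1 : (n : ℂ) * (D n - U n) =
            ((n : ℂ) * D n - ∑ j ∈ Finset.range n, Z (j + 1) * D (n - 1 - j)) +
            ∑ j ∈ Finset.range n, (Z (j + 1) * (D (n - 1 - j) - U (n - 1 - j)) +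
              (Z (j + 1) - p (j + 1)) * U (n - 1 - j)) := by
          rw [mul_sub, hUr n hn]
          have : ∑ j ∈ Finset.range n, (Z (j + 1) * (D (n - 1 - j) - U (n - 1 - j)) +
              (Z (j + 1) - p (j + 1)) * U (n - 1 - j)) =
              ∑ j ∈ Finset.range n, Z (j + 1) * D (n - 1 - j) -
              ∑ j ∈ Finset.range n, p (j + 1) * U (n - 1 - j) := by
            rw [← Finset.sum_sub_distrib]
            refine Finset.sum_congr rfl fun j _ => ?_
            ring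
          rw [this]
          ring
        have h2 : ‖(n : ℂ) * (D n - U n)‖ ≤ ε + ∑ j ∈ Finset.range n,
            (B * ((3 * B) ^ (n - 1 - j) * ε) + ε * B ^ (n - 1)) := by
          rw [h1]
          refine (norm_add_le _ _).trans (add_le_add (hDr n hn) ?_)
          refine (norm_sum_le _ _).trans (Finset.sum_le_sum fun j hj => ?_)
          refine (norm_add_le _ _).trans ?_
          rw [norm_mul, norm_mul]
          exact add_le_add (mul_le_mul (hZ j) (ihj j hj).1 (norm_nonneg _) (by linarith))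
            (mul_le_mul (hZp j) (hUb j hj) (norm_nonneg _) hε)
        have h3 : ∀ j ∈ Finset.range n, B * ((3 * B) ^ (n - 1 - j) * ε) + ε * B ^ (n - 1) ≤
            2 / 3 * ((3 * B) ^ n * ε) := by
          intro j hj
          have h4 : (3 * B) ^ (n - 1 - j) ≤ (3 * B) ^ (n - 1) :=
            pow_le_pow_right₀ (by linarith) (by omega)
          have h5 : B * ((3 * B) ^ (n - 1 - j) * ε) ≤ B * ((3 * B) ^ (n - 1) * ε) := by gcongr
          have h6 : B ^ (n - 1) ≤ B * (3 * B) ^ (n - 1) := by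
            calc B ^ (n - 1) ≤ (3 * B) ^ (n - 1) := by gcongr; linarith
              _ ≤ B * (3 * B) ^ (n - 1) := le_mul_of_one_le_left (by positivity) hB
          have h7 : (3 * B) ^ n = 3 * B * (3 * B) ^ (n - 1) := by
            rw [← pow_succ']
            congr 1
            omega
          rw [h7]
          nlinarith
        have h8 : ε ≤ 1 / 3 * (n * ((3 * B) ^ n * ε)) := by
          have h9 : (3 : ℝ) ≤ (3 * B) ^ n := by
            calc (3 : ℝ) ≤ 3 * B := by linarith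
              _ = (3 * B) ^ 1 := (pow_one _).symm
              _ ≤ (3 * B) ^ n := pow_le_pow_right₀ (by linarith) hn0
          have h10 : 3 * ε ≤ (3 * B) ^ n * ε := mul_le_mul_of_nonneg_right h9 hε
          have h11 : (3 * B) ^ n * ε ≤ n * ((3 * B) ^ n * ε) :=
            le_mul_of_one_le_left (by positivity) h1n
          linarith
        have h12 := Finset.sum_le_sum h3
        rw [Finset.sum_const, Finset.card_range, nsmul_eq_mul] at h12
        rw [norm_mul, Complex.norm_natCast] at h2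
        have h13 : (n : ℝ) * ‖D n - U n‖ ≤ n * ((3 * B) ^ n * ε) := by linarith
        exact le_of_mul_le_mul_left h13 hnR
      · have h2 : ‖(n : ℂ) * U n‖ ≤ ∑ j ∈ Finset.range n, B * B ^ (n - 1) := by
          rw [hUr n hn]
          refine (norm_sum_le _ _).trans (Finset.sum_le_sum fun j hj => ?_)
          rw [norm_mul]
          exact mul_le_mul (hp j) (hUb j hj) (norm_nonneg _) (by linarith)
        rw [Finset.sum_const, Finset.card_range, nsmul_eq_mul, norm_mul, Complex.norm_natCast] at h2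
        have h7 : B ^ n = B * B ^ (n - 1) := by
          rw [← pow_succ']
          congr 1
          omega
        rw [h7]
        exact le_of_mul_le_mul_left h2 hnR

end rec_

end Pool.Agent.KS6_22.SP
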