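import Pool.Agent.KS6_22.SP.Sf
import Pool.Agent.KS6_22.SP.Cmp

/-!
# Means of multiplicative functions of the simple factors: the recursion

Owner helper22.
-/

set_option autoImplicit false
set_option linter.unusedSectionVars false
set_option linter.unusedVariables false
set_option linter.style.haveILetI false

open Polynomial
open Pool.Agent.T6.H9.MV (fmean fmean_eq fmean_comp fmean_pi fmean_sub fmean_ite)
open Pool.Agent.KS6_22.MF

namespace Pool.Agent.KS6_22.SP

section field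

variable {k : Type} [Field k] [Finite k] {n : ℕ}

open Classical in
/-- the probability of an irreducible polynomial -/
noncomputable def pI (k : Type) [Field k] (d : ℕ) : ℂ :=
  fmean (fun t : Fin d → k => if Irreducible (mon t) then (1 : ℂ) else 0)

lemma q_facts : (0 : ℝ) < Nat.card k ∧ (1 : ℝ) ≤ Nat.card k ∧ (2 : ℝ) ≤ Nat.card k := by
  have := two_le_card (k := k)
  refine ⟨?_, ?_, ?_⟩
  · exact_mod_cast (by omega : 0 < Nat.card k)
  · exact_mod_cast (by omega : 1 ≤ Nat.card k)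
  · exact_mod_cast this

open Classical in
lemma mean_main {h : k[X] → ℂ} {X : ℕ → ℂ} {ε : ℝ} (hε : 0 ≤ ε)
    (hX : ∀ d ∈ Finset.Icc 1 n, ∀ t : Fin d → k, Irreducible (mon t) →
      ‖fmean (fun g : Fin (n - d) → k => if mon t ∣ mon g then 0 else h (mon t * mon g)) - X d‖
        ≤ ε) :
    ‖fmean (fun c : Fin n → k => ∑ P ∈ SF (mon c), (P.natDegree : ℂ) * h (mon c)) -
      ∑ d ∈ Finset.Icc 1 n, (d : ℂ) * pI k d * X d‖ ≤ n * n * ε := by
  rw [mean_sum_SF, ← Finset.sum_sub_distrib]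
  have h1 : ∀ d ∈ Finset.Icc 1 n, ‖(d : ℂ) * fmean (fun t : Fin d → k =>
        if Irreducible (mon t) then fmean (fun g : Fin (n - d) → k =>
          if mon t ∣ mon g then 0 else h (mon t * mon g)) else 0) - (d : ℂ) * pI k d * X d‖ ≤
      n * ε := by
    intro d hd
    have hd' := Finset.mem_Icc.1 hd
    have h2 : (d : ℂ) * pI k d * X d = (d : ℂ) * fmean (fun t : Fin d → k =>
        (if Irreducible (mon t) then (1 : ℂ) else 0) * X d) := by
      rw [fmean_mul_const]
      unfold pI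
      ring
    rw [h2, ← mul_sub, ← fmean_sub, norm_mul, Complex.norm_natCast]
    have h3 : (d : ℝ) ≤ n := by exact_mod_cast hd'.2
    refine mul_le_mul h3 (norm_fmean_le fun t => ?_) (norm_nonneg _) (by positivity)
    by_cases hi : Irreducible (mon t)
    · rw [if_pos hi, if_pos hi, one_mul]
      exact hX d hd t hi
    · rw [if_neg hi, if_neg hi, zero_mul, sub_zero, norm_zero]
      exact hε
  refine (norm_sum_le _ _).trans ((Finset.sum_le_sum h1).trans (le_of_eq ?_))
  rw [Finset.sum_const, Nat.card_Icc, nsmul_eq_mul, Nat.add_sub_cancel]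
  ring

open Classical in
lemma mean_defect {w : k[X] → ℂ} {K : ℝ} (hK : 0 ≤ K) (hw : ∀ c : Fin n → k, ‖w (mon c)‖ ≤ K) :
    ‖fmean (fun c : Fin n → k => (n : ℂ) * w (mon c) -
      ∑ P ∈ SF (mon c), (P.natDegree : ℂ) * w (mon c))‖ ≤ n * K * (n / (Nat.card k : ℝ)) := by
  have h1 : (fun c : Fin n → k => (n : ℂ) * w (mon c) -
      ∑ P ∈ SF (mon c), (P.natDegree : ℂ) * w (mon c)) =
      fun c => (if Nsq (mon c) then (1 : ℂ) else 0) *
        (((n : ℂ) - ((∑ P ∈ SF (mon c), P.natDegree : ℕ) : ℂ)) * w (mon c)) := by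
    funext c
    rw [← Finset.sum_mul]
    by_cases h : Nsq (mon c)
    · rw [if_pos h, one_mul]
      push_cast
      ring
    · rw [if_neg h, zero_mul]
      have h2 := sum_deg_eq (mon_monic c) h
      rw [mon_natDegree] at h2
      have h3 : (∑ P ∈ SF (mon c), (P.natDegree : ℂ)) = n := by
        have h4 := congrArg (Nat.cast : ℕ → ℂ) h2
        push_cast at h4
        exact h4
      rw [h3, sub_self]
  rw [h1]
  refine (norm_fmean_ind (fun c : Fin n → k => Nsq (mon c)) (M := n * K) (fun c => ?_)).trans ?_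
  · rw [norm_mul]
    refine mul_le_mul ?_ (hw c) (norm_nonneg _) (by positivity)
    have h2 := sum_deg_le (mon_monic c).ne_zero
    rw [mon_natDegree] at h2
    have h3 : (n : ℂ) - ((∑ P ∈ SF (mon c), P.natDegree : ℕ) : ℂ) =
        ((n - ∑ P ∈ SF (mon c), P.natDegree : ℕ) : ℂ) := by
      rw [Nat.cast_sub h2]
    rw [h3, Complex.norm_natCast]
    exact_mod_cast Nat.sub_le _ _
  · exact mul_le_mul_of_nonneg_left prob_nonsqf (by positivity)

lemma fmean_split (f g : (Fin n → k) → ℂ) :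
    fmean f = fmean g + fmean (fun t => f t - g t) := by
  rw [fmean_sub]
  ring

open Classical in
/-- the number of irreducible polynomials -/
theorem irr_mean (hn : 1 ≤ n) : ‖(n : ℂ) * pI k n - 1‖ ≤ 4 * n ^ 2 / (Nat.card k : ℝ) := by
  obtain ⟨hq0, hq1, hq2⟩ := q_facts (k := k)
  have key : ∀ m : ℕ, ‖∑ d ∈ Finset.Icc 1 m, ((d : ℂ) * pI k d - 1)‖ ≤
      2 * m ^ 2 / (Nat.card k : ℝ) := by
    intro m
    have h1 := mean_main (n := m) (k := k) (h := fun _ => 1) (X := fun _ => 1)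
      (ε := 1 / (Nat.card k : ℝ)) (by positivity) (by
        intro d hd t ht
        have h2 : (fun g : Fin (m - d) → k => if mon t ∣ mon g then (0 : ℂ) else 1) =
            fun g => 1 - if mon t ∣ mon g then (1 : ℂ) else 0 := by
          funext g
          split_ifs <;> simp
        rw [h2, fmean_sub, fmean_const, sub_sub_cancel_left, norm_neg]
        refine (prob_dvd_le (mon_monic t)).trans ?_
        rw [mon_natDegree]
        refine one_div_le_one_div_of_le hq0 ?_
        calc (Nat.card k : ℝ) = (Nat.card k : ℝ) ^ 1 := (pow_one _).symm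
          _ ≤ (Nat.card k : ℝ) ^ d := pow_le_pow_right₀ hq1 (Finset.mem_Icc.1 hd).1)
    have h3 := mean_defect (n := m) (k := k) (w := fun _ => 1) (K := 1) zero_le_one
      (fun c => by rw [norm_one])
    rw [fmean_sub, fmean_const] at h3
    have h4 : ∑ d ∈ Finset.Icc 1 m, ((d : ℂ) * pI k d - 1) =
        -(((m : ℂ) * 1 - fmean (fun c : Fin m → k => ∑ P ∈ SF (mon c), (P.natDegree : ℂ) * 1)) +
          (fmean (fun c : Fin m → k => ∑ P ∈ SF (mon c), (P.natDegree : ℂ) * 1) -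
            ∑ d ∈ Finset.Icc 1 m, (d : ℂ) * pI k d * 1)) := by
      rw [Finset.sum_sub_distrib, Finset.sum_const, Nat.card_Icc]
      simp
    rw [h4, norm_neg]
    refine (norm_add_le _ _).trans ((add_le_add h3 h1).trans (le_of_eq ?_))
    ring
  obtain ⟨m, rfl⟩ : ∃ m, n = m + 1 := ⟨n - 1, by omega⟩
  have h5 : ((m + 1 : ℕ) : ℂ) * pI k (m + 1) - 1 =
      ∑ d ∈ Finset.Icc 1 (m + 1), ((d : ℂ) * pI k d - 1) -
        ∑ d ∈ Finset.Icc 1 m, ((d : ℂ) * pI k d - 1) := by
    rw [Finset.sum_Icc_succ_top (by omega)]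
    ring
  rw [h5]
  refine (norm_sub_le _ _).trans ((add_le_add (key _) (key _)).trans ?_)
  rw [← add_div]
  refine div_le_div_of_nonneg_right ?_ hq0.le
  push_cast
  have : (0 : ℝ) ≤ m := Nat.cast_nonneg m
  nlinarith

/-- the mean -/
noncomputable def DD (k : Type) [Field k] (Z : ℕ → ℂ) (n : ℕ) : ℂ :=
  fmean (fun c : Fin n → k => Gz Z (mon c))

lemma DD_shift (Z : ℕ → ℂ) (a : ℂ) (m : ℕ) :
    fmean (fun g : Fin m → k => a * Gz Z (mon g) - 1) = a * DD k Z m - 1 := by
  rw [fmean_sub, fmean_const]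
  congr 1
  have h1 : (fun g : Fin m → k => a * Gz Z (mon g)) = fun g => Gz Z (mon g) * a := by
    funext g
    ring
  rw [h1, fmean_mul_const, mul_comm]
  rfl

lemma DD_zero (Z : ℕ → ℂ) : DD k Z 0 = 1 := by
  unfold DD
  have h1 : (fun c : Fin 0 → k => Gz Z (mon c)) = fun _ => 1 := by
    funext c
    unfold Gz
    have h2 : SF (mon c) = ∅ := by
      have h3 := card_SF_le (mon_monic c).ne_zero
      rw [mon_natDegree] at h3
      exact Finset.card_eq_zero.1 (by omega)
    rw [h2, Finset.prod_empty]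
  rw [h1, fmean_const]

lemma Gz_sub_one {Z : ℕ → ℂ} {B x : ℝ} (hB : 1 ≤ B) (hx : 0 ≤ x)
    (hZ : ∀ d, ‖Z (d + 1) - 1‖ ≤ x) (hZB : ∀ d, ‖Z (d + 1)‖ ≤ B) {N : ℕ} (hn : n ≤ N)
    (c : Fin n → k) : ‖Gz Z (mon c) - 1‖ ≤ N * B ^ N * x := by
  have hc : (SF (mon c)).card ≤ N := by
    have h3 := card_SF_le (mon_monic c).ne_zero
    rw [mon_natDegree] at h3
    omega
  have hcR : ((SF (mon c)).card : ℝ) ≤ N := by exact_mod_cast hc
  have h1 := (prod_close (SF (mon c)) hB (fun P => Z P.natDegree) (fun _ => 1) hx (fun P hP => by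
    have h2 := ((mem_SF (mon_monic c).ne_zero).1 hP).1.1.natDegree_pos
    obtain ⟨d, hd⟩ : ∃ d, P.natDegree = d + 1 := ⟨P.natDegree - 1, by omega⟩
    rw [hd]
    exact ⟨hZB d, by rw [norm_one]; exact hB, hZ d⟩)).1
  rw [Finset.prod_const_one] at h1
  refine h1.trans (mul_le_mul_of_nonneg_right ?_ hx)
  exact mul_le_mul hcR (pow_le_pow_right₀ hB hc) (by positivity) (by positivity)

open Classical in
/-- **The recursion.** -/
theorem DD_rec {Z : ℕ → ℂ} {B x : ℝ} (hB : 1 ≤ B) (hx : 0 ≤ x)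
    (hZ : ∀ d, ‖Z (d + 1) - 1‖ ≤ x) (hZB : ∀ d, ‖Z (d + 1)‖ ≤ B) {N : ℕ} (hn : n ≤ N) :
    ‖(n : ℂ) * DD k Z n - ∑ j ∈ Finset.range n, Z (j + 1) * DD k Z (n - 1 - j)‖ ≤
      6 * (N + 1) ^ 4 * B ^ (N + 1) * x / (Nat.card k : ℝ) := by
  obtain ⟨hq0, hq1, hq2⟩ := q_facts (k := k)
  have hnR : (n : ℝ) ≤ N := by exact_mod_cast hn
  set K : ℝ := (N + 1) * B ^ (N + 1) with hK
  have hBp : 1 ≤ B ^ N := one_le_pow₀ hB
  have hK1 : 1 ≤ K := by
    have h0 : 1 ≤ B ^ (N + 1) := one_le_pow₀ hB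
    have h0' : (0 : ℝ) ≤ N := Nat.cast_nonneg N
    rw [hK]
    nlinarith
  have hNK : N * B ^ N ≤ K := by
    rw [hK]
    have h0 : B ^ N ≤ B ^ (N + 1) := pow_le_pow_right₀ hB (Nat.le_succ N)
    have h0' : (0 : ℝ) ≤ N := Nat.cast_nonneg N
    nlinarith
  -- bound for the products
  have hprod : ∀ (m d : ℕ) (_ : m ≤ N) (g : Fin m → k),
      ‖Z (d + 1) * Gz Z (mon g) - 1‖ ≤ K * x := by
    intro m d hm g
    have h1 : Z (d + 1) * Gz Z (mon g) - 1 = Z (d + 1) * (Gz Z (mon g) - 1) + (Z (d + 1) - 1) := by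
      ring
    rw [h1]
    refine (norm_add_le _ _).trans ?_
    rw [norm_mul]
    have h2 := mul_le_mul (hZB d) (Gz_sub_one hB hx hZ hZB hm g) (norm_nonneg _) (by linarith)
    have h3 : B * (N * B ^ N * x) + x ≤ K * x := by
      rw [hK, pow_succ]
      have h4 : 1 ≤ B ^ N * B := one_le_mul_of_one_le_of_one_le hBp hB
      nlinarith
    linarith [hZ d]
  set X : ℕ → ℂ := fun d => Z d * DD k Z (n - d) - 1 with hX
  have hXb : ∀ d ∈ Finset.Icc 1 n, ‖X d‖ ≤ K * x := by
    intro d hd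
    rw [Finset.mem_Icc] at hd
    obtain ⟨e, rfl⟩ : ∃ e, d = e + 1 := ⟨d - 1, by omega⟩
    have h1 : X (e + 1) = fmean (fun g : Fin (n - (e + 1)) → k =>
        Z (e + 1) * Gz Z (mon g) - 1) := (DD_shift Z (Z (e + 1)) (n - (e + 1))).symm
    rw [h1]
    exact norm_fmean_le fun g => hprod _ e (by omega) g
  have hmain := mean_main (n := n) (k := k) (h := fun f => Gz Z f - 1) (X := X)
    (ε := K * x / (Nat.card k : ℝ)) (by positivity) (by
      intro d hd t ht
      have hd' := Finset.mem_Icc.1 hd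
      obtain ⟨e, rfl⟩ : ∃ e, d = e + 1 := ⟨d - 1, by omega⟩
      have h2 : (fun g : Fin (n - (e + 1)) → k => if mon t ∣ mon g then (0 : ℂ) else
          Gz Z (mon t * mon g) - 1) = fun g => (Z (e + 1) * Gz Z (mon g) - 1) -
          (if mon t ∣ mon g then (1 : ℂ) else 0) * (Z (e + 1) * Gz Z (mon g) - 1) := by
        funext g
        by_cases h3 : mon t ∣ mon g
        · rw [if_pos h3, if_pos h3]
          ring
        · rw [if_neg h3, if_neg h3, Gz_mul Z ht (mon_monic t) (mon_monic g).ne_zero h3,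
            mon_natDegree]
          ring
      have h4 : fmean (fun g : Fin (n - (e + 1)) → k => Z (e + 1) * Gz Z (mon g) - 1) =
          X (e + 1) := DD_shift Z (Z (e + 1)) (n - (e + 1))
      rw [h2, fmean_sub, h4, sub_sub_cancel_left, norm_neg]
      refine (norm_fmean_ind (fun g : Fin (n - (e + 1)) → k => mon t ∣ mon g)
        fun g => hprod _ e (by omega) g).trans ?_
      have h5 := prob_dvd_le (n := n - (e + 1)) (mon_monic t)
      rw [mon_natDegree] at h5
      have h6 : 1 / (Nat.card k : ℝ) ^ (e + 1) ≤ 1 / (Nat.card k : ℝ) := by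
        refine one_div_le_one_div_of_le hq0 ?_
        calc (Nat.card k : ℝ) = (Nat.card k : ℝ) ^ 1 := (pow_one _).symm
          _ ≤ (Nat.card k : ℝ) ^ (e + 1) := pow_le_pow_right₀ hq1 (by omega)
      have h7 := mul_le_mul_of_nonneg_left (h5.trans h6) (by positivity : 0 ≤ K * x)
      calc _ ≤ K * x * (1 / (Nat.card k : ℝ)) := by
              simpa [mul_assoc] using h7
        _ = _ := by ring)
  have hdef := mean_defect (n := n) (k := k) (w := fun f => Gz Z f - 1) (K := K * x)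
    (by positivity) (fun c => (Gz_sub_one hB hx hZ hZB hn c).trans
      (mul_le_mul_of_nonneg_right hNK hx))
  rw [fmean_sub] at hdef
  have hD : fmean (fun c : Fin n → k => (n : ℂ) * (Gz Z (mon c) - 1)) =
      (n : ℂ) * (DD k Z n - 1) := by
    have h8 : (fun c : Fin n → k => (n : ℂ) * (Gz Z (mon c) - 1)) =
        fun c => (Gz Z (mon c) - 1) * (n : ℂ) := by
      funext c
      ring
    rw [h8, fmean_mul_const, fmean_sub, fmean_const]
    unfold DD
    ring
  rw [hD] at hdef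
  -- the irreducible polynomials
  have hirr : ‖∑ d ∈ Finset.Icc 1 n, (d : ℂ) * pI k d * X d - ∑ d ∈ Finset.Icc 1 n, X d‖ ≤
      n * (4 * n ^ 2 / (Nat.card k : ℝ) * (K * x)) := by
    rw [← Finset.sum_sub_distrib]
    have h9 : ∀ d ∈ Finset.Icc 1 n, ‖(d : ℂ) * pI k d * X d - X d‖ ≤
        4 * n ^ 2 / (Nat.card k : ℝ) * (K * x) := by
      intro d hd
      have h10 : (d : ℂ) * pI k d * X d - X d = ((d : ℂ) * pI k d - 1) * X d := by ring
      rw [h10, norm_mul]
      have hd' := Finset.mem_Icc.1 hd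
      have hdn : (d : ℝ) ≤ n := by exact_mod_cast hd'.2
      refine mul_le_mul ((irr_mean hd'.1).trans ?_) (hXb d hd) (norm_nonneg _) (by positivity)
      gcongr
    refine (norm_sum_le _ _).trans ((Finset.sum_le_sum h9).trans (le_of_eq ?_))
    rw [Finset.sum_const, Nat.card_Icc, nsmul_eq_mul]
    push_cast
    simp
  have hsum : ∑ d ∈ Finset.Icc 1 n, X d =
      ∑ j ∈ Finset.range n, Z (j + 1) * DD k Z (n - 1 - j) - n := by
    have h11 : ∑ d ∈ Finset.Icc 1 n, X d = ∑ j ∈ Finset.range n, X (j + 1) := by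
      symm
      refine Finset.sum_nbij' (fun j => j + 1) (fun d => d - 1) ?_ ?_ ?_ ?_ ?_
      · intro j hj
        rw [Finset.mem_range] at hj
        rw [Finset.mem_Icc]
        omega
      · intro d hd
        rw [Finset.mem_Icc] at hd
        rw [Finset.mem_range]
        omega
      · intro j _
        simp
      · intro d hd
        rw [Finset.mem_Icc] at hd
        change d - 1 + 1 = d
        omega
      · intro j _
        rfl
    rw [h11, hX, Finset.sum_sub_distrib, Finset.sum_const, Finset.card_range, nsmul_eq_mul,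
      mul_one]
    congr 1
    refine Finset.sum_congr rfl fun j _ => ?_
    have : n - (j + 1) = n - 1 - j := by omega
    rw [this]
  have hfin : (n : ℂ) * DD k Z n - ∑ j ∈ Finset.range n, Z (j + 1) * DD k Z (n - 1 - j) =
      ((n : ℂ) * (DD k Z n - 1) - fmean (fun c : Fin n → k =>
        ∑ P ∈ SF (mon c), (P.natDegree : ℂ) * (Gz Z (mon c) - 1))) +
      (fmean (fun c : Fin n → k => ∑ P ∈ SF (mon c), (P.natDegree : ℂ) * (Gz Z (mon c) - 1)) -
        ∑ d ∈ Finset.Icc 1 n, (d : ℂ) * pI k d * X d) +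
      (∑ d ∈ Finset.Icc 1 n, (d : ℂ) * pI k d * X d - ∑ d ∈ Finset.Icc 1 n, X d) := by
    rw [hsum]
    ring
  rw [hfin]
  refine (norm_add₃_le).trans ((add_le_add (add_le_add hdef hmain) hirr).trans ?_)
  have hN0 : (0 : ℝ) ≤ N := Nat.cast_nonneg N
  have hn0 : (0 : ℝ) ≤ n := Nat.cast_nonneg n
  have hKx : 0 ≤ K * x := by positivity
  have h12 : (n : ℝ) * (K * x) * (n / (Nat.card k : ℝ)) + n * n * (K * x / (Nat.card k : ℝ)) +
      n * (4 * n ^ 2 / (Nat.card k : ℝ) * (K * x)) =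
      (2 * n ^ 2 + 4 * n ^ 3) * (K * x / (Nat.card k : ℝ)) := by
    field_simp
    ring
  rw [h12]
  have h13 : 6 * ((N : ℝ) + 1) ^ 4 * B ^ (N + 1) * x / (Nat.card k : ℝ) =
      6 * ((N : ℝ) + 1) ^ 3 * (K * x / (Nat.card k : ℝ)) := by
    rw [hK]
    ring
  rw [h13]
  refine mul_le_mul_of_nonneg_right ?_ (by positivity)
  have h14 : (n : ℝ) ^ 2 ≤ (N + 1) ^ 2 := by gcongr; linarith
  have h15 : (n : ℝ) ^ 3 ≤ (N + 1) ^ 3 := by gcongr; linarith
  have h16 : ((N : ℝ) + 1) ^ 2 ≤ (N + 1) ^ 3 := pow_le_pow_right₀ (by linarith) (by norm_num)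
  linarith

end field

end Pool.Agent.KS6_22.SP
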