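import Pool.Agent.KS6_22.SP.Eval
import Pool.Agent.KS6_22.SP.Sf2

/-!
# The local estimate

Owner helper22.
-/

set_option autoImplicit false
set_option linter.unusedSectionVars false
set_option linter.unusedVariables false

open Polynomial
open Pool.Agent.T6.H9.MV (fmean norm_zpow_le norm_fmean_sub_one_le)
open Pool.Agent.KS6_22.MF

namespace Pool.Agent.KS6_22.SP

section prodb

variable {J : Type} [Fintype J] [DecidableEq J]

/-- products of powers of `1 - t` -/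
lemma prod_bound (n : J → ℤ) {r0 : ℝ} (h1 : r0 < 1) : ∃ C B : ℝ, 0 ≤ C ∧ 1 ≤ B ∧
    ∀ (t : J → ℂ) (ρ : ℝ), 0 ≤ ρ → ρ ≤ r0 → (∀ j, ‖t j‖ ≤ ρ) →
      ‖∏ j, (1 - t j) ^ n j - 1‖ ≤ C * ρ ∧ ‖∏ j, (1 - t j) ^ n j‖ ≤ B ∧
      ∏ j, (1 - t j) ^ n j ≠ 0 := by
  have h10 : 0 < 1 - r0 := by linarith
  set Λ : ℝ := 2 + (1 - r0)⁻¹ with hΛ
  have hinv : 0 < (1 - r0)⁻¹ := inv_pos.2 h10
  have hΛ1 : 1 ≤ Λ := by linarith
  have hΛi : Λ⁻¹ ≤ 1 - r0 := by
    rw [inv_le_comm₀ (by linarith) h10]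
    linarith
  obtain ⟨C, hC0, hC⟩ := exists_prod_bound n hΛ1 Finset.univ
  refine ⟨C, 1 + C, hC0, by linarith, fun t ρ h0 hρ ht => ?_⟩
  have hb := hC (fun j => 1 - t j) ρ h0 (fun j _ => by
    obtain ⟨h2, h3⟩ := one_sub_bounds h1 ((ht j).trans hρ)
    refine ⟨hΛi.trans h2, by linarith, ?_⟩
    have : (1 - t j - 1 : ℂ) = -t j := by ring
    rw [this, norm_neg]
    exact ht j)
  have hρ1 : ρ ≤ 1 := by linarith
  refine ⟨hb, ?_, ?_⟩
  · have h2 : ‖∏ j, (1 - t j) ^ n j‖ ≤ ‖∏ j, (1 - t j) ^ n j - 1‖ + ‖(1 : ℂ)‖ := by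
      have := norm_add_le (∏ j, (1 - t j) ^ n j - 1) (1 : ℂ)
      rwa [sub_add_cancel] at this
    rw [norm_one] at h2
    have h3 : C * ρ ≤ C := mul_le_of_le_one_right hC0 hρ1
    linarith
  · refine Finset.prod_ne_zero_iff.2 fun j _ => zpow_ne_zero _ fun h => ?_
    have := (one_sub_bounds h1 ((ht j).trans hρ)).1
    rw [h, norm_zero] at this
    linarith

end prodb

section loc

variable {I : Type} [Fintype I] [DecidableEq I]

lemma Zf_bound (e : I → ℤ) {r0 : ℝ} (h1 : r0 < 1) : ∃ C B : ℝ, 0 ≤ C ∧ 1 ≤ B ∧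
    ∀ (y : I → ℂ) (ρ : ℝ), 0 ≤ ρ → ρ ≤ r0 → (∀ i, ‖y i‖ ≤ ρ) → ∀ d : ℕ,
      ‖Zf e y (d + 1) - 1‖ ≤ C * ρ ∧ ‖Zf e y (d + 1)‖ ≤ B ∧ Zf e y (d + 1) ≠ 0 := by
  obtain ⟨C, B, hC, hB, h⟩ := prod_bound (fun i => -e i) h1
  refine ⟨C, B, hC, hB, fun y ρ h0 hρ hy d => ?_⟩
  exact h (fun i => y i ^ (d + 1)) ρ h0 hρ fun i => pow_le_rho (by linarith) (hy i) (by omega)

/-- **The local estimates.** -/
theorem local_est (e : I → ℤ) (N M : ℕ) {r0 : ℝ} (h1 : r0 < 1) : ∃ C : ℝ, 0 ≤ C ∧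
    ∀ (k : Type) [Field k] [Finite k] (y : I → ℂ) (ρ : ℝ), 0 ≤ ρ → ρ ≤ r0 → (∀ i, ‖y i‖ ≤ ρ) →
      (∀ c : Fin N → k, ‖Gz (Zf e y) (mon c) - 1‖ ≤ C * ρ) ∧
      ‖DD k (Zf e y) N * Wf e N M y - 1‖ ≤ C * (ρ / (Nat.card k : ℝ) + ρ ^ (M + 1)) := by
  obtain ⟨C1, B, hC1, hB, hZ⟩ := Zf_bound e h1
  obtain ⟨C2, hC2, hl⟩ := local_formal e N M h1
  set K : ℝ := 6 * ((N : ℝ) + 1) ^ 4 * B ^ (N + 1) * C1 with hK
  have hK0 : 0 ≤ K := by positivity
  refine ⟨N * B ^ N * C1 + C2 * (K + 1), by positivity, ?_⟩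
  intro k _ _ y ρ h0 hρ hy
  obtain ⟨hq0, hq1, hq2⟩ := q_facts (k := k)
  have hZ1 : ∀ d, ‖Zf e y (d + 1) - 1‖ ≤ C1 * ρ := fun d => (hZ y ρ h0 hρ hy d).1
  have hZ2 : ∀ d, ‖Zf e y (d + 1)‖ ≤ B := fun d => (hZ y ρ h0 hρ hy d).2.1
  have hρ1 : ρ ≤ 1 := by linarith
  constructor
  · intro c
    refine (Gz_sub_one hB (by positivity) hZ1 hZ2 le_rfl c).trans ?_
    have h2 : 0 ≤ C2 * (K + 1) * ρ := by positivity
    have h3 : (N : ℝ) * B ^ N * (C1 * ρ) = N * B ^ N * C1 * ρ := by ring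
    rw [h3, add_mul]
    linarith
  · have h2 := hl y ρ h0 hρ hy (DD k (Zf e y)) (K * ρ / (Nat.card k : ℝ)) (by positivity)
      (DD_zero _) (fun n hn => by
        refine (DD_rec hB (by positivity) hZ1 hZ2 hn).trans (le_of_eq ?_)
        rw [hK]
        ring)
    refine h2.trans ?_
    have h3 : K * ρ / (Nat.card k : ℝ) = K * (ρ / (Nat.card k : ℝ)) := by ring
    rw [h3]
    have h4 : 0 ≤ ρ / (Nat.card k : ℝ) := by positivity
    have h5 : 0 ≤ ρ ^ (M + 1) := by positivity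
    have h6 : K * (ρ / (Nat.card k : ℝ)) + ρ ^ (M + 1) ≤
        (K + 1) * (ρ / (Nat.card k : ℝ) + ρ ^ (M + 1)) := by nlinarith
    have h7 : 0 ≤ (N : ℝ) * B ^ N * C1 * (ρ / (Nat.card k : ℝ) + ρ ^ (M + 1)) := by positivity
    calc C2 * (K * (ρ / (Nat.card k : ℝ)) + ρ ^ (M + 1)) ≤
          C2 * ((K + 1) * (ρ / (Nat.card k : ℝ) + ρ ^ (M + 1))) :=
          mul_le_mul_of_nonneg_left h6 hC2
      _ ≤ _ := by
        rw [add_mul]
        linarith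

end loc

section real

/-- a product of factors `1 - t` stable under complex conjugation is positive -/
lemma pos_prod {J : Type} [Fintype J] (t : J → ℂ) (ht : ∀ j, ‖t j‖ < 1) (π : Equiv.Perm J)
    (hπ : ∀ j, t (π j) = starRingEnd ℂ (t j)) : ∃ x : ℝ, 0 < x ∧ ∏ j, (1 - t j) = x := by
  have hre : ∀ j, 0 < (1 - t j).re := by
    intro j
    have h1 := Complex.re_le_norm (t j)
    rw [Complex.sub_re, Complex.one_re]
    linarith [ht j]
  have hne : ∀ j, 1 - t j ≠ 0 := by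
    intro j h
    have := hre j
    rw [h, Complex.zero_re] at this
    exact lt_irrefl _ this
  have harg : ∀ j, (1 - t j).arg ≠ Real.pi := by
    intro j h
    have h1 := Complex.abs_arg_lt_pi_div_two_iff.2 (Or.inl (hre j))
    rw [h, abs_of_pos Real.pi_pos] at h1
    linarith [Real.pi_pos]
  set s : ℂ := ∑ j, Complex.log (1 - t j) with hs
  have hconj : starRingEnd ℂ s = s := by
    rw [hs, map_sum]
    have h1 : ∀ j, starRingEnd ℂ (Complex.log (1 - t j)) = Complex.log (1 - t (π j)) := by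
      intro j
      rw [← Complex.log_conj _ (harg j), map_sub, map_one, hπ]
    rw [Finset.sum_congr rfl fun j _ => h1 j]
    exact Equiv.sum_comp π fun j => Complex.log (1 - t j)
  obtain ⟨x, hx⟩ := Complex.conj_eq_iff_real.1 hconj
  refine ⟨Real.exp x, Real.exp_pos x, ?_⟩
  have h2 : Complex.exp s = ∏ j, (1 - t j) := by
    rw [hs, Complex.exp_sum]
    exact Finset.prod_congr rfl fun j _ => Complex.exp_log (hne j)
  rw [← h2, hx, Complex.ofReal_exp]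

end real

end Pool.Agent.KS6_22.SP
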