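import Pool.Agent.KS6_22.SP.Asm

/-!
# The mean value theorem for the base change to all extensions of degree `N`

Owner helper22.
-/

set_option autoImplicit false
set_option linter.unusedSectionVars false
set_option linter.unusedVariables false
set_option linter.style.haveILetI false

open Polynomial NumberField IsDedekindDomain Filter Topology
open Pool.Agent.T6.H9.MV (fmean fmean_eq kv qv card_kv qv_ne_zero two_le_qv summable_qv
  multipliable_of_bound tprod_ne_zero' hasProd_zpow diff_prod norm_fmean_sub_one_le avg box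
  card_box_pos mem_box norm_tprod_le)
open Pool.Agent.KS6_22.MF

namespace Pool.Agent.KS6_22.SP

attribute [local instance] fldv

section vir

variable {F : Type} [Field F] [NumberField F] {r N : ℕ} {m : Fin r → ℕ}
  {α : ∀ k, HeightOneSpectrum (𝓞 F) → Fin (m k) → ℂ} {ϑ : Fin r → ℝ}

lemma mem_degs {M : ℕ} {j : Fin r → ℕ} : j ∈ degs r M ↔ 0 < ∑ k, j k ∧ ∑ k, j k ≤ M := by
  unfold degs
  rw [Finset.mem_filter, Fintype.mem_piFinset]
  constructor
  · exact fun h => h.2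
  · intro h
    refine ⟨fun i => ?_, h⟩
    rw [Finset.mem_range]
    have := Finset.single_le_sum (f := j) (fun _ _ => Nat.zero_le _) (Finset.mem_univ i)
    omega

lemma mem_weights {j : Fin r → ℕ} {μ : (k : Fin r) × Fin (m k) → ℕ} :
    μ ∈ weights m j ↔ ∀ k, ∑ i, μ ⟨k, i⟩ = j k := by
  unfold weights
  rw [Finset.mem_filter, Fintype.mem_piFinset]
  constructor
  · exact fun h => h.2
  · intro h
    refine ⟨fun x => ?_, h⟩
    rw [Finset.mem_range, ← h x.1]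
    have h1 := Finset.single_le_sum (f := fun i => μ ⟨x.1, i⟩) (fun _ _ => Nat.zero_le _)
      (Finset.mem_univ x.2)
    have h2 : μ x = μ ⟨x.1, x.2⟩ := rfl
    rw [h2]
    exact Nat.lt_succ_of_le h1

lemma term_bound (hα : ∀ k v i, ‖α k v i‖ ≤ (qv v : ℝ) ^ ϑ k) {j : Fin r → ℕ}
    {μ : (k : Fin r) × Fin (m k) → ℕ} (hμ : μ ∈ weights m j) (u : ℂ)
    (v : HeightOneSpectrum (𝓞 F)) :
    ‖(∏ x, α x.1 v x.2 ^ μ x) * (qv v : ℂ) ^ (-u)‖ ≤
      (qv v : ℝ) ^ (-(u.re - ∑ k, (j k : ℝ) * ϑ k)) := by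
  rw [norm_mul, norm_qpow, norm_prod]
  have h1 : ∏ x : (k : Fin r) × Fin (m k), ‖α x.1 v x.2 ^ μ x‖ ≤
      (qv v : ℝ) ^ (∑ k, (j k : ℝ) * ϑ k) := by
    calc _ ≤ ∏ x : (k : Fin r) × Fin (m k), (qv v : ℝ) ^ (ϑ x.1 * (μ x : ℝ)) := by
          refine Finset.prod_le_prod (fun _ _ => norm_nonneg _) fun x _ => ?_
          rw [norm_pow, Real.rpow_mul (qv_pos v).le, Real.rpow_natCast]
          exact pow_le_pow_left₀ (norm_nonneg _) (hα _ _ _) _
      _ = (qv v : ℝ) ^ (∑ x : (k : Fin r) × Fin (m k), ϑ x.1 * (μ x : ℝ)) := by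
          rw [Real.rpow_sum_of_pos (qv_pos v)]
      _ = _ := by
          congr 1
          rw [Fintype.sum_sigma]
          refine Finset.sum_congr rfl fun k _ => ?_
          change ∑ i : Fin (m k), ϑ k * (μ ⟨k, i⟩ : ℝ) = _
          rw [← Finset.mul_sum, ← mem_weights.1 hμ k]
          push_cast
          ring
  calc _ ≤ (qv v : ℝ) ^ (∑ k, (j k : ℝ) * ϑ k) * (qv v : ℝ) ^ (-u.re) :=
        mul_le_mul_of_nonneg_right h1 (Real.rpow_nonneg (qv_pos v).le _)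
    _ = _ := by
      rw [← Real.rpow_add (qv_pos v)]
      congr 1
      ring

/-- the Euler product of the virtual representation -/
theorem vir_hasProd (hα : ∀ k v i, ‖α k v i‖ ≤ (qv v : ℝ) ^ ϑ k)
    (a : ((k : Fin r) × Fin (m k) → ℕ) → ℤ) (j : Fin r → ℕ) {u : ℂ}
    (hu : 1 + ∑ k, (j k : ℝ) * ϑ k < u.re) :
    HasProd (fun v => virFactor α a j u v) (Lvir α a j u) ∧ Lvir α a j u ≠ 0 := by
  classical
  set κ : ℝ := u.re - ∑ k, (j k : ℝ) * ϑ k with hκ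
  have hκ1 : 1 < κ := by linarith
  obtain ⟨C, B, hC, hB, h⟩ := prod_bound (J := {μ // μ ∈ weights m j}) (fun μ => -(a μ.1))
    (pow_neg_le (x := 2) le_rfl (by linarith : 0 < κ)).2
  have key : ∀ v : HeightOneSpectrum (𝓞 F), ‖virFactor α a j u v - 1‖ ≤
      C * (qv v : ℝ) ^ (-κ) ∧ virFactor α a j u v ≠ 0 := by
    intro v
    have h1 := h (fun μ => (∏ x, α x.1 v x.2 ^ μ.1 x) * (qv v : ℂ) ^ (-u)) ((qv v : ℝ) ^ (-κ))
      (Real.rpow_nonneg (qv_pos v).le _) (pow_neg_le (two_le_qvR v) (by linarith)).1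
      (fun μ => term_bound hα μ.2 u v)
    have h2 : ∏ μ : {μ // μ ∈ weights m j},
        (1 - (∏ x, α x.1 v x.2 ^ μ.1 x) * (qv v : ℂ) ^ (-u)) ^ (-(a μ.1)) =
        virFactor α a j u v :=
      Finset.prod_coe_sort (weights m j) fun μ =>
        (1 - (∏ x, α x.1 v x.2 ^ μ x) * (qv v : ℂ) ^ (-u)) ^ (-(a μ))
    rw [h2] at h1
    exact ⟨h1.1, h1.2.2⟩
  have hβ : Summable fun v : HeightOneSpectrum (𝓞 F) => C * (qv v : ℝ) ^ (-κ) :=
    (summable_qv (K := F) hκ1).mul_left C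
  exact ⟨(multipliable_of_bound hβ fun v => (key v).1).hasProd,
    tprod_ne_zero' hβ (fun v => (key v).1) fun v => (key v).2⟩

lemma cpow_sum {q : ℂ} (hq : q ≠ 0) {ι : Type} (S : Finset ι) (z : ι → ℂ) :
    q ^ (-∑ k ∈ S, z k) = ∏ k ∈ S, q ^ (-(z k)) := by
  classical
  induction S using Finset.induction_on with
  | empty => simp
  | insert i S hi ih =>
    rw [Finset.sum_insert hi, Finset.prod_insert hi, neg_add, Complex.cpow_add _ _ hq, ih]

/-- the monomials -/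
lemma mono_eq {j : Fin r → ℕ} {μ : (k : Fin r) × Fin (m k) → ℕ} (hμ : μ ∈ weights m j)
    (s : Fin r → ℂ) (v : HeightOneSpectrum (𝓞 F)) :
    ∏ x, yv α s v x ^ μ x =
      (∏ x, α x.1 v x.2 ^ μ x) * (qv v : ℂ) ^ (-∑ k, (j k : ℂ) * s k) := by
  have hq : (qv v : ℂ) ≠ 0 := by exact_mod_cast qv_ne_zero v
  unfold yv
  simp only [mul_pow]
  rw [Finset.prod_mul_distrib]
  congr 1
  rw [Fintype.prod_sigma, cpow_sum hq]
  refine Finset.prod_congr rfl fun k _ => ?_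
  have h1 : ∏ i : Fin (m k), ((qv v : ℂ) ^ (-(s k))) ^ μ ⟨k, i⟩ =
      ((qv v : ℂ) ^ (-(s k))) ^ (j k) := by
    rw [Finset.prod_pow_eq_pow_sum, mem_weights.1 hμ k]
  refine h1.trans ?_
  rw [← Complex.cpow_nat_mul]
  congr 1
  ring

/-- the main term as a product of Euler factors -/
lemma Wf_inv (N M : ℕ) (e : Fin r → ℤ) (s : Fin r → ℂ) (v : HeightOneSpectrum (𝓞 F)) :
    (Wf (ee m e) N M (yv α s v))⁻¹ =
      ∏ j ∈ degs r M, virFactor α (aa (ee m e) N) j (∑ k, (j k : ℂ) * s k) v := by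
  classical
  unfold Wf
  rw [← Finset.prod_inv_distrib]
  have hmaps : ∀ μ ∈ idx ((k : Fin r) × Fin (m k)) M, (fun k => ∑ i, μ ⟨k, i⟩) ∈ degs r M := by
    intro μ hμ
    rw [mem_idx, Fintype.sum_sigma] at hμ
    rw [mem_degs]
    exact hμ
  rw [← Finset.prod_fiberwise_of_maps_to hmaps]
  refine Finset.prod_congr rfl fun j hj => ?_
  unfold virFactor
  have hset : (idx ((k : Fin r) × Fin (m k)) M).filter (fun μ => (fun k => ∑ i, μ ⟨k, i⟩) = j) =
      weights m j := by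
    ext μ
    rw [Finset.mem_filter, mem_idx, mem_weights, Fintype.sum_sigma]
    rw [mem_degs] at hj
    constructor
    · rintro ⟨-, h⟩ k
      exact congrFun h k
    · intro h
      have h1 : ∑ k, ∑ i, μ ⟨k, i⟩ = ∑ k, j k := Finset.sum_congr rfl fun k _ => h k
      exact ⟨by rw [h1]; exact hj, funext h⟩
  rw [hset]
  refine Finset.prod_congr rfl fun μ hμ => ?_
  rw [mono_eq hμ, ← zpow_neg]

lemma re_gt {s : Fin r → ℂ} (hs : ∀ k, 1 + ϑ k < (s k).re) {M : ℕ} {j : Fin r → ℕ}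
    (hj : j ∈ degs r M) :
    1 + ∑ k, (j k : ℝ) * ϑ k < (∑ k, (j k : ℂ) * s k).re := by
  rw [mem_degs] at hj
  have h1 : (∑ k, (j k : ℂ) * s k).re = ∑ k, (j k : ℝ) * (s k).re := by
    rw [Complex.re_sum]
    refine Finset.sum_congr rfl fun k _ => ?_
    simp
  have h2 : (1 : ℝ) ≤ ∑ k, (j k : ℝ) := by
    have : (1 : ℝ) ≤ ((∑ k, j k : ℕ) : ℝ) := by exact_mod_cast hj.1
    push_cast at this
    exact this
  obtain ⟨k0, -, hk0⟩ := Finset.exists_ne_zero_of_sum_ne_zero hj.1.ne'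
  have h3 : ∑ k, (j k : ℝ) * (1 + ϑ k) < ∑ k, (j k : ℝ) * (s k).re := by
    refine Finset.sum_lt_sum (fun k _ => mul_le_mul_of_nonneg_left (hs k).le (Nat.cast_nonneg _))
      ⟨k0, Finset.mem_univ _, mul_lt_mul_of_pos_left (hs k0) ?_⟩
    exact_mod_cast Nat.pos_of_ne_zero hk0
  have h4 : ∑ k, (j k : ℝ) * (1 + ϑ k) = ∑ k, (j k : ℝ) + ∑ k, (j k : ℝ) * ϑ k := by
    rw [← Finset.sum_add_distrib]
    refine Finset.sum_congr rfl fun k _ => ?_
    ring
  rw [h1]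
  linarith

/-- the factorisation of the limit -/
lemma limP (N M : ℕ) (e : Fin r → ℤ) (hα : ∀ k v i, ‖α k v i‖ ≤ (qv v : ℝ) ^ ϑ k)
    {s : Fin r → ℂ} (hs : ∀ k, 1 + ϑ k < (s k).re) :
    ∏' v : HeightOneSpectrum (𝓞 F), fmean (hP (N := N) e α s v) =
      (∏ j ∈ degs r M, Lvir α (aa (ee m e) N) j (∑ k, (j k : ℂ) * s k)) * HP N M e α s := by
  classical
  have hs1 : s ∈ OmT ϑ 1 := fun k => by linarith [hs k]
  have hM1 : 1 / ((M : ℝ) + 1) ≤ 1 := by
    rw [div_le_one (by positivity)]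
    have : (0 : ℝ) ≤ M := Nat.cast_nonneg M
    linarith
  obtain ⟨δ, hδ, hsδ⟩ := exists_deltaT hs1
  obtain ⟨β, hβ, hb⟩ := lP_bound N M e hα hδ
  have h1 : HasProd (fun v : HeightOneSpectrum (𝓞 F) => lP N M e α s v) (HP N M e α s) :=
    (multipliable_of_bound hβ fun v => hb s (OmT_mono (by linarith) hsδ) v).hasProd
  have h2 : HasProd (fun v : HeightOneSpectrum (𝓞 F) =>
      ∏ j ∈ degs r M, virFactor α (aa (ee m e) N) j (∑ k, (j k : ℂ) * s k) v)
      (∏ j ∈ degs r M, Lvir α (aa (ee m e) N) j (∑ k, (j k : ℂ) * s k)) :=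
    hasProd_prod fun j hj => (vir_hasProd hα _ j (re_gt hs hj)).1
  rw [← (h2.mul h1).tprod_eq]
  refine tprod_congr fun v => ?_
  rw [fmean_hP, ← Wf_inv]
  have hW := Wf_ne (N := N) M e hα (OmT_mono (by norm_num : (0 : ℝ) ≤ 1) hs1) v
  unfold lP
  rw [mul_comm (eP N e α s v), ← mul_assoc, inv_mul_cancel₀ hW, one_mul]

end vir

section main

variable {F : Type} [Field F] [NumberField F] {ι : Type} [Fintype ι] [DecidableEq ι] {N r : ℕ}
  {m : Fin r → ℕ} {α : ∀ k, HeightOneSpectrum (𝓞 F) → Fin (m k) → ℂ} {ϑ : Fin r → ℝ}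

lemma prod_eqP (ω : Module.Basis ι ℤ (𝓞 F)) (e : Fin r → ℤ)
    (hα : ∀ k v i, ‖α k v i‖ ≤ (qv v : ℝ) ^ ϑ k) {s : Fin r → ℂ} (hs : ∀ k, 1 + ϑ k < (s k).re)
    {x : Fin N × ι → ℤ} (hirr : Irreducible (fpoly (vec ω x))) :
    ∏' v : HeightOneSpectrum (𝓞 F), hP e α s v (rd v (vec ω x)) =
      ∏ k, Lbc (α k) (vec ω x) (s k) ^ e k := by
  haveI : Fact (Irreducible (fpoly (vec ω x))) := ⟨hirr⟩
  have h1 := hasProd_hP (dt_theta (vec ω x)) e hα hs
  have h2 : ∀ k, Lbc (α k) (vec ω x) (s k) = ∏' w : HeightOneSpectrum (𝓞 (Fld (vec ω x))),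
      bcFactor (α k) (aeval (theta (vec ω x)) (derivative (mon (vec ω x)))) w (s k) := by
    intro k
    unfold Lbc
    rw [dif_pos hirr]
  rw [Finset.prod_congr rfl fun k _ => by rw [h2 k], ← h1.tprod_eq]
  refine tprod_congr fun v => ?_
  unfold hP fb
  rw [mon_map]
  rfl

/-- **The mean value theorem.** -/
theorem tendsto_mainP (ω : Module.Basis ι ℤ (𝓞 F)) (hN : N ≠ 0) (M : ℕ) (e : Fin r → ℤ)
    (hα : ∀ k v i, ‖α k v i‖ ≤ (qv v : ℝ) ^ ϑ k) {s : Fin r → ℂ}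
    (hs : ∀ k, 1 + ϑ k < (s k).re) :
    Tendsto (fun B : Fin N → ι → ℕ => mean (FamB ω B) fun c => ∏ k, Lbc (α k) c (s k) ^ e k) atTop
      (𝓝 ((∏ j ∈ degs r M, Lvir α (aa (ee m e) N) j (∑ k, (j k : ℂ) * s k)) *
        HP N M e α s)) := by
  classical
  have hs1 : s ∈ OmT ϑ 1 := fun k => by linarith [hs k]
  obtain ⟨δ, hδ, hsδ⟩ := exists_deltaT hs1
  obtain ⟨β, hβ, hb⟩ := hP_bound (F := F) N e hα (κ := 1 + δ + δ) (by linarith)
  have hb' : ∀ (v : HeightOneSpectrum (𝓞 F)) (t : Fin N → kv v), ‖hP e α s v t - 1‖ ≤ β v :=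
    fun v t => hb s hsδ v t
  have h1 := tendsto_all (J := Fin N) ω (fun v t => hP e α s v t) hβ hb'
  rw [limP N M e hα hs] at h1
  have hden : Tendsto (fun B : Fin N × ι → ℕ => avg (box B) (fun x =>
      if Irreducible (fpoly (vec ω x)) then (0 : ℂ) else 1)) atTop (𝓝 0) :=
    irr_density (J := Fin N) (n := N) ω (Nat.pos_of_ne_zero hN) (e := id) Function.injective_id
  have h2 := tendsto_sub (fun B : Fin N × ι → ℕ => card_box_pos B)
    (fun x => Irreducible (fpoly (vec ω x)))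
    (fun x => norm_tprod_le hβ (fun v => hb' v (rd v (vec ω x)))) h1 hden
  have h3 := h2.comp (tendsto_uncurry1 (ι := ι) (N := N))
  refine h3.congr fun B => ?_
  rw [famB_eq, mean_image _ _ (vec_inj ω)]
  simp only [Function.comp_apply]
  unfold avg
  congr 1
  refine Finset.sum_congr rfl fun x hx => ?_
  exact prod_eqP ω e hα hs (Finset.mem_filter.1 hx).2

end main

end Pool.Agent.KS6_22.SP
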