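import Pool.Agent.KS6_22.SP.Glob

/-!
# The mean of the local functions and the main term

Owner helper22.
-/

set_option autoImplicit false
set_option linter.unusedSectionVars false
set_option linter.unusedVariables false
set_option linter.style.haveILetI false

open Polynomial NumberField IsDedekindDomain Filter Topology
open Pool.Agent.T6.H9.MV (fmean fmean_eq kv qv card_kv qv_ne_zero two_le_qv summable_qv
  multipliable_of_bound tprod_ne_zero' hasProd_zpow diff_prod tendstoUniformlyOn_prod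
  differentiableOn_of_tendstoUniformlyOn norm_fmean_sub_one_le)
open Pool.Agent.KS6_22.MF

namespace Pool.Agent.KS6_22.SP

attribute [local instance] fldv

section region

variable {r : ℕ}

/-- the region `Re s_k > ϑ_k + c` -/
def OmT (ϑ : Fin r → ℝ) (c : ℝ) : Set (Fin r → ℂ) := {s | ∀ k, ϑ k + c < (s k).re}

lemma isOpen_OmT (ϑ : Fin r → ℝ) (c : ℝ) : IsOpen (OmT ϑ c) := by
  unfold OmT
  rw [Set.ofPred_forall]
  exact isOpen_iInter_of_finite fun k =>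
    isOpen_lt continuous_const (Complex.continuous_re.comp (continuous_apply k))

lemma ball_OmT {ϑ : Fin r → ℝ} {c δ : ℝ} {x : Fin r → ℂ} (hx : x ∈ OmT ϑ (c + δ)) :
    Metric.ball x δ ⊆ OmT ϑ c := by
  intro y hy k
  have h1 : ‖(y - x) k‖ ≤ ‖y - x‖ := norm_le_pi_norm (y - x) k
  rw [Metric.mem_ball, dist_eq_norm] at hy
  have h2 : |((y - x) k).re| ≤ ‖(y - x) k‖ := Complex.abs_re_le_norm _
  have h3 : ((y - x) k).re = (y k).re - (x k).re := by simp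
  rw [h3, abs_le] at h2
  have h4 := hx k
  linarith [h2.1]

lemma exists_deltaT {ϑ : Fin r → ℝ} {c : ℝ} {x : Fin r → ℂ} (hx : x ∈ OmT ϑ c) :
    ∃ δ : ℝ, 0 < δ ∧ x ∈ OmT ϑ (c + δ + δ) := by
  have h1 : ∀ k, ∀ᶠ δ : ℝ in 𝓝[>] 0, ϑ k + (c + δ + δ) < (x k).re := by
    intro k
    have h2 : Tendsto (fun δ : ℝ => ϑ k + (c + δ + δ)) (𝓝[>] 0) (𝓝 (ϑ k + (c + 0 + 0))) := by
      have : Continuous fun δ : ℝ => ϑ k + (c + δ + δ) := by fun_prop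
      exact (this.tendsto 0).mono_left nhdsWithin_le_nhds
    refine h2.eventually (gt_mem_nhds ?_)
    simpa using hx k
  have h3 : ∀ᶠ δ : ℝ in 𝓝[>] 0, ∀ k, ϑ k + (c + δ + δ) < (x k).re := eventually_all.2 h1
  obtain ⟨δ, hδ1, hδ2⟩ := (h3.and self_mem_nhdsWithin).exists
  exact ⟨δ, hδ2, hδ1⟩

lemma OmT_mono {ϑ : Fin r → ℝ} {c c' : ℝ} (h : c ≤ c') {s : Fin r → ℂ} (hs : s ∈ OmT ϑ c') :
    s ∈ OmT ϑ c := fun k => by linarith [hs k]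

end region

section loc

variable {F : Type} [Field F] [NumberField F] {r N : ℕ} {m : Fin r → ℕ}
  {α : ∀ k, HeightOneSpectrum (𝓞 F) → Fin (m k) → ℂ} {ϑ : Fin r → ℝ}

lemma yv_norm (hα : ∀ k v i, ‖α k v i‖ ≤ (qv v : ℝ) ^ ϑ k) {s : Fin r → ℂ} {κ : ℝ}
    (hs : s ∈ OmT ϑ κ) (v : HeightOneSpectrum (𝓞 F)) (x : (k : Fin r) × Fin (m k)) :
    ‖yv α s v x‖ ≤ (qv v : ℝ) ^ (-κ) := by
  unfold yv
  rw [norm_mul, norm_qpow]
  calc _ ≤ (qv v : ℝ) ^ ϑ x.1 * (qv v : ℝ) ^ (-(s x.1).re) :=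
        mul_le_mul_of_nonneg_right (hα _ _ _) (Real.rpow_nonneg (qv_pos v).le _)
    _ = (qv v : ℝ) ^ (ϑ x.1 + -(s x.1).re) := by rw [← Real.rpow_add (qv_pos v)]
    _ ≤ _ := Real.rpow_le_rpow_of_exponent_le (qv_one v) (by linarith [hs x.1])

lemma two_le_qvR (v : HeightOneSpectrum (𝓞 F)) : (2 : ℝ) ≤ qv v := by exact_mod_cast two_le_qv v

/-- the local mean -/
noncomputable def eP (N : ℕ) (e : Fin r → ℤ) (α : ∀ k, HeightOneSpectrum (𝓞 F) → Fin (m k) → ℂ)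
    (s : Fin r → ℂ) (v : HeightOneSpectrum (𝓞 F)) : ℂ := DD (kv v) (Zf (ee m e) (yv α s v)) N

lemma fmean_hP (e : Fin r → ℤ) (s : Fin r → ℂ) (v : HeightOneSpectrum (𝓞 F)) :
    fmean (hP (N := N) e α s v) = eP N e α s v := rfl

/-- the correction factor -/
noncomputable def lP (N M : ℕ) (e : Fin r → ℤ)
    (α : ∀ k, HeightOneSpectrum (𝓞 F) → Fin (m k) → ℂ) (s : Fin r → ℂ)
    (v : HeightOneSpectrum (𝓞 F)) : ℂ :=
  eP N e α s v * Wf (ee m e) N M (yv α s v)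

theorem hP_bound (N : ℕ) (e : Fin r → ℤ) (hα : ∀ k v i, ‖α k v i‖ ≤ (qv v : ℝ) ^ ϑ k)
    {κ : ℝ} (hκ : 1 < κ) : ∃ β : HeightOneSpectrum (𝓞 F) → ℝ, Summable β ∧
      ∀ s ∈ OmT ϑ κ, ∀ v (t : Fin N → kv v), ‖hP e α s v t - 1‖ ≤ β v := by
  obtain ⟨C, hC, h⟩ := local_est (ee m e) N 0 (pow_neg_le (x := 2) le_rfl (by linarith : 0 < κ)).2
  refine ⟨fun v => C * (qv v : ℝ) ^ (-κ), (summable_qv (K := F) hκ).mul_left C,
    fun s hs v t => ?_⟩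
  exact (h (kv v) (yv α s v) ((qv v : ℝ) ^ (-κ)) (Real.rpow_nonneg (qv_pos v).le _)
    (pow_neg_le (two_le_qvR v) (by linarith)).1 (yv_norm hα hs v)).1 t

theorem lP_bound (N M : ℕ) (e : Fin r → ℤ) (hα : ∀ k v i, ‖α k v i‖ ≤ (qv v : ℝ) ^ ϑ k)
    {δ : ℝ} (hδ : 0 < δ) : ∃ β : HeightOneSpectrum (𝓞 F) → ℝ, Summable β ∧
      ∀ s ∈ OmT ϑ (1 / ((M : ℝ) + 1) + δ), ∀ v, ‖lP N M e α s v - 1‖ ≤ β v := by
  have hM : (0 : ℝ) < (M : ℝ) + 1 := by positivity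
  set κ : ℝ := 1 / ((M : ℝ) + 1) + δ with hκ
  have hκ0 : 0 < κ := by positivity
  obtain ⟨C, hC, h⟩ := local_est (ee m e) N M (pow_neg_le (x := 2) le_rfl hκ0).2
  refine ⟨fun v => C * ((qv v : ℝ) ^ (-(κ + 1)) + (qv v : ℝ) ^ (-(κ * (M + 1)))), ?_,
    fun s hs v => ?_⟩
  · refine Summable.mul_left _ (Summable.add (summable_qv (by linarith)) (summable_qv ?_))
    have : κ * (M + 1) = 1 + δ * (M + 1) := by
      rw [hκ]
      field_simp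
    rw [this]
    have : 0 < δ * (M + 1) := by positivity
    linarith
  · have h1 := (h (kv v) (yv α s v) ((qv v : ℝ) ^ (-κ)) (Real.rpow_nonneg (qv_pos v).le _)
      (pow_neg_le (two_le_qvR v) hκ0).1 (yv_norm hα hs v)).2
    rw [card_kv] at h1
    have h2 : (qv v : ℝ) ^ (-κ) / (qv v : ℝ) = (qv v : ℝ) ^ (-(κ + 1)) := by
      nth_rewrite 2 [← Real.rpow_one (qv v : ℝ)]
      rw [← Real.rpow_sub (qv_pos v)]
      congr 1
      ring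
    have h3 : ((qv v : ℝ) ^ (-κ)) ^ (M + 1) = (qv v : ℝ) ^ (-(κ * (M + 1))) := by
      rw [← Real.rpow_natCast, ← Real.rpow_mul (qv_pos v).le]
      congr 1
      push_cast
      ring
    rw [h2, h3] at h1
    exact h1

lemma yv_lt (hα : ∀ k v i, ‖α k v i‖ ≤ (qv v : ℝ) ^ ϑ k) {s : Fin r → ℂ} (hs : s ∈ OmT ϑ 0)
    (v : HeightOneSpectrum (𝓞 F)) (x : (k : Fin r) × Fin (m k)) : ‖yv α s v x‖ < 1 := by
  unfold yv
  rw [norm_mul, norm_qpow]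
  calc _ ≤ (qv v : ℝ) ^ ϑ x.1 * (qv v : ℝ) ^ (-(s x.1).re) :=
        mul_le_mul_of_nonneg_right (hα _ _ _) (Real.rpow_nonneg (qv_pos v).le _)
    _ = (qv v : ℝ) ^ (ϑ x.1 + -(s x.1).re) := by rw [← Real.rpow_add (qv_pos v)]
    _ < 1 := Real.rpow_lt_one_of_one_lt_of_neg (by have := two_le_qvR v; linarith)
        (by linarith [hs x.1])

lemma pow_lt' {t : ℂ} (ht : ‖t‖ < 1) {d : ℕ} (hd : d ≠ 0) : ‖t ^ d‖ < 1 := by
  rw [norm_pow]
  exact pow_lt_one₀ (norm_nonneg _) ht hd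

lemma one_sub_ne {t : ℂ} (ht : ‖t‖ < 1) : 1 - t ≠ 0 := by
  intro h
  have h1 : t = 1 := (sub_eq_zero.1 h).symm
  rw [h1, norm_one] at ht
  exact lt_irrefl _ ht

lemma yv_diff (v : HeightOneSpectrum (𝓞 F)) (x : (k : Fin r) × Fin (m k)) (s : Fin r → ℂ) :
    DifferentiableAt ℂ (fun s => yv α s v x) s := by
  unfold yv
  have h0 : (qv v : ℂ) ≠ 0 := by exact_mod_cast qv_ne_zero v
  have hf : DifferentiableAt ℂ (fun s : Fin r → ℂ => -(s x.1)) s := by fun_prop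
  exact (differentiableAt_const _).mul (hf.const_cpow (Or.inl h0))

lemma Zf_diff (e : Fin r → ℤ) (hα : ∀ k v i, ‖α k v i‖ ≤ (qv v : ℝ) ^ ϑ k) {s : Fin r → ℂ}
    (hs : s ∈ OmT ϑ 0) (v : HeightOneSpectrum (𝓞 F)) {d : ℕ} (hd : d ≠ 0) :
    DifferentiableAt ℂ (fun s => Zf (ee m e) (yv α s v) d) s := by
  unfold Zf
  refine diff_prod _ fun x _ => ?_
  have h1 : DifferentiableAt ℂ (fun s => 1 - yv α s v x ^ d) s :=
    (differentiableAt_const _).sub ((yv_diff v x s).pow d)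
  exact h1.zpow (Or.inl (one_sub_ne (pow_lt' (yv_lt hα hs v x) hd)))

lemma eP_diff (e : Fin r → ℤ) (hα : ∀ k v i, ‖α k v i‖ ≤ (qv v : ℝ) ^ ϑ k) {s : Fin r → ℂ}
    (hs : s ∈ OmT ϑ 0) (v : HeightOneSpectrum (𝓞 F)) :
    DifferentiableAt ℂ (fun s => eP N e α s v) s := by
  unfold eP DD
  refine diff_fmean fun c => ?_
  unfold Gz
  refine diff_prod _ fun P hP => ?_
  have hP' := ((mem_SF (mon_monic c).ne_zero).1 hP).1.1.natDegree_pos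
  exact Zf_diff e hα hs v (by omega)

lemma prod_pow_lt {J : Type} [Fintype J] {t : J → ℂ} (ht : ∀ j, ‖t j‖ < 1) {μ : J → ℕ}
    (hμ : 0 < ∑ j, μ j) : ‖∏ j, t j ^ μ j‖ < 1 := by
  classical
  obtain ⟨j, -, hj⟩ := Finset.exists_ne_zero_of_sum_ne_zero hμ.ne'
  rw [← Finset.mul_prod_erase Finset.univ _ (Finset.mem_univ j), norm_mul, norm_prod]
  have h1 : ‖t j ^ μ j‖ < 1 := pow_lt' (ht j) hj
  have h2 : ∏ i ∈ Finset.univ.erase j, ‖t i ^ μ i‖ ≤ 1 := by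
    refine Finset.prod_le_one (fun _ _ => norm_nonneg _) fun i _ => ?_
    rw [norm_pow]
    exact pow_le_one₀ (norm_nonneg _) (ht i).le
  calc _ ≤ ‖t j ^ μ j‖ * 1 := mul_le_mul_of_nonneg_left h2 (norm_nonneg _)
    _ < 1 := by rwa [mul_one]

lemma Wf_diff (M : ℕ) (e : Fin r → ℤ) (hα : ∀ k v i, ‖α k v i‖ ≤ (qv v : ℝ) ^ ϑ k)
    {s : Fin r → ℂ} (hs : s ∈ OmT ϑ 0) (v : HeightOneSpectrum (𝓞 F)) :
    DifferentiableAt ℂ (fun s => Wf (ee m e) N M (yv α s v)) s := by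
  unfold Wf
  refine diff_prod _ fun μ hμ => ?_
  have h1 : DifferentiableAt ℂ (fun s => 1 - ∏ x, yv α s v x ^ μ x) s :=
    (differentiableAt_const _).sub (diff_prod _ fun x _ => (yv_diff v x s).pow _)
  exact h1.zpow (Or.inl (one_sub_ne (prod_pow_lt (yv_lt hα hs v) (mem_idx.1 hμ).1)))

lemma Wf_ne (M : ℕ) (e : Fin r → ℤ) (hα : ∀ k v i, ‖α k v i‖ ≤ (qv v : ℝ) ^ ϑ k)
    {s : Fin r → ℂ} (hs : s ∈ OmT ϑ 0) (v : HeightOneSpectrum (𝓞 F)) :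
    Wf (ee m e) N M (yv α s v) ≠ 0 := by
  unfold Wf
  exact Finset.prod_ne_zero_iff.2 fun μ hμ => zpow_ne_zero _
    (one_sub_ne (prod_pow_lt (yv_lt hα hs v) (mem_idx.1 hμ).1))

/-- the parameters are stable under complex conjugation -/
def Conj (α : ∀ k, HeightOneSpectrum (𝓞 F) → Fin (m k) → ℂ) : Prop :=
  ∀ k v, ∃ π : Equiv.Perm (Fin (m k)), ∀ i, α k v (π i) = starRingEnd ℂ (α k v i)

lemma Zf_pos (e : Fin r → ℤ) (hα : ∀ k v i, ‖α k v i‖ ≤ (qv v : ℝ) ^ ϑ k) (hc : Conj α)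
    {s : Fin r → ℂ} (hs : s ∈ OmT ϑ 0) (hs0 : ∀ k, (s k).im = 0)
    (v : HeightOneSpectrum (𝓞 F)) {d : ℕ} (hd : d ≠ 0) :
    ∃ y : ℝ, 0 < y ∧ Zf (ee m e) (yv α s v) d = y := by
  unfold Zf ee
  rw [Fintype.prod_sigma]
  refine prod_pos' fun k _ => ?_
  obtain ⟨π, hπ⟩ := hc k v
  obtain ⟨y, hy0, hy⟩ := pos_prod (fun i : Fin (m k) => yv α s v ⟨k, i⟩ ^ d)
    (fun i => pow_lt' (yv_lt hα hs v _) hd) π (fun i => by
      rw [map_pow]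
      congr 1
      unfold yv
      rw [map_mul, hπ]
      congr 1
      have h1 : (s k) = (((s k).re : ℝ) : ℂ) := by
        apply Complex.ext
        · simp
        · simp [hs0 k]
      have h2 : (qv v : ℂ) ^ (-(s k)) = (((qv v : ℝ) ^ (-(s k).re) : ℝ) : ℂ) := by
        rw [Complex.ofReal_cpow (qv_pos v).le]
        push_cast
        rw [← h1]
      change (qv v : ℂ) ^ (-(s k)) = starRingEnd ℂ ((qv v : ℂ) ^ (-(s k)))
      rw [h2, Complex.conj_ofReal])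
  change ∃ y : ℝ, 0 < y ∧ ∏ i : Fin (m k), (1 - yv α s v ⟨k, i⟩ ^ d) ^ (-e k) = (y : ℂ)
  rw [Finset.prod_zpow, hy]
  exact ⟨y ^ (-e k), zpow_pos hy0 _, by push_cast; rfl⟩

lemma eP_pos (e : Fin r → ℤ) (hα : ∀ k v i, ‖α k v i‖ ≤ (qv v : ℝ) ^ ϑ k) (hc : Conj α)
    {s : Fin r → ℂ} (hs : s ∈ OmT ϑ 0) (hs0 : ∀ k, (s k).im = 0)
    (v : HeightOneSpectrum (𝓞 F)) : ∃ y : ℝ, 0 < y ∧ eP N e α s v = y := by
  unfold eP DD
  refine fmean_pos fun c => ?_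
  unfold Gz
  refine prod_pos' fun P hP => ?_
  have hP' := ((mem_SF (mon_monic c).ne_zero).1 hP).1.1.natDegree_pos
  exact Zf_pos e hα hc hs hs0 v (by omega)

/-- the local means are near `1` far to the right -/
lemma eP_far (N : ℕ) (e : Fin r → ℤ) (hα : ∀ k v i, ‖α k v i‖ ≤ (qv v : ℝ) ^ ϑ k) :
    ∃ κ : ℝ, 1 < κ ∧ ∀ s ∈ OmT ϑ κ, ∀ v, eP N e α s v ≠ 0 := by
  obtain ⟨C, hC, h⟩ := local_est (ee m e) N 0 (r0 := 1 / 2) (by norm_num)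
  have h1 : Tendsto (fun κ : ℝ => C * (2 : ℝ) ^ (-κ)) atTop (𝓝 (C * 0)) := by
    refine Tendsto.const_mul C ?_
    have h2 : (fun κ : ℝ => (2 : ℝ) ^ (-κ)) = fun κ => (1 / 2 : ℝ) ^ κ := by
      funext κ
      rw [Real.rpow_neg (by norm_num), one_div, Real.inv_rpow (by norm_num)]
    rw [h2]
    exact tendsto_rpow_atTop_of_base_lt_one _ (by norm_num) (by norm_num)
  rw [mul_zero] at h1
  obtain ⟨κ, hκ1, hκ2⟩ := ((h1.eventually (gt_mem_nhds one_pos)).and (eventually_gt_atTop 1)).exists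
  refine ⟨κ, hκ2, fun s hs v h0 => ?_⟩
  have h3 := pow_neg_le (two_le_qvR v) (by linarith : 0 < κ)
  have h4 : (2 : ℝ) ^ (-κ) ≤ 1 / 2 := by
    calc (2 : ℝ) ^ (-κ) ≤ (2 : ℝ) ^ (-1 : ℝ) :=
          Real.rpow_le_rpow_of_exponent_le (by norm_num) (by linarith)
      _ = 1 / 2 := by norm_num [Real.rpow_neg_one]
  have h5 := (h (kv v) (yv α s v) ((qv v : ℝ) ^ (-κ)) (Real.rpow_nonneg (qv_pos v).le _)
    (h3.1.trans h4) (yv_norm hα hs v)).1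
  have h6 : ‖eP N e α s v - 1‖ ≤ C * (qv v : ℝ) ^ (-κ) := norm_fmean_sub_one_le h5
  rw [h0, zero_sub, norm_neg, norm_one] at h6
  have h7 : C * (qv v : ℝ) ^ (-κ) ≤ C * (2 : ℝ) ^ (-κ) := mul_le_mul_of_nonneg_left h3.1 hC
  linarith

/-- the correction function -/
noncomputable def HP (N M : ℕ) (e : Fin r → ℤ)
    (α : ∀ k, HeightOneSpectrum (𝓞 F) → Fin (m k) → ℂ) (s : Fin r → ℂ) : ℂ :=
  ∏' v : HeightOneSpectrum (𝓞 F), lP N M e α s v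

theorem HP_diff (N M : ℕ) (e : Fin r → ℤ) (hα : ∀ k v i, ‖α k v i‖ ≤ (qv v : ℝ) ^ ϑ k) :
    DifferentiableOn ℂ (HP N M e α) (OmT ϑ (1 / ((M : ℝ) + 1))) := by
  intro x hx
  obtain ⟨δ, hδ, hxδ⟩ := exists_deltaT hx
  obtain ⟨β, hβ, hb⟩ := lP_bound N M e hα hδ
  have h1 : TendstoUniformlyOn (fun (D : Finset (HeightOneSpectrum (𝓞 F))) s =>
      ∏ v ∈ D, lP N M e α s v) (HP N M e α) atTop (OmT ϑ (1 / ((M : ℝ) + 1) + δ)) :=
    tendstoUniformlyOn_prod hβ fun v s hs => hb s hs v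
  have h2 := differentiableOn_of_tendstoUniformlyOn (U := OmT ϑ (1 / ((M : ℝ) + 1) + δ))
    (V := OmT ϑ (1 / ((M : ℝ) + 1) + δ + δ)) hδ (isOpen_OmT _ _) (fun y hy => ball_OmT hy)
    (fun D => by
      intro y hy
      have hM : (0 : ℝ) < 1 / ((M : ℝ) + 1) := by positivity
      have hy' : y ∈ OmT ϑ 0 := OmT_mono (by linarith) hy
      exact (diff_prod D fun v _ =>
        (eP_diff e hα hy' v).mul (Wf_diff M e hα hy' v)).differentiableWithinAt) h1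
  exact ((h2 x hxδ).differentiableAt ((isOpen_OmT _ _).mem_nhds hxδ)).differentiableWithinAt

theorem HP_ne (N M : ℕ) (e : Fin r → ℤ) (hα : ∀ k v i, ‖α k v i‖ ≤ (qv v : ℝ) ^ ϑ k)
    {s : Fin r → ℂ} (hs : s ∈ OmT ϑ (1 / ((M : ℝ) + 1))) (he : ∀ v, eP N e α s v ≠ 0) :
    HP N M e α s ≠ 0 := by
  obtain ⟨δ, hδ, hxδ⟩ := exists_deltaT hs
  obtain ⟨β, hβ, hb⟩ := lP_bound N M e hα hδ
  have hM : (0 : ℝ) < 1 / ((M : ℝ) + 1) := by positivity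
  exact tprod_ne_zero' hβ (fun v => hb s (OmT_mono (by linarith) hxδ) v)
    fun v => mul_ne_zero (he v) (Wf_ne M e hα (OmT_mono hM.le hs) v)

end loc

end Pool.Agent.KS6_22.SP
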