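import Pool.Agent.KS6_22.MF.DefB

/-!
# Base change of Euler products to all extensions of given degree: definitions

Owner helper22.

`F` is a number field. A representation of `GL(m)` over `F` enters only through its Satake
parameters, `m` complex numbers `α v 0, …, α v (m - 1)` for each prime `v` of `F`.
-/

set_option autoImplicit false

open Polynomial NumberField IsDedekindDomain
open Pool.Agent.KS6_22.MF

namespace Pool.Agent.KS6_22.SP

open Classical in
/-- The Euler factor at the prime `w` of `L` of the base change to the extension `L` of `F` of the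
representation with the Satake parameters `α v i`: if `v` is the prime of `F` below `w` and `f` the
residue degree of `w` over `v`, then this is the product over `i` of
`(1 - (α v i) ^ f N(w) ^ (-s))⁻¹`. The factor is omitted (replaced by `1`) if `w` divides `δ`. -/
noncomputable def bcFactor {F L : Type} [Field F] [NumberField F] [Field L] [NumberField L]
    [Algebra F L] {m : ℕ} (α : HeightOneSpectrum (𝓞 F) → Fin m → ℂ) (δ : 𝓞 L)
    (w : HeightOneSpectrum (𝓞 L)) (s : ℂ) : ℂ :=
  if δ ∈ w.asIdeal then 1 else
    ∏ i, (1 - α (w.under (𝓞 F)) i ^ (w.asIdeal.inertiaDeg (𝓞 F)) *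
      (Ideal.absNorm w.asIdeal : ℂ) ^ (-s))⁻¹

open Classical in
/-- The L-function of the base change to `F(θ)`, where `θ` is a root of the polynomial `f` with the
lower coefficients `c`, without the Euler factors at the finitely many primes which divide `f'(θ)`. -/
noncomputable def Lbc {F : Type} [Field F] [NumberField F] {N m : ℕ}
    (α : HeightOneSpectrum (𝓞 F) → Fin m → ℂ) (c : Fin N → 𝓞 F) (s : ℂ) : ℂ :=
  if h : Irreducible (fpoly c) then
    haveI : Fact (Irreducible (fpoly c)) := ⟨h⟩
    ∏' w : HeightOneSpectrum (𝓞 (Fld c)),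
      bcFactor α (aeval (theta c) (derivative (mon c))) w s
  else 1

/-- the multidegrees `j` with `0 < j_1 + … + j_r ≤ M` -/
def degs (r M : ℕ) : Finset (Fin r → ℕ) :=
  (Fintype.piFinset fun _ => Finset.range (M + 1)).filter fun j => 0 < ∑ k, j k ∧ ∑ k, j k ≤ M

/-- The weights of multidegree `j` of the group `GL(m_1) × … × GL(m_r)`: the systems `μ` of exponents
`μ (k, i)`, `i = 1, …, m_k`, with the sum `j_k` for every `k`. -/
def weights {r : ℕ} (m : Fin r → ℕ) (j : Fin r → ℕ) : Finset ((k : Fin r) × Fin (m k) → ℕ) :=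
  (Fintype.piFinset fun x => Finset.range (j x.1 + 1)).filter fun μ => ∀ k, ∑ i, μ ⟨k, i⟩ = j k

/-- The Euler factor at `v` of the L-function of the representations with the Satake parameters
`α k`, `k = 1, …, r`, and of the virtual representation of `GL(m_1) × … × GL(m_r)`, homogeneous of
degree `j_k` in the `k`-th variable, in which the weight `μ` has the multiplicity `a μ`:
the product over the weights `μ` of `(1 - α(v) ^ μ N(v) ^ (-u)) ^ (- a μ)`. -/
noncomputable def virFactor {F : Type} [Field F] [NumberField F] {r : ℕ} {m : Fin r → ℕ}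
    (α : ∀ k, HeightOneSpectrum (𝓞 F) → Fin (m k) → ℂ) (a : ((k : Fin r) × Fin (m k) → ℕ) → ℤ)
    (j : Fin r → ℕ) (u : ℂ) (v : HeightOneSpectrum (𝓞 F)) : ℂ :=
  ∏ μ ∈ weights m j,
    (1 - (∏ x, α x.1 v x.2 ^ μ x) * (Ideal.absNorm v.asIdeal : ℂ) ^ (-u)) ^ (-(a μ))

/-- the L-function of the virtual representation -/
noncomputable def Lvir {F : Type} [Field F] [NumberField F] {r : ℕ} {m : Fin r → ℕ}
    (α : ∀ k, HeightOneSpectrum (𝓞 F) → Fin (m k) → ℂ) (a : ((k : Fin r) × Fin (m k) → ℕ) → ℤ)
    (j : Fin r → ℕ) (u : ℂ) : ℂ :=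
  ∏' v : HeightOneSpectrum (𝓞 F), virFactor α a j u v

end Pool.Agent.KS6_22.SP
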