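import Pool.Agent.KS6_22.SP.Cmp

/-!
# The main term

Owner helper22.
-/

set_option autoImplicit false
set_option linter.unusedSectionVars false

open PowerSeries
open Pool.Agent.T6.H9.MV (norm_zpow_le norm_zpow_sub_one)

namespace Pool.Agent.KS6_22.SP

section main

variable {I : Type} [Fintype I] [DecidableEq I]

/-- the coefficients of the product of the `(1 - y_i) ^ (-e_i)` -/
def zc (e : I → ℤ) (μ : I → ℕ) : ℤ := ∏ i, Ring.multichoose (e i) (μ i)

/-- the value at a cycle of length `d` -/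
noncomputable def Zf (e : I → ℤ) (y : I → ℂ) (d : ℕ) : ℂ := ∏ i, (1 - y i ^ d) ^ (-e i)

/-- the truncated expansion -/
noncomputable def pf (e : I → ℤ) (M : ℕ) (y : I → ℂ) (d : ℕ) : ℂ :=
  1 + ∑ μ ∈ idx I M, (zc e μ : ℂ) * (ev y (mo μ)) ^ d

lemma zc_zero (e : I → ℤ) : zc e 0 = 1 := by
  unfold zc
  refine Finset.prod_eq_one fun i _ => ?_
  rw [Pi.zero_apply, mc_zero]

lemma pow_le_rho {t : ℂ} {ρ : ℝ} (h1 : ρ ≤ 1) (ht : ‖t‖ ≤ ρ) {d : ℕ} (hd : 1 ≤ d) :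
    ‖t ^ d‖ ≤ ρ := by
  have h0 : 0 ≤ ρ := (norm_nonneg _).trans ht
  rw [norm_pow]
  calc ‖t‖ ^ d ≤ ρ ^ d := pow_le_pow_left₀ (norm_nonneg _) ht _
    _ ≤ ρ ^ 1 := pow_le_pow_of_le_one h0 h1 hd
    _ = ρ := pow_one _

lemma ev_mo_le {y : I → ℂ} {ρ : ℝ} (h0 : 0 ≤ ρ) (h1 : ρ ≤ 1) (hy : ∀ i, ‖y i‖ ≤ ρ) {M : ℕ}
    {μ : I → ℕ} (hμ : M ≤ ∑ i, μ i) : ‖ev y (mo μ)‖ ≤ ρ ^ M := by
  rw [ev_mo, norm_prod]
  have h3 : ∏ i, ‖y i ^ μ i‖ ≤ ∏ i, ρ ^ μ i := by
    refine Finset.prod_le_prod (fun _ _ => norm_nonneg _) fun i _ => ?_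
    rw [norm_pow]
    exact pow_le_pow_left₀ (norm_nonneg _) (hy i) _
  refine h3.trans ?_
  rw [Finset.prod_pow_eq_pow_sum]
  exact pow_le_pow_of_le_one h0 h1 hμ

lemma prod_G (e : I → ℤ) (M : ℕ) (t : I → ℂ) : ∏ i, G (e i) M (t i) =
    ∑ μ ∈ Fintype.piFinset fun _ : I => Finset.range (M + 1), (zc e μ : ℂ) * ev t (mo μ) := by
  unfold G
  rw [Finset.prod_univ_sum]
  refine Finset.sum_congr rfl fun μ _ => ?_
  rw [Finset.prod_mul_distrib, ev_mo]
  congr 1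
  unfold zc
  push_cast
  rfl

lemma pf_close (e : I → ℤ) (M : ℕ) {r0 : ℝ} (h1 : r0 < 1) : ∃ C B : ℝ, 0 ≤ C ∧ 1 ≤ B ∧
    ∀ (y : I → ℂ) (ρ : ℝ), 0 ≤ ρ → ρ ≤ r0 → (∀ i, ‖y i‖ ≤ ρ) → ∀ d : ℕ,
      ‖Zf e y (d + 1) - pf e M y (d + 1)‖ ≤ C * ρ ^ (M + 1) ∧ ‖Zf e y (d + 1)‖ ≤ B ∧
      ‖pf e M y (d + 1)‖ ≤ B := by
  choose Cs hCs0 hCs using fun i => series_bound M h1 (e i)
  have h10 : 0 < 1 - r0 := by linarith
  -- bounds for the single factors
  set Λ : ℝ := 2 + (1 - r0)⁻¹ with hΛ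
  have hinv : 0 < (1 - r0)⁻¹ := inv_pos.2 h10
  have hΛ1 : 1 ≤ Λ := by linarith
  have hz : ∀ (t : ℂ), ‖t‖ ≤ r0 → ∀ n : ℤ, ‖(1 - t) ^ n‖ ≤ Λ ^ n.natAbs := by
    intro t ht n
    obtain ⟨h2, h3⟩ := one_sub_bounds h1 ht
    refine norm_zpow_le ?_ (by linarith) hΛ1 n
    have h4 : Λ⁻¹ ≤ 1 - r0 := by
      rw [inv_le_comm₀ (by linarith) h10]
      linarith
    exact h4.trans h2
  set B0 : ℝ := 1 + ∑ i, (Λ ^ (e i).natAbs + Cs i) with hB0
  have hterm : ∀ i, Λ ^ (e i).natAbs + Cs i ≤ ∑ i, (Λ ^ (e i).natAbs + Cs i) := fun i =>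
    Finset.single_le_sum (f := fun i => Λ ^ (e i).natAbs + Cs i)
      (fun j _ => add_nonneg (by positivity) (hCs0 j)) (Finset.mem_univ i)
  have hB01 : 1 ≤ B0 := by
    have : 0 ≤ ∑ i, (Λ ^ (e i).natAbs + Cs i) :=
      Finset.sum_nonneg fun j _ => add_nonneg (by positivity) (hCs0 j)
    linarith
  set Cm : ℝ := ∑ i, Cs i with hCm
  have hCm0 : 0 ≤ Cm := Finset.sum_nonneg fun i _ => hCs0 i
  set C2 : ℝ := ∑ μ ∈ Fintype.piFinset fun _ : I => Finset.range (M + 1), ‖(zc e μ : ℂ)‖ with hC2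
  have hC20 : 0 ≤ C2 := Finset.sum_nonneg fun _ _ => norm_nonneg _
  set n := Fintype.card I with hn
  refine ⟨n * B0 ^ n * Cm + C2, B0 ^ n + (n * B0 ^ n * Cm + C2), by positivity, ?_,
    fun y ρ h0 hρ hy d => ?_⟩
  · have : 1 ≤ B0 ^ n := one_le_pow₀ hB01
    have : 0 ≤ n * B0 ^ n * Cm + C2 := by positivity
    linarith
  have hρ1 : ρ ≤ 1 := by linarith
  set t : I → ℂ := fun i => y i ^ (d + 1) with ht
  have hty : ∀ i, ‖t i‖ ≤ ρ := fun i => pow_le_rho hρ1 (hy i) (by omega)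
  have hpρ : ρ ^ (M + 1) ≤ 1 := pow_le_one₀ h0 hρ1
  have hpρ0 : 0 ≤ ρ ^ (M + 1) := by positivity
  -- the product of the series
  have hA := prod_close (Finset.univ : Finset I) hB01 (fun i => G (e i) M (t i))
    (fun i => (1 - t i) ^ (-e i)) (x := Cm * ρ ^ (M + 1)) (by positivity) (fun i _ => by
      have h2 := hCs i (t i) ρ (hty i) hρ
      have h3 := hz (t i) ((hty i).trans hρ) (-e i)
      rw [Int.natAbs_neg] at h3
      have h4 : Cs i * ρ ^ (M + 1) ≤ Cs i := mul_le_of_le_one_right (hCs0 i) hpρ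
      refine ⟨?_, ?_, ?_⟩
      · have h5 : ‖G (e i) M (t i)‖ ≤ ‖G (e i) M (t i) - (1 - t i) ^ (-e i)‖ +
            ‖(1 - t i) ^ (-e i)‖ := by
          have := norm_add_le (G (e i) M (t i) - (1 - t i) ^ (-e i)) ((1 - t i) ^ (-e i))
          rwa [sub_add_cancel] at this
        linarith [hterm i]
      · have h6 := hCs0 i
        linarith [hterm i]
      · refine h2.trans (mul_le_mul_of_nonneg_right ?_ hpρ0)
        exact Finset.single_le_sum (f := Cs) (fun j _ => hCs0 j) (Finset.mem_univ i))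
  rw [Finset.card_univ] at hA
  -- the rest of the expansion
  have hsplit : (Fintype.piFinset fun _ : I => Finset.range (M + 1)).filter
      (fun μ => ∑ i, μ i ≤ M) = insert 0 (idx I M) := by
    ext μ
    rw [Finset.mem_filter, Fintype.mem_piFinset, Finset.mem_insert, mem_idx]
    constructor
    · rintro ⟨h2, h3⟩
      rcases Nat.eq_zero_or_pos (∑ i, μ i) with h4 | h4
      · left
        funext i
        exact Finset.sum_eq_zero_iff.1 h4 i (Finset.mem_univ i)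
      · exact Or.inr ⟨h4, h3⟩
    · intro h2
      have h3 : ∑ i, μ i ≤ M := by
        rcases h2 with h2 | h2
        · rw [h2]
          simp
        · exact h2.2
      refine ⟨fun i => ?_, h3⟩
      rw [Finset.mem_range]
      have := Finset.single_le_sum (f := μ) (fun _ _ => Nat.zero_le _) (Finset.mem_univ i)
      omega
  have hmo : ∀ μ : I → ℕ, ev t (mo μ) = ev y (mo μ) ^ (d + 1) := by
    intro μ
    rw [ev_mo, ev_mo, ← Finset.prod_pow]
    refine Finset.prod_congr rfl fun i _ => ?_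
    rw [ht, ← pow_mul, ← pow_mul, mul_comm]
  have hexp : ∏ i, G (e i) M (t i) = pf e M y (d + 1) +
      ∑ μ ∈ (Fintype.piFinset fun _ : I => Finset.range (M + 1)).filter
        (fun μ => ¬ ∑ i, μ i ≤ M), (zc e μ : ℂ) * ev t (mo μ) := by
    rw [prod_G, ← Finset.sum_filter_add_sum_filter_not _ (fun μ : I → ℕ => ∑ i, μ i ≤ M), hsplit,
      Finset.sum_insert (by rw [mem_idx]; simp)]
    congr 1
    unfold pf
    congr 1
    · rw [zc_zero, ev_mo]
      simp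
    · refine Finset.sum_congr rfl fun μ _ => ?_
      rw [hmo]
  have hrest : ‖∑ μ ∈ (Fintype.piFinset fun _ : I => Finset.range (M + 1)).filter
        (fun μ => ¬ ∑ i, μ i ≤ M), (zc e μ : ℂ) * ev t (mo μ)‖ ≤ C2 * ρ ^ (M + 1) := by
    refine (norm_sum_le _ _).trans ?_
    rw [hC2, Finset.sum_mul]
    refine (Finset.sum_le_sum fun μ hμ => ?_).trans (Finset.sum_le_sum_of_subset_of_nonneg
      (Finset.filter_subset _ _) fun _ _ _ => by positivity)
    rw [norm_mul]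
    refine mul_le_mul_of_nonneg_left ?_ (norm_nonneg _)
    refine ev_mo_le h0 hρ1 hty ?_
    have := (Finset.mem_filter.1 hμ).2
    omega
  have hZ : Zf e y (d + 1) = ∏ i, (1 - t i) ^ (-e i) := rfl
  have hmain : ‖Zf e y (d + 1) - pf e M y (d + 1)‖ ≤ (n * B0 ^ n * Cm + C2) * ρ ^ (M + 1) := by
    have h7 : Zf e y (d + 1) - pf e M y (d + 1) =
        -(∏ i, G (e i) M (t i) - ∏ i, (1 - t i) ^ (-e i)) +
        ∑ μ ∈ (Fintype.piFinset fun _ : I => Finset.range (M + 1)).filter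
        (fun μ => ¬ ∑ i, μ i ≤ M), (zc e μ : ℂ) * ev t (mo μ) := by
      rw [hexp, hZ]
      ring
    rw [h7]
    refine (norm_add_le _ _).trans ?_
    rw [norm_neg, add_mul]
    refine add_le_add ?_ hrest
    refine hA.1.trans (le_of_eq ?_)
    ring
  have hZb : ‖Zf e y (d + 1)‖ ≤ B0 ^ n := by
    rw [hZ]
    exact hA.2
  refine ⟨hmain, ?_, ?_⟩
  · have : 0 ≤ n * B0 ^ n * Cm + C2 := by positivity
    linarith
  · have h8 : ‖pf e M y (d + 1)‖ ≤ ‖Zf e y (d + 1)‖ + ‖Zf e y (d + 1) - pf e M y (d + 1)‖ := by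
      have := norm_sub_le (Zf e y (d + 1)) (Zf e y (d + 1) - pf e M y (d + 1))
      rwa [sub_sub_cancel] at this
    have h9 : (n * B0 ^ n * Cm + C2) * ρ ^ (M + 1) ≤ n * B0 ^ n * Cm + C2 :=
      mul_le_of_le_one_right (by positivity) hpρ
    linarith

/-- the exponents -/
noncomputable def aa (e : I → ℤ) (N : ℕ) : (I → ℕ) → ℤ := wa (zc e) N

/-- the product of the Euler factors of the main term, inverted -/
noncomputable def Wf (e : I → ℤ) (N M : ℕ) (y : I → ℂ) : ℂ :=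
  ∏ μ ∈ idx I M, (1 - ∏ i, y i ^ μ i) ^ (aa e N μ)

/-- **The local estimate, formal part.** -/
theorem local_formal (e : I → ℤ) (N M : ℕ) {r0 : ℝ} (h1 : r0 < 1) : ∃ C : ℝ, 0 ≤ C ∧
    ∀ (y : I → ℂ) (ρ : ℝ), 0 ≤ ρ → ρ ≤ r0 → (∀ i, ‖y i‖ ≤ ρ) → ∀ (D : ℕ → ℂ) (η : ℝ), 0 ≤ η →
      D 0 = 1 → (∀ n ≤ N, ‖(n : ℂ) * D n -
        ∑ j ∈ Finset.range n, Zf e y (j + 1) * D (n - 1 - j)‖ ≤ η) →
      ‖D N * Wf e N M y - 1‖ ≤ C * (η + ρ ^ (M + 1)) := by
  obtain ⟨C1, B, hC1, hB, hpf⟩ := pf_close e M h1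
  obtain ⟨C2, hC2, hJ⟩ := ev_bound (pr_eq.1 (wit (zc e) N M))
  obtain ⟨C3, hC3, hP⟩ := ev_bound (J_zero (pos (aa e N) M))
  have h10 : 0 < 1 - r0 := by linarith
  set c : ℝ := ∏ μ ∈ idx I M, (1 - r0) ^ (-(aa e N μ)).toNat with hc
  have hc0 : 0 < c := Finset.prod_pos fun μ _ => by positivity
  refine ⟨c⁻¹ * (C3 * (3 * B) ^ N * (1 + C1) + C2), by positivity,
    fun y ρ h0 hρ hy D η hη hD0 hD => ?_⟩
  have hρ1 : ρ ≤ 1 := by linarith
  have hpρ0 : 0 ≤ ρ ^ (M + 1) := by positivity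
  -- the sequence U
  set V : ℂ⟦X⟧ := PowerSeries.map (ev y) (VM (zc e) M) with hV
  set P : ℂ⟦X⟧ := ((1 : ℤ) : ℂ⟦X⟧) * gs 1 +
    ∑ μ ∈ idx I M, ((zc e μ : ℤ) : ℂ⟦X⟧) * gs (ev y (mo μ)) with hPd
  have hrec : Rec (fac (1 : ℂ) 1 * V) P := by
    refine (rec_fac 1 1).mul ?_
    rw [hV]
    unfold VM
    rw [map_prod]
    have h2 : ∀ μ, PowerSeries.map (ev y) (fac (mo μ) (zc e μ)) = fac (ev y (mo μ)) (zc e μ) :=
      fun μ => fac_map _ _ _
    rw [Finset.prod_congr rfl fun μ _ => h2 μ]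
    exact rec_prod _ _ _ fun μ _ => rec_fac _ _
  have hcast : ∀ (z : ℤ) (a : ℂ) (j : ℕ), coeff j ((z : ℂ⟦X⟧) * gs a) = (z : ℂ) * coeff j (gs a) := by
    intro z a j
    have hz : (z : ℂ⟦X⟧) = C (z : ℂ) := by simp
    rw [hz, coeff_C_mul]
  have hP0 : coeff 0 P = 0 := by
    rw [hPd, map_add, map_sum, hcast]
    rw [Finset.sum_congr rfl fun μ _ => hcast _ _ 0]
    unfold gs
    simp
  have hPj : ∀ j, coeff (j + 1) P = pf e M y (j + 1) := by
    intro j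
    rw [hPd, map_add, map_sum, hcast]
    rw [Finset.sum_congr rfl fun μ _ => hcast _ _ (j + 1)]
    unfold gs pf
    simp
  have hU : ∀ n, coeff n (fac (1 : ℂ) 1 * V) = ev y (QM (zc e) n M) := by
    intro n
    unfold QM
    rw [TN_map, coeff_mul, Finset.Nat.sum_antidiagonal_eq_sum_range_succ
      (fun i j => coeff i (fac (1 : ℂ) 1) * coeff j V) n,
      ← Finset.sum_range_reflect (fun i => coeff i (PowerSeries.map (ev y) (VM (zc e) M))) (n + 1)]
    refine Finset.sum_congr rfl fun i _ => ?_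
    have : n + 1 - 1 - i = n - i := by omega
    rw [this]
    unfold fac
    simp [hV]
  set U : ℕ → ℂ := fun n => coeff n (fac (1 : ℂ) 1 * V) with hUd
  have hU0 : U 0 = 1 := by
    rw [hUd]
    change coeff 0 _ = _
    rw [hU]
    unfold QM TN
    rw [Finset.sum_range_one]
    unfold VM
    have h3 : coeff 0 (∏ μ ∈ idx I M, fac (mo μ) (zc e μ)) = 1 := by
      rw [coeff_zero_eq_constantCoeff_apply, map_prod]
      refine Finset.prod_eq_one fun μ _ => ?_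
      rw [← coeff_zero_eq_constantCoeff_apply]
      unfold fac
      simp
    rw [h3, map_one]
  have hcmp := compare (D := D) (U := U) (Z := Zf e y) (p := pf e M y) (N := N)
    (ε := η + C1 * ρ ^ (M + 1)) hB (by positivity) hD0 hU0
    (fun d => (hpf y ρ h0 hρ hy d).2.1) (fun d => (hpf y ρ h0 hρ hy d).2.2)
    (fun d => ((hpf y ρ h0 hρ hy d).1).trans (by linarith))
    (fun n hn => (hD n hn).trans (by linarith [mul_nonneg hC1 hpρ0]))
    (fun n _ => by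
      have h4 := rec_coeff hrec hP0 n
      rw [hUd]
      change (n : ℂ) * coeff n _ = _
      rw [h4]
      refine Finset.sum_congr rfl fun j _ => ?_
      rw [hPj]) N le_rfl
  -- the denominators
  have hmo1 : ∀ μ ∈ idx I M, 1 - r0 ≤ ‖1 - ev y (mo μ)‖ := by
    intro μ hμ
    have h5 : ‖ev y (mo μ)‖ ≤ r0 := by
      have := ev_mo_le h0 hρ1 hy (M := 1) (μ := μ) (mem_idx.1 hμ).1
      rw [pow_one] at this
      exact this.trans hρ
    exact (one_sub_bounds h1 h5).1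
  have hne : ∀ μ ∈ idx I M, 1 - ev y (mo μ) ≠ 0 := by
    intro μ hμ h
    have := hmo1 μ hμ
    rw [h, norm_zero] at this
    linarith
  have hneg : ev y (neg (aa e N) M) = ∏ μ ∈ idx I M, (1 - ev y (mo μ)) ^ (-(aa e N μ)).toNat := by
    unfold neg
    rw [map_prod]
    refine Finset.prod_congr rfl fun μ _ => ?_
    rw [map_pow, map_sub, map_one]
  have hpos : ev y (pos (aa e N) M) = ∏ μ ∈ idx I M, (1 - ev y (mo μ)) ^ (aa e N μ).toNat := by
    unfold pos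
    rw [map_prod]
    refine Finset.prod_congr rfl fun μ _ => ?_
    rw [map_pow, map_sub, map_one]
  have hnegb : c ≤ ‖ev y (neg (aa e N) M)‖ := by
    rw [hneg, norm_prod, hc]
    refine Finset.prod_le_prod (fun _ _ => by positivity) fun μ hμ => ?_
    rw [norm_pow]
    exact pow_le_pow_left₀ h10.le (hmo1 μ hμ) _
  have hnegne : ev y (neg (aa e N) M) ≠ 0 := by
    intro h
    rw [h, norm_zero] at hnegb
    linarith
  have hW : Wf e N M y * ev y (neg (aa e N) M) = ev y (pos (aa e N) M) := by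
    rw [hneg, hpos]
    unfold Wf
    rw [← Finset.prod_mul_distrib]
    refine Finset.prod_congr rfl fun μ hμ => ?_
    rw [← ev_mo, ← zpow_natCast, ← zpow_natCast, ← zpow_add₀ (hne μ hμ)]
    congr 1
    omega
  have hfin : D N * Wf e N M y - 1 = (ev y (neg (aa e N) M))⁻¹ *
      ((D N - U N) * ev y (pos (aa e N) M) +
        (ev y (QM (zc e) N M * pos (wa (zc e) N) M - neg (wa (zc e) N) M))) := by
    have hUN : U N = ev y (QM (zc e) N M) := hU N
    rw [hUN, map_sub, map_mul]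
    have h6 : D N * Wf e N M y - 1 = (ev y (neg (aa e N) M))⁻¹ *
        (ev y (neg (aa e N) M) * (D N * Wf e N M y - 1)) := by
      rw [← mul_assoc, inv_mul_cancel₀ hnegne, one_mul]
    rw [h6]
    congr 1
    change _ = (D N - ev y (QM (zc e) N M)) * ev y (pos (aa e N) M) +
      (ev y (QM (zc e) N M) * ev y (pos (aa e N) M) - ev y (neg (aa e N) M))
    rw [← hW]
    ring
  rw [hfin, norm_mul, norm_inv, mul_assoc]
  refine mul_le_mul (inv_anti₀ hc0 hnegb) ?_ (norm_nonneg _) (by positivity)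
  refine (norm_add_le _ _).trans ?_
  rw [norm_mul]
  have h7 : ‖D N - U N‖ * ‖ev y (pos (aa e N) M)‖ ≤
      ((3 * B) ^ N * (η + C1 * ρ ^ (M + 1))) * C3 := by
    have h8 := hP y ρ h0 hρ1 hy
    rw [pow_zero, mul_one] at h8
    exact mul_le_mul hcmp.1 h8 (norm_nonneg _) (by positivity)
  have h9 := hJ y ρ h0 hρ1 hy
  have h11 : 0 ≤ C3 * (3 * B) ^ N := by positivity
  nlinarith [mul_nonneg h11 hη, mul_nonneg h11 (mul_nonneg hC1 hη),
    mul_nonneg h11 (mul_nonneg hC1 hpρ0), mul_nonneg h11 hpρ0, mul_nonneg hC2 hη]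

end main

end Pool.Agent.KS6_22.SP
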