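import Pool.Agent.KS6_22.SP.Gr

/-!
# Powers of `1 - a X` with integer exponents

Owner helper22.
-/

set_option autoImplicit false
set_option linter.unusedSectionVars false

open PowerSeries

namespace Pool.Agent.KS6_22.SP

section fac

variable {R : Type} [CommRing R]

/-- `(1 - a X) ^ (-z)` -/
noncomputable def fac (a : R) (z : ℤ) : R⟦X⟧ := mk fun n => ((Ring.multichoose z n : ℤ) : R) * a ^ n

lemma mc_zero (z : ℤ) : Ring.multichoose z 0 = 1 := Ring.multichoose_zero_right z

lemma fac_zero (a : R) : fac a 0 = 1 := by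
  ext n
  unfold fac
  rw [coeff_mk, coeff_one]
  cases n with
  | zero => simp
  | succ n => simp

lemma lin_mul_fac (a : R) (z : ℤ) : (1 - C a * X) * fac a (z + 1) = fac a z := by
  ext n
  have h0 : (1 - C a * X) * fac a (z + 1) = fac a (z + 1) - C a * (X * fac a (z + 1)) := by ring
  rw [h0, map_sub, coeff_C_mul]
  cases n with
  | zero =>
    rw [coeff_zero_X_mul]
    unfold fac
    rw [coeff_mk, coeff_mk]
    simp
  | succ n =>
    rw [coeff_succ_X_mul]
    unfold fac
    rw [coeff_mk, coeff_mk, coeff_mk, Ring.multichoose_succ_succ]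
    push_cast
    ring

lemma lin_pow_mul_fac (a : R) (n : ℕ) (z : ℤ) : (1 - C a * X) ^ n * fac a (z + n) = fac a z := by
  induction n with
  | zero => simp
  | succ n ih =>
    have h1 : z + ((n + 1 : ℕ) : ℤ) = (z + n) + 1 := by push_cast; ring
    rw [h1, pow_succ, mul_assoc, lin_mul_fac, ih]

/-- the positive and the negative exponents -/
lemma fac_toNat (a : R) (z : ℤ) :
    (1 - C a * X) ^ z.toNat * fac a z = (1 - C a * X) ^ (-z).toNat := by
  rcases le_total 0 z with h | h
  · have h1 : (-z).toNat = 0 := Int.toNat_of_nonpos (by omega)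
    have h2 : (z.toNat : ℤ) = z := Int.toNat_of_nonneg h
    have h3 := lin_pow_mul_fac a z.toNat 0
    rw [zero_add, h2, fac_zero] at h3
    rw [h1, h3, pow_zero]
  · have h1 : z.toNat = 0 := Int.toNat_of_nonpos h
    have h2 : (((-z).toNat : ℕ) : ℤ) = -z := Int.toNat_of_nonneg (by omega)
    have h3 := lin_pow_mul_fac a (-z).toNat z
    rw [h2, add_neg_cancel, fac_zero, mul_one] at h3
    rw [h1, pow_zero, one_mul, h3]

lemma fac_map {S : Type} [CommRing S] (φ : R →+* S) (a : R) (z : ℤ) :
    PowerSeries.map φ (fac a z) = fac (φ a) z := by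
  ext n
  unfold fac
  rw [coeff_map, coeff_mk, coeff_mk, map_mul, map_intCast, map_pow]

/-- the sum `a X + a ^ 2 X ^ 2 + …` -/
noncomputable def gs (a : R) : R⟦X⟧ := mk fun n => if n = 0 then 0 else a ^ n

lemma mc_sum (z : ℤ) (n : ℕ) :
    z * ∑ j ∈ Finset.range n, Ring.multichoose z j = n * Ring.multichoose z n := by
  have hrec : ∀ n : ℕ, ((n : ℤ) + 1) * Ring.multichoose z (n + 1) =
      (z + n) * Ring.multichoose z n := by
    intro n
    have h1 := Ring.factorial_nsmul_multichoose_eq_ascPochhammer z (n + 1)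
    have h2 := Ring.factorial_nsmul_multichoose_eq_ascPochhammer z n
    rw [ascPochhammer_succ_right, Polynomial.smeval_mul, Polynomial.smeval_add,
      Polynomial.smeval_X, ← h2, ← Polynomial.C_eq_natCast, Polynomial.smeval_C] at h1
    simp only [nsmul_eq_mul, pow_one, pow_zero, Nat.factorial_succ, mul_one] at h1
    have h3 : ((n.factorial : ℕ) : ℤ) ≠ 0 := by exact_mod_cast n.factorial_ne_zero
    apply mul_left_cancel₀ h3
    push_cast at h1 ⊢
    linarith
  induction n with
  | zero => simp
  | succ n ih =>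
    rw [Finset.sum_range_succ, mul_add, ih]
    have := hrec n
    push_cast
    linarith

/-- the recursion with the power sums `P` -/
def Rec (V P : R⟦X⟧) : Prop := X * derivative R V = P * V

lemma Rec.mul {V P W Q : R⟦X⟧} (h : Rec V P) (h' : Rec W Q) : Rec (V * W) (P + Q) := by
  unfold Rec at *
  rw [Derivation.leibniz, smul_eq_mul, smul_eq_mul]
  linear_combination W * h + V * h'

lemma rec_one : Rec (1 : R⟦X⟧) 0 := by
  unfold Rec
  simp

lemma rec_prod {ι : Type} (S : Finset ι) (V P : ι → R⟦X⟧) (h : ∀ i ∈ S, Rec (V i) (P i)) :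
    Rec (∏ i ∈ S, V i) (∑ i ∈ S, P i) := by
  classical
  induction S using Finset.induction_on with
  | empty => exact rec_one
  | insert i S hi ih =>
    rw [Finset.prod_insert hi, Finset.sum_insert hi]
    exact (h i (Finset.mem_insert_self _ _)).mul (ih fun j hj => h j (Finset.mem_insert_of_mem hj))

lemma coeff_X_mul_derivative (V : R⟦X⟧) (n : ℕ) : coeff n (X * derivative R V) = n * coeff n V := by
  cases n with
  | zero => simp
  | succ n =>
    rw [coeff_succ_X_mul, coeff_derivative]
    push_cast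
    ring

lemma rec_coeff {V P : R⟦X⟧} (h : Rec V P) (hP : coeff 0 P = 0) (n : ℕ) :
    (n : R) * coeff n V = ∑ j ∈ Finset.range n, coeff (j + 1) P * coeff (n - 1 - j) V := by
  have h1 := congrArg (coeff n) h
  rw [coeff_X_mul_derivative, coeff_mul, Finset.Nat.sum_antidiagonal_eq_sum_range_succ
    (fun i j => coeff i P * coeff j V) n, Finset.sum_range_succ', hP, zero_mul, add_zero] at h1
  rw [h1]
  refine Finset.sum_congr rfl fun j hj => ?_
  have : n - (j + 1) = n - 1 - j := by omega
  rw [this]

lemma rec_fac (a : R) (z : ℤ) : Rec (fac a z) ((z : R⟦X⟧) * gs a) := by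
  unfold Rec
  ext n
  rw [coeff_X_mul_derivative]
  have hz : (z : R⟦X⟧) = C (z : R) := by simp
  rw [hz, mul_assoc, coeff_C_mul, coeff_mul, Finset.Nat.sum_antidiagonal_eq_sum_range_succ
    (fun i j => coeff i (gs a) * coeff j (fac a z)) n, Finset.sum_range_succ']
  unfold fac gs
  simp only [coeff_mk, if_true, zero_mul, add_zero, Nat.add_eq_zero_iff, one_ne_zero, and_false,
    if_false]
  have h1 : ∀ j ∈ Finset.range n, a ^ (j + 1) * (((Ring.multichoose z (n - (j + 1)) : ℤ) : R) *
      a ^ (n - (j + 1))) = ((Ring.multichoose z (n - 1 - j) : ℤ) : R) * a ^ n := by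
    intro j hj
    rw [Finset.mem_range] at hj
    have h2 : n - (j + 1) = n - 1 - j := by omega
    have h3 : a ^ n = a ^ (j + 1) * a ^ (n - 1 - j) := by
      rw [← pow_add]
      congr 1
      omega
    rw [h2, h3]
    ring
  rw [Finset.sum_congr rfl h1, ← Finset.sum_mul,
    Finset.sum_range_reflect (fun j => ((Ring.multichoose z j : ℤ) : R)) n]
  have h4 := congrArg (Int.cast : ℤ → R) (mc_sum z n)
  push_cast at h4
  rw [← mul_assoc, ← mul_assoc, h4]

end fac

end Pool.Agent.KS6_22.SP
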