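import Pool.Agent.KS6_22.SP.DefS
import Pool.Agent.KS6_22.SP.Loc
import Pool.Agent.KS6_22.MF.FinB

/-!
# The L-function of the base change as an Euler product over the base field

Owner helper22.
-/

set_option autoImplicit false
set_option linter.unusedSectionVars false
set_option linter.unusedVariables false
set_option linter.style.haveILetI false

open Polynomial NumberField IsDedekindDomain
open Pool.Agent.T6.H9.MV (fmean kv qv card_kv qv_ne_zero two_le_qv summable_qv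
  multipliable_of_bound tprod_ne_zero' hasProd_zpow diff_prod)
open Pool.Agent.KS6_22.NB (Ab fib mem_fib fib_finite)
open Pool.Agent.KS6_22.MF

namespace Pool.Agent.KS6_22.SP

attribute [local instance] fldv

section one

variable {F : Type} [Field F] [NumberField F] {L : Type} [Field L] [NumberField L] [Algebra F L]
  {r : ℕ}

lemma norm_qpow (v : HeightOneSpectrum (𝓞 F)) (s : ℂ) :
    ‖(qv v : ℂ) ^ (-s)‖ = (qv v : ℝ) ^ (-s.re) := by
  have h := Nat.pos_of_ne_zero (qv_ne_zero v)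
  rw [Complex.norm_natCast_cpow_of_pos h, Complex.neg_re]

lemma qv_one (v : HeightOneSpectrum (𝓞 F)) : (1 : ℝ) ≤ qv v := by
  have := two_le_qv v
  exact_mod_cast (by omega : 1 ≤ qv v)

lemma qv_pos (v : HeightOneSpectrum (𝓞 F)) : (0 : ℝ) < qv v := by
  have := qv_one v
  linarith

/-- the norm of a prime of the extension -/
lemma qv_under (w : HeightOneSpectrum (𝓞 L)) :
    qv w = qv (w.under (𝓞 F)) ^ (w.asIdeal.inertiaDeg (𝓞 F)) := by
  haveI := w.isPrime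
  haveI : w.asIdeal.LiesOver (w.under (𝓞 F)).asIdeal := ⟨rfl⟩
  haveI : Module.Finite (𝓞 F) (𝓞 L) := by infer_instance
  exact (Ideal.absNorm_pow_inertiaDeg (R := 𝓞 F) (w.under (𝓞 F)).asIdeal w.asIdeal).symm

lemma inertia_ne (w : HeightOneSpectrum (𝓞 L)) : w.asIdeal.inertiaDeg (𝓞 F) ≠ 0 := by
  intro h
  have h1 := qv_under (F := F) w
  rw [h, pow_zero] at h1
  have := two_le_qv w
  omega

/-- the term of the Euler factor -/
lemma bc_term {m : ℕ} {α : HeightOneSpectrum (𝓞 F) → Fin m → ℂ} {θ : ℝ}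
    (hα : ∀ v i, ‖α v i‖ ≤ (qv v : ℝ) ^ θ) (w : HeightOneSpectrum (𝓞 L)) (s : ℂ) (i : Fin m) :
    ‖α (w.under (𝓞 F)) i ^ (w.asIdeal.inertiaDeg (𝓞 F)) * (qv w : ℂ) ^ (-s)‖ ≤
      (qv w : ℝ) ^ (θ - s.re) := by
  rw [norm_mul, norm_pow, norm_qpow]
  have hq := qv_pos (w.under (𝓞 F))
  have h1 : ‖α (w.under (𝓞 F)) i‖ ^ (w.asIdeal.inertiaDeg (𝓞 F)) ≤ (qv w : ℝ) ^ θ := by
    calc _ ≤ ((qv (w.under (𝓞 F)) : ℝ) ^ θ) ^ (w.asIdeal.inertiaDeg (𝓞 F)) :=
          pow_le_pow_left₀ (norm_nonneg _) (hα _ i) _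
      _ = (qv w : ℝ) ^ θ := by
        have h2 : (qv w : ℝ) = (qv (w.under (𝓞 F)) : ℝ) ^ (w.asIdeal.inertiaDeg (𝓞 F)) := by
          exact_mod_cast qv_under (F := F) w
        rw [h2, ← Real.rpow_natCast, ← Real.rpow_natCast, ← Real.rpow_mul hq.le,
          ← Real.rpow_mul hq.le, mul_comm]
  calc _ ≤ (qv w : ℝ) ^ θ * (qv w : ℝ) ^ (-s.re) :=
        mul_le_mul_of_nonneg_right h1 (Real.rpow_nonneg (qv_pos w).le _)
    _ = _ := by rw [← Real.rpow_add (qv_pos w), sub_eq_add_neg]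

lemma pow_neg_le {x y : ℝ} (hx : 2 ≤ x) (hy : 0 < y) : x ^ (-y) ≤ (2 : ℝ) ^ (-y) ∧
    (2 : ℝ) ^ (-y) < 1 := by
  refine ⟨?_, ?_⟩
  · exact Real.rpow_le_rpow_of_nonpos (by norm_num) hx (by linarith)
  · exact Real.rpow_lt_one_of_one_lt_of_neg (by norm_num) (by linarith)

/-- the Euler product of the base change -/
theorem bc_hasProd {m : ℕ} {α : HeightOneSpectrum (𝓞 F) → Fin m → ℂ} {θ : ℝ}
    (hα : ∀ v i, ‖α v i‖ ≤ (qv v : ℝ) ^ θ) (δ : 𝓞 L) {s : ℂ} (hs : 1 + θ < s.re) :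
    HasProd (fun w : HeightOneSpectrum (𝓞 L) => bcFactor α δ w s)
      (∏' w : HeightOneSpectrum (𝓞 L), bcFactor α δ w s) ∧
    ∏' w : HeightOneSpectrum (𝓞 L), bcFactor α δ w s ≠ 0 := by
  classical
  have hκ : 0 < s.re - θ := by linarith
  obtain ⟨C, B, hC, hB, h⟩ := prod_bound (J := Fin m) (fun _ => -1)
    (pow_neg_le (x := 2) le_rfl hκ).2
  have key : ∀ w : HeightOneSpectrum (𝓞 L), ‖bcFactor α δ w s - 1‖ ≤
      C * (qv w : ℝ) ^ (-(s.re - θ)) ∧ bcFactor α δ w s ≠ 0 := by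
    intro w
    have hq2 : (2 : ℝ) ≤ qv w := by exact_mod_cast two_le_qv w
    have h1 := h (fun i => α (w.under (𝓞 F)) i ^ (w.asIdeal.inertiaDeg (𝓞 F)) *
      (qv w : ℂ) ^ (-s)) ((qv w : ℝ) ^ (-(s.re - θ))) (Real.rpow_nonneg (qv_pos w).le _)
      (pow_neg_le hq2 hκ).1 (fun i => by
        have h2 := bc_term hα w s i
        rwa [neg_sub])
    simp only [zpow_neg_one] at h1
    unfold bcFactor
    split_ifs with hd
    · rw [sub_self, norm_zero]
      exact ⟨mul_nonneg hC (Real.rpow_nonneg (qv_pos w).le _), one_ne_zero⟩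
    · exact ⟨h1.1, h1.2.2⟩
  have hβ : Summable fun w : HeightOneSpectrum (𝓞 L) => C * (qv w : ℝ) ^ (-(s.re - θ)) :=
    (summable_qv (K := L) (x := s.re - θ) (by linarith)).mul_left C
  exact ⟨(multipliable_of_bound hβ fun w => (key w).1).hasProd,
    tprod_ne_zero' hβ (fun w => (key w).1) fun w => (key w).2⟩

end one

section two

variable {F : Type} [Field F] [NumberField F] {L : Type} [Field L] [NumberField L] [Algebra F L]
  {r : ℕ} {m : Fin r → ℕ}

/-- the exponents -/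
def ee (m : Fin r → ℕ) (e : Fin r → ℤ) : (k : Fin r) × Fin (m k) → ℤ := fun x => e x.1

/-- the variables -/
noncomputable def yv (α : ∀ k, HeightOneSpectrum (𝓞 F) → Fin (m k) → ℂ) (s : Fin r → ℂ)
    (v : HeightOneSpectrum (𝓞 F)) : (k : Fin r) × Fin (m k) → ℂ :=
  fun x => α x.1 v x.2 * (qv v : ℂ) ^ (-(s x.1))

/-- the local function -/
noncomputable def hP {N : ℕ} (e : Fin r → ℤ) (α : ∀ k, HeightOneSpectrum (𝓞 F) → Fin (m k) → ℂ)
    (s : Fin r → ℂ) (v : HeightOneSpectrum (𝓞 F)) (t : Fin N → kv v) : ℂ :=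
  Gz (Zf (ee m e) (yv α s v)) (mon t)

lemma Zf_yv (e : Fin r → ℤ) (α : ∀ k, HeightOneSpectrum (𝓞 F) → Fin (m k) → ℂ)
    (s : Fin r → ℂ) (v : HeightOneSpectrum (𝓞 F)) (d : ℕ) :
    Zf (ee m e) (yv α s v) d =
      ∏ k, (∏ i, (1 - α k v i ^ d * ((qv v ^ d : ℕ) : ℂ) ^ (-(s k)))⁻¹) ^ e k := by
  unfold Zf ee yv
  rw [Fintype.prod_sigma]
  refine Finset.prod_congr rfl fun k _ => ?_
  rw [← Finset.prod_zpow]
  refine Finset.prod_congr rfl fun i _ => ?_
  rw [inv_zpow', mul_pow]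
  congr 3
  push_cast
  rw [← Complex.natCast_cpow_natCast_mul, Complex.cpow_nat_mul]

/-- the local factor at a residue ring -/
noncomputable def ph (e : Fin r → ℤ) (α : ∀ k, HeightOneSpectrum (𝓞 F) → Fin (m k) → ℂ)
    (s : Fin r → ℂ) (v : HeightOneSpectrum (𝓞 F)) (A : Type) : ℂ :=
  Zf (ee m e) (yv α s v) (Nat.log (qv v) (Nat.card A))

lemma ph_eq (e : Fin r → ℤ) (α : ∀ k, HeightOneSpectrum (𝓞 F) → Fin (m k) → ℂ)
    (s : Fin r → ℂ) (v : HeightOneSpectrum (𝓞 F)) {A : Type} {d : ℕ}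
    (hA : Nat.card A = qv v ^ d) : ph e α s v A = Zf (ee m e) (yv α s v) d := by
  unfold ph
  rw [hA, Nat.log_pow (by have := two_le_qv v; omega)]

lemma prod_fib {f : (𝓞 F)[X]} {θ : 𝓞 L} (hD : Dt f θ) (e : Fin r → ℤ)
    (α : ∀ k, HeightOneSpectrum (𝓞 F) → Fin (m k) → ℂ) (s : Fin r → ℂ)
    (v : HeightOneSpectrum (𝓞 F)) :
    ∏ w ∈ fib L v, ∏ k, bcFactor (α k) (aeval θ (derivative f)) w (s k) ^ e k =
      Gz (Zf (ee m e) (yv α s v)) (fb f v) := by
  classical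
  have h1 := prod_above hD v 0 0 (fun A _ _ => ph e α s v A) (fun A B _ _ g t => by
    unfold ph
    rw [Nat.card_congr g.toEquiv])
  have h2 : ∏ g ∈ SF (fb f v), ph e α s v (AdjoinRoot g) =
      Gz (Zf (ee m e) (yv α s v)) (fb f v) := by
    unfold Gz
    refine Finset.prod_congr rfl fun g hg => ph_eq e α s v ?_
    have hg' := (mem_SF (fb_monic hD.monic v).ne_zero).1 hg
    rw [adj_card hg'.1.2.1, card_kv]
  rw [← h2, ← h1, Finset.prod_filter]
  refine Finset.prod_congr rfl fun w hw => ?_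
  have hu : w.under (𝓞 F) = v := mem_fib.1 hw
  unfold bcFactor
  by_cases hg : Pool.Agent.KS6_22.MF.Gd f θ w
  · rw [if_pos hg]
    have hqw := qv_under (F := F) w
    rw [hu] at hqw
    rw [ph_eq e α s v (d := w.asIdeal.inertiaDeg (𝓞 F)) (by rw [card_kv, hqw]), Zf_yv, ← hqw]
    refine Finset.prod_congr rfl fun k _ => ?_
    rw [if_neg hg, hu]
  · rw [if_neg hg]
    refine Finset.prod_eq_one fun k _ => ?_
    unfold Pool.Agent.KS6_22.MF.Gd at hg
    rw [not_not] at hg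
    rw [if_pos hg, one_zpow]

/-- **The L-function over `L` as an Euler product over the primes of `F`.** -/
theorem hasProd_hP {f : (𝓞 F)[X]} {θ : 𝓞 L} (hD : Dt f θ) (e : Fin r → ℤ)
    {α : ∀ k, HeightOneSpectrum (𝓞 F) → Fin (m k) → ℂ} {ϑ : Fin r → ℝ}
    (hα : ∀ k v i, ‖α k v i‖ ≤ (qv v : ℝ) ^ ϑ k) {s : Fin r → ℂ} (hs : ∀ k, 1 + ϑ k < (s k).re) :
    HasProd (fun v : HeightOneSpectrum (𝓞 F) => Gz (Zf (ee m e) (yv α s v)) (fb f v))
      (∏ k, (∏' w : HeightOneSpectrum (𝓞 L),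
        bcFactor (α k) (aeval θ (derivative f)) w (s k)) ^ e k) := by
  classical
  have h0 : HasProd (fun w : HeightOneSpectrum (𝓞 L) =>
      ∏ k, bcFactor (α k) (aeval θ (derivative f)) w (s k) ^ e k)
      (∏ k, (∏' w : HeightOneSpectrum (𝓞 L),
        bcFactor (α k) (aeval θ (derivative f)) w (s k)) ^ e k) := by
    refine hasProd_prod fun k _ => ?_
    obtain ⟨h1, h2⟩ := bc_hasProd (hα k) (aeval θ (derivative f)) (hs k)
    exact hasProd_zpow h1 h2 (e k)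
  let g := Equiv.sigmaFiberEquiv (fun w : HeightOneSpectrum (𝓞 L) => w.under (𝓞 F))
  have h1 := g.hasProd_iff.2 h0
  haveI : ∀ v : HeightOneSpectrum (𝓞 F),
      Fintype {w : HeightOneSpectrum (𝓞 L) // w.under (𝓞 F) = v} :=
    fun v => (fib_finite (L := L) v).fintype
  have h2 := h1.sigma fun v => hasProd_fintype _
  refine h2.congr_fun fun v => ?_
  rw [← prod_fib hD e α s v]
  refine (Finset.prod_subtype (fib L v) (fun w => ?_) (fun w => ∏ k,
    bcFactor (α k) (aeval θ (derivative f)) w (s k) ^ e k))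
  rw [mem_fib]
  rfl

end two

end Pool.Agent.KS6_22.SP
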