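import Mathlib

/-!
# Polynomials with integer coefficients up to terms of high degree

Owner helper22.
-/

set_option autoImplicit false
set_option linter.unusedSectionVars false

open MvPolynomial

namespace Pool.Agent.KS6_22.SP

section filt

variable {I : Type}

/-- the polynomials without monomials of degree less than `m` -/
def J (I : Type) (m : ℕ) : Ideal (MvPolynomial I ℤ) where
  carrier := {P | ∀ ν : I →₀ ℕ, P.coeff ν ≠ 0 → m ≤ ν.degree}
  zero_mem' := fun ν h => absurd (MvPolynomial.coeff_zero ν) h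
  add_mem' := by
    intro P Q hP hQ ν h
    rw [MvPolynomial.coeff_add] at h
    by_contra hc
    have h1 : P.coeff ν = 0 := by
      by_contra h'
      exact hc (hP ν h')
    have h2 : Q.coeff ν = 0 := by
      by_contra h'
      exact hc (hQ ν h')
    exact h (by rw [h1, h2, add_zero])
  smul_mem' := by
    classical
    intro P Q hQ ν h
    rw [smul_eq_mul, MvPolynomial.coeff_mul] at h
    obtain ⟨x, hx, hx0⟩ := Finset.exists_ne_zero_of_sum_ne_zero h
    have h1 := hQ x.2 (right_ne_zero_of_mul hx0)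
    rw [← Finset.HasAntidiagonal.mem_antidiagonal.1 hx, map_add]
    omega

lemma mem_J {m : ℕ} {P : MvPolynomial I ℤ} :
    P ∈ J I m ↔ ∀ ν : I →₀ ℕ, P.coeff ν ≠ 0 → m ≤ ν.degree := Iff.rfl

lemma J_zero (P : MvPolynomial I ℤ) : P ∈ J I 0 := fun _ _ => Nat.zero_le _

lemma J_mono {m n : ℕ} (h : m ≤ n) {P : MvPolynomial I ℤ} (hP : P ∈ J I n) : P ∈ J I m :=
  fun ν hν => h.trans (hP ν hν)

lemma J_mul {m n : ℕ} {P Q : MvPolynomial I ℤ} (hP : P ∈ J I m) (hQ : Q ∈ J I n) :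
    P * Q ∈ J I (m + n) := by
  classical
  intro ν h
  rw [MvPolynomial.coeff_mul] at h
  obtain ⟨x, hx, hx0⟩ := Finset.exists_ne_zero_of_sum_ne_zero h
  have h1 := hQ x.2 (right_ne_zero_of_mul hx0)
  have h2 := hP x.1 (left_ne_zero_of_mul hx0)
  rw [← Finset.HasAntidiagonal.mem_antidiagonal.1 hx, map_add]
  omega

lemma J_pow {m : ℕ} {P : MvPolynomial I ℤ} (hP : P ∈ J I m) (n : ℕ) : P ^ n ∈ J I (n * m) := by
  induction n with
  | zero => exact J_mono (by simp) (J_zero (P ^ 0))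
  | succ n ih =>
    rw [pow_succ]
    refine J_mono (by rw [Nat.succ_mul]) (J_mul ih hP)

/-- the residue class -/
noncomputable abbrev pr (I : Type) (m : ℕ) : MvPolynomial I ℤ →+* (MvPolynomial I ℤ ⧸ J I m) :=
  Ideal.Quotient.mk (J I m)

lemma pr_eq {m : ℕ} {P Q : MvPolynomial I ℤ} : pr I m P = pr I m Q ↔ P - Q ∈ J I m :=
  Ideal.Quotient.eq

lemma pr_zero {m : ℕ} {P : MvPolynomial I ℤ} : pr I m P = 0 ↔ P ∈ J I m :=
  Ideal.Quotient.eq_zero_iff_mem

lemma pr_mono {m n : ℕ} (h : m ≤ n) {P Q : MvPolynomial I ℤ} (hP : pr I n P = pr I n Q) :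
    pr I m P = pr I m Q := pr_eq.2 (J_mono h (pr_eq.1 hP))

end filt

section mono

variable {I : Type} [Fintype I]

/-- the monomial -/
noncomputable def mo (μ : I → ℕ) : MvPolynomial I ℤ :=
  monomial (Finsupp.equivFunOnFinite.symm μ) 1

lemma deg_symm (μ : I → ℕ) : (Finsupp.equivFunOnFinite.symm μ : I →₀ ℕ).degree = ∑ i, μ i := by
  rw [Finsupp.degree_eq_sum]
  rfl

lemma mo_mem (μ : I → ℕ) : mo μ ∈ J I (∑ i, μ i) := by
  classical
  intro ν h
  unfold mo at h
  rw [coeff_monomial] at h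
  have h1 : Finsupp.equivFunOnFinite.symm μ = ν := by
    by_contra hc
    exact h (if_neg hc)
  rw [← h1, deg_symm]

/-- the coefficient -/
noncomputable def cf (μ : I → ℕ) (P : MvPolynomial I ℤ) : ℤ :=
  P.coeff (Finsupp.equivFunOnFinite.symm μ)

/-- the multi-indices of degree `1, …, M` -/
def idx (I : Type) [Fintype I] [DecidableEq I] (M : ℕ) : Finset (I → ℕ) :=
  (Fintype.piFinset fun _ => Finset.range (M + 1)).filter fun μ => 0 < ∑ i, μ i ∧ ∑ i, μ i ≤ M

variable [DecidableEq I]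

lemma mem_idx {M : ℕ} {μ : I → ℕ} : μ ∈ idx I M ↔ 0 < ∑ i, μ i ∧ ∑ i, μ i ≤ M := by
  unfold idx
  rw [Finset.mem_filter, Fintype.mem_piFinset]
  constructor
  · exact fun h => h.2
  · intro h
    refine ⟨fun i => ?_, h⟩
    rw [Finset.mem_range]
    have := Finset.single_le_sum (f := μ) (fun _ _ => Nat.zero_le _) (Finset.mem_univ i)
    omega

/-- the multi-indices of degree `M` -/
def lay (I : Type) [Fintype I] [DecidableEq I] (M : ℕ) : Finset (I → ℕ) :=
  (Fintype.piFinset fun _ => Finset.range (M + 1)).filter fun μ => ∑ i, μ i = M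

lemma mem_lay {M : ℕ} {μ : I → ℕ} : μ ∈ lay I M ↔ ∑ i, μ i = M := by
  unfold lay
  rw [Finset.mem_filter, Fintype.mem_piFinset]
  constructor
  · exact fun h => h.2
  · intro h
    refine ⟨fun i => ?_, h⟩
    rw [Finset.mem_range]
    have := Finset.single_le_sum (f := μ) (fun _ _ => Nat.zero_le _) (Finset.mem_univ i)
    omega

lemma idx_succ (M : ℕ) : idx I (M + 1) = idx I M ∪ lay I (M + 1) := by
  ext μ
  rw [Finset.mem_union, mem_idx, mem_idx, mem_lay]
  omega

lemma idx_disj (M : ℕ) : Disjoint (idx I M) (lay I (M + 1)) := by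
  rw [Finset.disjoint_left]
  intro μ h1 h2
  rw [mem_idx] at h1
  rw [mem_lay] at h2
  omega

/-- the homogeneous part of lowest degree -/
lemma sub_homog {m : ℕ} {P : MvPolynomial I ℤ} (hP : P ∈ J I m) :
    P - ∑ μ ∈ lay I m, (cf μ P : MvPolynomial I ℤ) * mo μ ∈ J I (m + 1) := by
  classical
  intro ν h
  by_contra hc
  have hν : ν.degree ≤ m := by omega
  apply h
  rw [MvPolynomial.coeff_sub, MvPolynomial.coeff_sum]
  have h1 : ∀ μ : I → ℕ, ((cf μ P : MvPolynomial I ℤ) * mo μ).coeff ν =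
      if Finsupp.equivFunOnFinite.symm μ = ν then cf μ P else 0 := by
    intro μ
    unfold mo
    have h2 : (cf μ P : MvPolynomial I ℤ) = C (cf μ P) := by simp
    rw [h2, C_mul_monomial, coeff_monomial, mul_one]
  rw [Finset.sum_congr rfl fun μ _ => h1 μ]
  rcases hν.lt_or_eq with h3 | h3
  · have h4 : P.coeff ν = 0 := by
      by_contra h'
      have := hP ν h'
      omega
    rw [h4, Finset.sum_eq_zero, sub_zero]
    intro μ hμ
    rw [mem_lay] at hμ
    rw [if_neg]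
    intro h5
    rw [← h5, deg_symm] at h3
    omega
  · rw [Finset.sum_eq_single (ν : I → ℕ)]
    · have h6 : (Finsupp.equivFunOnFinite.symm (ν : I → ℕ) : I →₀ ℕ) = ν :=
        Finsupp.equivFunOnFinite.symm_apply_apply ν
      rw [if_pos h6]
      unfold cf
      rw [h6, sub_self]
    · intro μ _ hne
      rw [if_neg]
      intro h5
      apply hne
      rw [← h5]
      rfl
    · intro h7
      exfalso
      apply h7
      rw [mem_lay, ← h3, Finsupp.degree_eq_sum]

/-- the value -/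
noncomputable def ev (y : I → ℂ) : MvPolynomial I ℤ →+* ℂ := (aeval y : _ →ₐ[ℤ] ℂ).toRingHom

lemma ev_mo (y : I → ℂ) (μ : I → ℕ) : ev y (mo μ) = ∏ i, y i ^ μ i := by
  unfold ev mo
  change aeval y _ = _
  rw [aeval_monomial, map_one, one_mul, Finsupp.prod_fintype _ _ (fun i => pow_zero _)]
  rfl

lemma ev_bound {m : ℕ} {P : MvPolynomial I ℤ} (hP : P ∈ J I m) : ∃ C : ℝ, 0 ≤ C ∧
    ∀ (y : I → ℂ) (ρ : ℝ), 0 ≤ ρ → ρ ≤ 1 → (∀ i, ‖y i‖ ≤ ρ) → ‖ev y P‖ ≤ C * ρ ^ m := by
  refine ⟨∑ ν ∈ P.support, ‖((P.coeff ν : ℤ) : ℂ)‖, Finset.sum_nonneg fun _ _ => norm_nonneg _,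
    fun y ρ h0 h1 hy => ?_⟩
  have h2 : ev y P = ∑ ν ∈ P.support, ((P.coeff ν : ℤ) : ℂ) * ∏ i, y i ^ ν i := by
    unfold ev
    change aeval y P = _
    rw [aeval_def, eval₂_eq']
    rfl
  rw [h2, Finset.sum_mul]
  refine (norm_sum_le _ _).trans (Finset.sum_le_sum fun ν hν => ?_)
  rw [norm_mul]
  refine mul_le_mul_of_nonneg_left ?_ (norm_nonneg _)
  rw [norm_prod]
  have h3 : ∏ i, ‖y i ^ ν i‖ ≤ ∏ i, ρ ^ ν i := by
    refine Finset.prod_le_prod (fun _ _ => norm_nonneg _) fun i _ => ?_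
    rw [norm_pow]
    exact pow_le_pow_left₀ (norm_nonneg _) (hy i) _
  refine h3.trans ?_
  rw [Finset.prod_pow_eq_pow_sum]
  refine pow_le_pow_of_le_one h0 h1 ?_
  have h4 := hP ν (mem_support_iff.1 hν)
  rwa [Finsupp.degree_eq_sum] at h4

end mono

end Pool.Agent.KS6_22.SP
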