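import Pool.Agent.KS6_22.MF.Sec

/-!
# Means of multiplicative functions of the simple factors: the exact identity

Owner helper22.
-/

set_option autoImplicit false
set_option linter.unusedSectionVars false
set_option linter.unusedVariables false
set_option linter.style.haveILetI false

open Polynomial
open Pool.Agent.T6.H9.MV (fmean fmean_eq fmean_comp fmean_pi fmean_sub fmean_ite)
open Pool.Agent.KS6_22.MF

namespace Pool.Agent.KS6_22.SP

section alg

variable {k : Type} [Field k] [Finite k] {n : ℕ}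

/-- the multiplicative function -/
noncomputable def Gz (Z : ℕ → ℂ) (f : k[X]) : ℂ := ∏ P ∈ SF f, Z P.natDegree

lemma mem_SF_mul {P g : k[X]} (hP : Irreducible P) (hPm : P.Monic) (hg : g ≠ 0) :
    P ∈ SF (P * g) ↔ ¬ P ∣ g := by
  have hs : P.Separable := PerfectField.separable_of_irreducible hP
  rw [mem_SF (mul_ne_zero hP.ne_zero hg), derivative_mul]
  constructor
  · rintro ⟨-, h2⟩ h3
    exact h2 (dvd_add (h3.mul_left _) (dvd_mul_right P _))
  · intro h
    refine ⟨⟨hP, hPm, dvd_mul_right P g⟩, fun h2 => h ?_⟩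
    exact hs.dvd_of_dvd_mul_left ((dvd_add_left (dvd_mul_right P _)).1 h2)

open Classical in
lemma SF_mul {P g : k[X]} (hP : Irreducible P) (hPm : P.Monic) (hg : g ≠ 0) (h : ¬ P ∣ g) :
    SF (P * g) = insert P (SF g) := by
  ext Q
  rw [Finset.mem_insert]
  by_cases hQ : Q = P
  · rw [hQ]
    exact ⟨fun _ => Or.inl rfl, fun _ => (mem_SF_mul hP hPm hg).2 h⟩
  · rw [mem_SF (mul_ne_zero hP.ne_zero hg), mem_SF hg, derivative_mul]
    constructor
    · rintro ⟨⟨h1, h2, h3⟩, h4⟩
      have hc : IsCoprime Q P := coprime_of_ne h1 h2 hP hPm hQ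
      have h5 : Q ∣ g := hc.dvd_of_dvd_mul_left h3
      refine Or.inr ⟨⟨h1, h2, h5⟩, fun h6 => h4 ?_⟩
      exact dvd_add (h5.mul_left _) (h6.mul_left _)
    · rintro (h1 | ⟨⟨h1, h2, h3⟩, h4⟩)
      · exact absurd h1 hQ
      · have hc : IsCoprime Q P := coprime_of_ne h1 h2 hP hPm hQ
        refine ⟨⟨h1, h2, h3.mul_left _⟩, fun h6 => h4 ?_⟩
        exact hc.dvd_of_dvd_mul_left ((dvd_add_right (h3.mul_left _)).1 h6)

lemma Gz_mul (Z : ℕ → ℂ) {P g : k[X]} (hP : Irreducible P) (hPm : P.Monic) (hg : g ≠ 0)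
    (h : ¬ P ∣ g) : Gz Z (P * g) = Z P.natDegree * Gz Z g := by
  classical
  unfold Gz
  rw [SF_mul hP hPm hg h, Finset.prod_insert]
  intro h1
  exact h ((mem_SF hg).1 h1).1.2.2

open Classical in
/-- the multiples of a polynomial -/
lemma dvd_mean {P : k[X]} (hP : P.Monic) {d : ℕ} (hPd : P.natDegree = d) (hd : d ≤ n)
    (H : k[X] → ℂ) :
    fmean (fun c : Fin n → k => if P ∣ mon c then H (mon c) else 0) =
      1 / (Nat.card k : ℂ) ^ d * fmean (fun g : Fin (n - d) → k => H (P * mon g)) := by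
  haveI := Fintype.ofFinite k
  have hq : (Nat.card k : ℂ) ≠ 0 := card_ne
  have h1 : ∑ c : Fin n → k, (if P ∣ mon c then H (mon c) else 0) =
      ∑ g : Fin (n - d) → k, H (P * mon g) := by
    rw [← Finset.sum_filter]
    symm
    have hex : ∀ g : Fin (n - d) → k, ∃ c : Fin n → k, mon c = P * mon g := by
      intro g
      refine exists_mon (hP.mul (mon_monic g)) ?_
      rw [hP.natDegree_mul (mon_monic g), mon_natDegree, hPd]
      omega
    choose c hc using hex
    refine Finset.sum_bij (fun g _ => c g) ?_ ?_ ?_ ?_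
    · intro g _
      rw [Finset.mem_filter, hc]
      exact ⟨Finset.mem_univ _, dvd_mul_right _ _⟩
    · intro g _ g' _ h
      have h2 : P * mon g = P * mon g' := by
        rw [← hc, ← hc]
        exact congrArg mon h
      exact mon_inj (mul_left_cancel₀ hP.ne_zero h2)
    · intro b hb
      obtain ⟨Q, hQ⟩ := (Finset.mem_filter.1 hb).2
      have hQm : Q.Monic := by
        refine hP.of_mul_monic_left ?_
        rw [← hQ]
        exact mon_monic b
      have hQd : Q.natDegree = n - d := by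
        have h3 := congrArg natDegree hQ
        rw [mon_natDegree, hP.natDegree_mul hQm, hPd] at h3
        omega
      obtain ⟨g, hg⟩ := exists_mon hQm hQd
      refine ⟨g, Finset.mem_univ _, ?_⟩
      apply mon_inj
      change mon (c g) = mon b
      rw [hc, hg, hQ]
    · intro g _
      change H (P * mon g) = H (mon (c g))
      rw [hc]
  rw [fmean_eq, fmean_eq, h1, Fintype.card_fun, Fintype.card_fun, Fintype.card_fin,
    Fintype.card_fin, ← Nat.card_eq_fintype_card]
  have h4 : Nat.card k ^ n = Nat.card k ^ d * Nat.card k ^ (n - d) := by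
    rw [← pow_add]
    congr 1
    omega
  rw [h4]
  push_cast
  field_simp

open Classical in
/-- the sum over the simple factors by degrees -/
lemma sum_SF [Fintype k] {f : k[X]} (hf : f.Monic) (hn : f.natDegree = n) (w : k[X] → ℂ) :
    ∑ P ∈ SF f, w P = ∑ d ∈ Finset.Icc 1 n, ∑ t : Fin d → k,
      if mon t ∈ SF f then w (mon t) else 0 := by
  have hmaps : ∀ P ∈ SF f, P.natDegree ∈ Finset.Icc 1 n := by
    intro P hP
    have h1 := (mem_SF hf.ne_zero).1 hP
    rw [Finset.mem_Icc]
    refine ⟨?_, ?_⟩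
    · exact h1.1.1.natDegree_pos
    · rw [← hn]
      exact natDegree_le_of_dvd h1.1.2.2 hf.ne_zero
  rw [← Finset.sum_fiberwise_of_maps_to hmaps]
  refine Finset.sum_congr rfl fun d _ => ?_
  rw [← Finset.sum_filter]
  symm
  refine Finset.sum_bij (fun t _ => mon t) ?_ ?_ ?_ ?_
  · intro t ht
    rw [Finset.mem_filter] at ht ⊢
    exact ⟨ht.2, mon_natDegree t⟩
  · intro t _ t' _ h
    exact mon_inj h
  · intro P hP
    rw [Finset.mem_filter] at hP
    obtain ⟨t, ht⟩ := exists_mon ((mem_SF hf.ne_zero).1 hP.1).1.2.1 hP.2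
    refine ⟨t, ?_, ht⟩
    rw [Finset.mem_filter, ht]
    exact ⟨Finset.mem_univ _, hP.1⟩
  · intro t _
    rfl

open Classical in
/-- **The identity.** -/
theorem mean_sum_SF (h : k[X] → ℂ) :
    fmean (fun c : Fin n → k => ∑ P ∈ SF (mon c), (P.natDegree : ℂ) * h (mon c)) =
      ∑ d ∈ Finset.Icc 1 n, (d : ℂ) * fmean (fun t : Fin d → k =>
        if Irreducible (mon t) then fmean (fun g : Fin (n - d) → k =>
          if mon t ∣ mon g then 0 else h (mon t * mon g)) else 0) := by
  haveI := Fintype.ofFinite k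
  have hq : (Nat.card k : ℂ) ≠ 0 := card_ne
  have h1 : (fun c : Fin n → k => ∑ P ∈ SF (mon c), (P.natDegree : ℂ) * h (mon c)) =
      fun c => ∑ d ∈ Finset.Icc 1 n, ∑ t : Fin d → k,
        if mon t ∈ SF (mon c) then (d : ℂ) * h (mon c) else 0 := by
    funext c
    rw [sum_SF (mon_monic c) (mon_natDegree c)]
    refine Finset.sum_congr rfl fun d _ => Finset.sum_congr rfl fun t _ => ?_
    rw [mon_natDegree]
  rw [h1, fmean_sum]
  refine Finset.sum_congr rfl fun d hd => ?_
  rw [Finset.mem_Icc] at hd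
  rw [fmean_sum, fmean_eq (fun t : Fin d → k => _), Fintype.card_fun, Fintype.card_fin,
    ← Nat.card_eq_fintype_card, Finset.sum_div, Finset.mul_sum]
  refine Finset.sum_congr rfl fun t _ => ?_
  by_cases hirr : Irreducible (mon t)
  · rw [if_pos hirr]
    have h2 : (fun c : Fin n → k => if mon t ∈ SF (mon c) then (d : ℂ) * h (mon c) else 0) =
        fun c => if mon t ∣ mon c then
          (if mon t ∈ SF (mon c) then (d : ℂ) * h (mon c) else 0) else 0 := by
      funext c
      by_cases h3 : mon t ∣ mon c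
      · rw [if_pos h3]
      · rw [if_neg h3, if_neg]
        intro h4
        exact h3 ((mem_SF (mon_monic c).ne_zero).1 h4).1.2.2
    rw [h2, dvd_mean (mon_monic t) (mon_natDegree t) hd.2
      (fun f => if mon t ∈ SF f then (d : ℂ) * h f else 0)]
    have h5 : (fun g : Fin (n - d) → k => if mon t ∈ SF (mon t * mon g) then
        (d : ℂ) * h (mon t * mon g) else 0) = fun g =>
        (if mon t ∣ mon g then 0 else h (mon t * mon g)) * (d : ℂ) := by
      funext g
      have h6 := mem_SF_mul hirr (mon_monic t) (mon_monic g).ne_zero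
      by_cases h7 : mon t ∣ mon g
      · rw [if_pos h7, if_neg fun h8 => h6.1 h8 h7, zero_mul]
      · rw [if_neg h7, if_pos (h6.2 h7), mul_comm]
    rw [h5, fmean_mul_const]
    push_cast
    ring
  · rw [if_neg hirr, zero_div, mul_zero]
    have h2 : (fun c : Fin n → k => if mon t ∈ SF (mon c) then (d : ℂ) * h (mon c) else 0) =
        fun _ => 0 := by
      funext c
      rw [if_neg]
      intro h4
      exact hirr ((mem_SF (mon_monic c).ne_zero).1 h4).1.1
    rw [h2, fmean_const]

end alg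

section nonsqf

variable {α : Type} [Finite α]

open Classical in
lemma union_le {β : Type} (s : Finset β) (A : α → Prop) (B : β → α → Prop)
    (h : ∀ t, A t → ∃ b ∈ s, B b t) :
    ‖fmean (fun t => if A t then (1 : ℂ) else 0)‖ ≤
      ∑ b ∈ s, ‖fmean (fun t => if B b t then (1 : ℂ) else 0)‖ := by
  haveI := Fintype.ofFinite α
  have h1 : ∀ (R : α → Prop),
      ‖∑ t, if R t then (1 : ℂ) else 0‖ = ∑ t, if R t then (1 : ℝ) else 0 := by
    intro R
    have h2 : (∑ t, if R t then (1 : ℂ) else 0) = ((∑ t, if R t then (1 : ℝ) else 0 : ℝ) : ℂ) := by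
      rw [Complex.ofReal_sum]
      exact Finset.sum_congr rfl fun t _ => by split_ifs <;> simp
    rw [h2, Complex.norm_real, Real.norm_eq_abs, abs_of_nonneg]
    exact Finset.sum_nonneg fun t _ => by split_ifs <;> norm_num
  have h3 : ∀ (R : α → Prop), ‖fmean (fun t => if R t then (1 : ℂ) else 0)‖ =
      (∑ t, if R t then (1 : ℝ) else 0) / ‖((Fintype.card α : ℕ) : ℂ)‖ := by
    intro R
    rw [fmean_eq, norm_div, h1]
  rw [h3, Finset.sum_congr rfl fun b _ => h3 (B b), ← Finset.sum_div, Finset.sum_comm]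
  refine div_le_div_of_nonneg_right (Finset.sum_le_sum fun t _ => ?_) (norm_nonneg _)
  by_cases hA : A t
  · rw [if_pos hA]
    obtain ⟨b, hb, hBb⟩ := h t hA
    calc (1 : ℝ) = if B b t then (1 : ℝ) else 0 := by rw [if_pos hBb]
      _ ≤ _ := Finset.single_le_sum (f := fun b => if B b t then (1 : ℝ) else 0)
        (fun b _ => by split_ifs <;> norm_num) hb
  · rw [if_neg hA]
    exact Finset.sum_nonneg fun b _ => by split_ifs <;> norm_num

end nonsqf

section sq

variable {k : Type} [Field k] [Finite k] {n : ℕ}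

/-- the square of a polynomial of degree `d` divides `f` -/
def Nd (d : ℕ) (f : k[X]) : Prop := ∃ t : Fin d → k, (mon t) ^ 2 ∣ f

/-- the square of an irreducible polynomial divides `f` -/
def Nsq (f : k[X]) : Prop := ∃ P : k[X], Irreducible P ∧ P.Monic ∧ P ^ 2 ∣ f

lemma prod_SF_dvd {f : k[X]} (hf : f ≠ 0) : (∏ g ∈ SF f, g) ∣ f := by
  refine Finset.prod_dvd_of_coprime (fun g hg h hh hne => ?_) fun g hg => ((mem_SF hf).1 hg).1.2.2
  have hg' := (mem_SF hf).1 hg
  have hh' := (mem_SF hf).1 hh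
  exact coprime_of_ne hg'.1.1 hg'.1.2.1 hh'.1.1 hh'.1.2.1 hne

lemma sum_deg_le {f : k[X]} (hf : f ≠ 0) : ∑ g ∈ SF f, g.natDegree ≤ f.natDegree := by
  have h2 : (∏ g ∈ SF f, g).natDegree = ∑ g ∈ SF f, g.natDegree :=
    natDegree_prod _ _ fun g hg => (SF_irr hf hg).ne_zero
  rw [← h2]
  exact natDegree_le_of_dvd (prod_SF_dvd hf) hf

lemma sum_deg_eq {f : k[X]} (hf : f.Monic) (hs : ¬ Nsq f) :
    ∑ g ∈ SF f, g.natDegree = f.natDegree := by
  classical
  have hf0 := hf.ne_zero
  obtain ⟨Q, hQ⟩ := prod_SF_dvd hf0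
  have hPm : (∏ g ∈ SF f, g).Monic := monic_prod_of_monic _ _ fun g hg => ((mem_SF hf0).1 hg).1.2.1
  have hQm : Q.Monic := by
    refine hPm.of_mul_monic_left ?_
    rw [← hQ]
    exact hf
  have hQ1 : Q = 1 := by
    by_contra hne
    have hu : ¬ IsUnit Q := fun h => hne (hQm.eq_one_of_isUnit h)
    obtain ⟨P, hPm', hPi, hPd⟩ := exists_monic_irreducible_factor Q hu
    have hPf : P ∣ f := by
      rw [hQ]
      exact hPd.mul_left _
    have hnd : ¬ P ∣ derivative f := fun h => hs ⟨P, hPi, hPm', sq_dvd hPi hPf h⟩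
    have hmem : P ∈ SF f := (mem_SF hf0).2 ⟨⟨hPi, hPm', hPf⟩, hnd⟩
    have h1 : P ∣ ∏ g ∈ SF f, g := Finset.dvd_prod_of_mem _ hmem
    refine hs ⟨P, hPi, hPm', ?_⟩
    rw [sq, hQ]
    exact mul_dvd_mul h1 hPd
  have h2 : (∏ g ∈ SF f, g).natDegree = ∑ g ∈ SF f, g.natDegree :=
    natDegree_prod _ _ fun g hg => (SF_irr hf0 hg).ne_zero
  rw [← h2]
  conv_rhs => rw [hQ, hQ1, mul_one]

open Classical in
lemma prob_nonsqf :
    ‖fmean (fun c : Fin n → k => if Nsq (mon c) then (1 : ℂ) else 0)‖ ≤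
      n / (Nat.card k : ℝ) := by
  haveI := Fintype.ofFinite k
  have hq0 : (0 : ℝ) < Nat.card k := by exact_mod_cast Nat.card_pos (α := k)
  have hq1 : (1 : ℝ) ≤ Nat.card k := by
    have := two_le_card (k := k)
    exact_mod_cast (by omega : 1 ≤ Nat.card k)
  have h1 := union_le (Finset.Icc 1 n) (fun c : Fin n → k => Nsq (mon c))
    (fun d c => Nd d (mon c)) (by
      intro c hc
      obtain ⟨P, hPi, hPm, hPd⟩ := hc
      have h2 := natDegree_le_of_dvd hPd (mon_monic c).ne_zero
      rw [natDegree_pow, mon_natDegree] at h2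
      refine ⟨P.natDegree, ?_, ?_⟩
      · rw [Finset.mem_Icc]
        have := hPi.natDegree_pos
        omega
      · obtain ⟨t, ht⟩ := exists_mon hPm rfl
        exact ⟨t, by rw [ht]; exact hPd⟩)
  refine h1.trans ?_
  have h3 : ∀ d ∈ Finset.Icc 1 n, ‖fmean (fun c : Fin n → k =>
      if Nd d (mon c) then (1 : ℂ) else 0)‖ ≤ 1 / (Nat.card k : ℝ) := by
    intro d hd
    rw [Finset.mem_Icc] at hd
    have h4 := union_le (Finset.univ : Finset (Fin d → k))
      (fun c : Fin n → k => Nd d (mon c))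
      (fun t c => (mon t) ^ 2 ∣ mon c) (by
        rintro c ⟨t, ht⟩
        exact ⟨t, Finset.mem_univ _, ht⟩)
    refine h4.trans ?_
    have h5 : ∀ t ∈ (Finset.univ : Finset (Fin d → k)), ‖fmean (fun c : Fin n → k =>
        if (mon t) ^ 2 ∣ mon c then (1 : ℂ) else 0)‖ ≤ 1 / (Nat.card k : ℝ) ^ (2 * d) := by
      intro t _
      have h6 := prob_dvd_le (n := n) ((mon_monic t).pow 2)
      rwa [natDegree_pow, mon_natDegree] at h6
    refine (Finset.sum_le_sum h5).trans ?_
    rw [Finset.sum_const, Finset.card_univ, Fintype.card_fun, Fintype.card_fin,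
      ← Nat.card_eq_fintype_card, nsmul_eq_mul]
    push_cast
    have h7 : (Nat.card k : ℝ) ^ d * (1 / (Nat.card k : ℝ) ^ (2 * d)) =
        1 / (Nat.card k : ℝ) ^ d := by
      rw [two_mul, pow_add]
      field_simp
    rw [h7]
    refine one_div_le_one_div_of_le hq0 ?_
    calc (Nat.card k : ℝ) = (Nat.card k : ℝ) ^ 1 := (pow_one _).symm
      _ ≤ (Nat.card k : ℝ) ^ d := pow_le_pow_right₀ hq1 hd.1
  refine (Finset.sum_le_sum h3).trans (le_of_eq ?_)
  rw [Finset.sum_const, Nat.card_Icc, nsmul_eq_mul]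
  simp [div_eq_mul_inv]

end sq

end Pool.Agent.KS6_22.SP
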