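import Pool.Agent.KS6_22.SP.Fac

/-!
# Graded power series

Owner helper22.
-/

set_option autoImplicit false
set_option linter.unusedSectionVars false

open PowerSeries

namespace Pool.Agent.KS6_22.SP

section graded

variable {I : Type}

/-- the coefficient of `X ^ n` has no terms of degree less than `n` -/
def Gd (V : (MvPolynomial I ℤ)⟦X⟧) : Prop := ∀ n, coeff n V ∈ J I n

lemma Gd.mul {V W : (MvPolynomial I ℤ)⟦X⟧} (hV : Gd V) (hW : Gd W) : Gd (V * W) := by
  intro n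
  rw [coeff_mul]
  refine (J I n).sum_mem fun p hp => ?_
  have h := J_mul (hV p.1) (hW p.2)
  rwa [Finset.HasAntidiagonal.mem_antidiagonal.1 hp] at h

lemma gd_one : Gd (1 : (MvPolynomial I ℤ)⟦X⟧) := by
  intro n
  rw [coeff_one]
  split_ifs with h
  · rw [h]
    exact J_zero _
  · exact (J I n).zero_mem

lemma Gd.pow {V : (MvPolynomial I ℤ)⟦X⟧} (hV : Gd V) (n : ℕ) : Gd (V ^ n) := by
  induction n with
  | zero => rw [pow_zero]; exact gd_one
  | succ n ih => rw [pow_succ]; exact ih.mul hV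

lemma gd_prod {ι : Type} (S : Finset ι) (V : ι → (MvPolynomial I ℤ)⟦X⟧) (h : ∀ i ∈ S, Gd (V i)) :
    Gd (∏ i ∈ S, V i) := by
  classical
  induction S using Finset.induction_on with
  | empty => exact gd_one
  | insert i S hi ih =>
    rw [Finset.prod_insert hi]
    exact (h i (Finset.mem_insert_self _ _)).mul (ih fun j hj => h j (Finset.mem_insert_of_mem hj))

lemma fac_coeff_mem {a : MvPolynomial I ℤ} {m : ℕ} (ha : a ∈ J I m) (z : ℤ) (n : ℕ) :
    coeff n (fac a z) ∈ J I (n * m) := by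
  unfold fac
  rw [coeff_mk]
  exact (J I (n * m)).mul_mem_left _ (J_pow ha n)

lemma gd_fac {a : MvPolynomial I ℤ} (ha : a ∈ J I 1) (z : ℤ) : Gd (fac a z) := by
  intro n
  have := fac_coeff_mem ha z n
  rwa [mul_one] at this

lemma gd_lin {a : MvPolynomial I ℤ} (ha : a ∈ J I 1) : Gd (1 - C a * X) := by
  intro n
  rw [map_sub, coeff_C_mul, coeff_X, coeff_one]
  split_ifs with h h'
  · omega
  · rw [h]
    exact J_zero _
  · rw [mul_one, zero_sub, ← neg_mem_iff, neg_neg]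
    rename_i h1
    rw [h1]
    exact ha
  · simp

/-- the sum of the coefficients up to `N` -/
noncomputable def TN (N : ℕ) (V : (MvPolynomial I ℤ)⟦X⟧) : MvPolynomial I ℤ :=
  ∑ n ∈ Finset.range (N + 1), coeff n V

lemma TN_mul (N : ℕ) {V W : (MvPolynomial I ℤ)⟦X⟧} (hV : Gd V) (hW : Gd W) :
    pr I (N + 1) (TN N (V * W)) = pr I (N + 1) (TN N V) * pr I (N + 1) (TN N W) := by
  classical
  set φ := pr I (N + 1) with hφ
  set f : ℕ × ℕ → (MvPolynomial I ℤ ⧸ J I (N + 1)) := fun p => φ (coeff p.1 V) * φ (coeff p.2 W)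
    with hf
  have h1 : φ (TN N V) * φ (TN N W) =
      ∑ p ∈ Finset.range (N + 1) ×ˢ Finset.range (N + 1), f p := by
    unfold TN
    rw [map_sum, map_sum, Finset.sum_mul_sum, Finset.sum_product]
  have h2 : φ (TN N (V * W)) = ∑ n ∈ Finset.range (N + 1),
      ∑ p ∈ Finset.range (N + 1) ×ˢ Finset.range (N + 1), if p.1 + p.2 = n then f p else 0 := by
    unfold TN
    rw [map_sum]
    refine Finset.sum_congr rfl fun n hn => ?_
    rw [coeff_mul, map_sum, ← Finset.sum_filter]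
    have h3 : (Finset.range (N + 1) ×ˢ Finset.range (N + 1)).filter
        (fun p : ℕ × ℕ => p.1 + p.2 = n) = Finset.HasAntidiagonal.antidiagonal n := by
      ext p
      rw [Finset.mem_range] at hn
      rw [Finset.mem_filter, Finset.mem_product, Finset.mem_range, Finset.mem_range,
        Finset.HasAntidiagonal.mem_antidiagonal]
      omega
    rw [h3]
    refine Finset.sum_congr rfl fun p _ => ?_
    rw [hf, map_mul]
  rw [h1, h2, Finset.sum_comm]
  refine Finset.sum_congr rfl fun p _ => ?_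
  rw [Finset.sum_ite_eq]
  split_ifs with h
  · rfl
  · rw [Finset.mem_range] at h
    rw [hf]
    change 0 = φ (coeff p.1 V) * φ (coeff p.2 W)
    rw [← map_mul]
    symm
    exact pr_zero.2 (J_mono (by omega) (J_mul (hV p.1) (hW p.2)))

lemma TN_one (N : ℕ) : TN N (1 : (MvPolynomial I ℤ)⟦X⟧) = 1 := by
  unfold TN
  rw [Finset.sum_range_succ']
  simp [coeff_one]

lemma TN_pow (N : ℕ) {V : (MvPolynomial I ℤ)⟦X⟧} (hV : Gd V) (n : ℕ) :
    pr I (N + 1) (TN N (V ^ n)) = pr I (N + 1) (TN N V) ^ n := by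
  induction n with
  | zero => rw [pow_zero, pow_zero, TN_one, map_one]
  | succ n ih => rw [pow_succ, pow_succ, TN_mul N (hV.pow n) hV, ih]

lemma TN_prod (N : ℕ) {ι : Type} (S : Finset ι) (V : ι → (MvPolynomial I ℤ)⟦X⟧)
    (h : ∀ i ∈ S, Gd (V i)) :
    pr I (N + 1) (TN N (∏ i ∈ S, V i)) = ∏ i ∈ S, pr I (N + 1) (TN N (V i)) := by
  classical
  induction S using Finset.induction_on with
  | empty => rw [Finset.prod_empty, Finset.prod_empty, TN_one, map_one]
  | insert i S hi ih =>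
    rw [Finset.prod_insert hi, Finset.prod_insert hi,
      TN_mul N (h i (Finset.mem_insert_self _ _))
        (gd_prod S V fun j hj => h j (Finset.mem_insert_of_mem hj)),
      ih fun j hj => h j (Finset.mem_insert_of_mem hj)]

lemma TN_lin (N : ℕ) {a : MvPolynomial I ℤ} (ha : a ∈ J I 1) :
    pr I (N + 1) (TN N (1 - C a * X)) = pr I (N + 1) (1 - a) := by
  rw [pr_eq]
  unfold TN
  cases N with
  | zero =>
    rw [Finset.sum_range_one, map_sub, coeff_C_mul, coeff_X, coeff_one]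
    simpa using ha
  | succ N =>
    rw [Finset.sum_range_succ', Finset.sum_range_succ']
    have h1 : ∑ k ∈ Finset.range N, coeff (k + 1 + 1) (1 - C a * X) = 0 := by
      refine Finset.sum_eq_zero fun k _ => ?_
      rw [map_sub, coeff_C_mul, coeff_X, coeff_one]
      simp
    rw [h1, map_sub, coeff_C_mul, coeff_X, coeff_one, map_sub, coeff_C_mul, coeff_X, coeff_one]
    have h2 : (-a + 1 - (1 - a) : MvPolynomial I ℤ) = 0 := by ring
    simpa using h2 ▸ (J I (N + 1 + 1)).zero_mem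

/-- the main identity -/
lemma TN_fac (N : ℕ) {ι : Type} (S : Finset ι) (a : ι → MvPolynomial I ℤ) (z : ι → ℤ)
    (ha : ∀ i ∈ S, a i ∈ J I 1) :
    pr I (N + 1) (TN N (∏ i ∈ S, fac (a i) (z i)) * ∏ i ∈ S, (1 - a i) ^ (z i).toNat) =
      pr I (N + 1) (∏ i ∈ S, (1 - a i) ^ (-z i).toNat) := by
  have h1 : (∏ i ∈ S, (1 - C (a i) * X) ^ (z i).toNat) * ∏ i ∈ S, fac (a i) (z i) =
      ∏ i ∈ S, (1 - C (a i) * X) ^ (-z i).toNat := by
    rw [← Finset.prod_mul_distrib]
    exact Finset.prod_congr rfl fun i _ => fac_toNat _ _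
  have h2 : ∀ n : ι → ℕ, pr I (N + 1) (TN N (∏ i ∈ S, (1 - C (a i) * X) ^ n i)) =
      pr I (N + 1) (∏ i ∈ S, (1 - a i) ^ n i) := by
    intro n
    rw [TN_prod N S _ fun i hi => (gd_lin (ha i hi)).pow _, map_prod]
    refine Finset.prod_congr rfl fun i hi => ?_
    rw [TN_pow N (gd_lin (ha i hi)), TN_lin N (ha i hi), map_pow]
  rw [map_mul, ← h2, ← h2, ← h1, mul_comm, ← TN_mul N
    (gd_prod S _ fun i hi => (gd_lin (ha i hi)).pow _) (gd_prod S _ fun i hi => gd_fac (ha i hi) _)]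

lemma pr_coeff_prod {M : ℕ} {ι : Type} (S : Finset ι) (a : ι → MvPolynomial I ℤ) (z : ι → ℤ)
    (ha : ∀ i ∈ S, a i ∈ J I M) :
    PowerSeries.map (pr I M) (∏ i ∈ S, fac (a i) (z i)) = 1 := by
  rw [map_prod]
  refine Finset.prod_eq_one fun i hi => ?_
  rw [fac_map]
  have : pr I M (a i) = 0 := pr_zero.2 (ha i hi)
  rw [this]
  ext n
  unfold fac
  rw [coeff_mk, coeff_one]
  cases n with
  | zero => simp
  | succ n => simp

lemma TN_map {S : Type} [CommRing S] (φ : MvPolynomial I ℤ →+* S) (N : ℕ)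
    (V : (MvPolynomial I ℤ)⟦X⟧) :
    φ (TN N V) = ∑ n ∈ Finset.range (N + 1), coeff n (PowerSeries.map φ V) := by
  unfold TN
  rw [map_sum]
  refine Finset.sum_congr rfl fun n _ => ?_
  rw [coeff_map]

end graded

section Q

variable {I : Type} [Fintype I] [DecidableEq I]

/-- the product of the factors -/
noncomputable def VM (z : (I → ℕ) → ℤ) (M : ℕ) : (MvPolynomial I ℤ)⟦X⟧ :=
  ∏ μ ∈ idx I M, fac (mo μ) (z μ)

/-- the polynomial -/
noncomputable def QM (z : (I → ℕ) → ℤ) (N M : ℕ) : MvPolynomial I ℤ := TN N (VM z M)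

lemma mo_one {M : ℕ} {μ : I → ℕ} (h : μ ∈ idx I M) : mo μ ∈ J I 1 :=
  J_mono (mem_idx.1 h).1 (mo_mem μ)

lemma mo_lay {M : ℕ} {μ : I → ℕ} (h : μ ∈ lay I M) : mo μ ∈ J I M :=
  J_mono (mem_lay.1 h).ge (mo_mem μ)

lemma QM_one (z : (I → ℕ) → ℤ) (N M : ℕ) : pr I 1 (QM z N M) = 1 := by
  unfold QM
  rw [TN_map]
  unfold VM
  rw [pr_coeff_prod _ _ _ fun μ hμ => mo_one hμ, Finset.sum_range_succ']
  simp [coeff_one]

lemma QM_succ (z : (I → ℕ) → ℤ) (N M : ℕ) :
    pr I (M + 1) (QM z N (M + 1)) = pr I (M + 1) (QM z N M) := by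
  unfold QM
  rw [TN_map, TN_map]
  congr 1
  funext n
  congr 1
  unfold VM
  rw [idx_succ, Finset.prod_union (idx_disj M), map_mul,
    pr_coeff_prod (lay I (M + 1)) _ _ (fun μ hμ => mo_lay hμ), mul_one]

/-- the product of the factors with positive exponents -/
noncomputable def pos (a : (I → ℕ) → ℤ) (M : ℕ) : MvPolynomial I ℤ :=
  ∏ μ ∈ idx I M, (1 - mo μ) ^ (a μ).toNat

/-- the product of the factors with negative exponents -/
noncomputable def neg (a : (I → ℕ) → ℤ) (M : ℕ) : MvPolynomial I ℤ :=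
  ∏ μ ∈ idx I M, (1 - mo μ) ^ (-a μ).toNat

lemma QM_first (z : (I → ℕ) → ℤ) (N M : ℕ) :
    pr I (N + 1) (QM z N M * pos z M) = pr I (N + 1) (neg z M) :=
  TN_fac N (idx I M) mo z fun _ hμ => mo_one hμ

end Q

end Pool.Agent.KS6_22.SP
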