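import Pool.Agent.KS6_22.SP.Tn

/-!
# Factorization of a polynomial with constant term `1` up to terms of high degree

Owner helper22.
-/

set_option autoImplicit false
set_option linter.unusedSectionVars false

open MvPolynomial

namespace Pool.Agent.KS6_22.SP

section step

variable {I : Type}

lemma one_sub_pow {m : ℕ} (hm : 1 ≤ m) {x : MvPolynomial I ℤ} (hx : x ∈ J I m) (k : ℕ) :
    (1 - x) ^ k - (1 - (k : MvPolynomial I ℤ) * x) ∈ J I (m + 1) := by
  induction k with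
  | zero => simp
  | succ k ih =>
    have h1 : (1 - x) ^ (k + 1) - (1 - ((k + 1 : ℕ) : MvPolynomial I ℤ) * x) =
        (1 - x) * ((1 - x) ^ k - (1 - (k : MvPolynomial I ℤ) * x)) +
          (k : MvPolynomial I ℤ) * (x * x) := by
      push_cast
      ring
    rw [h1]
    refine (J I (m + 1)).add_mem ((J I (m + 1)).mul_mem_left _ ih)
      ((J I (m + 1)).mul_mem_left _ (J_mono (by omega) (J_mul hx hx)))

lemma prod_one_sub {m : ℕ} (hm : 1 ≤ m) {ι : Type} (S : Finset ι) (x : ι → MvPolynomial I ℤ)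
    (k : ι → ℕ) (hx : ∀ i ∈ S, x i ∈ J I m) :
    ∏ i ∈ S, (1 - x i) ^ k i - (1 - ∑ i ∈ S, (k i : MvPolynomial I ℤ) * x i) ∈ J I (m + 1) := by
  classical
  induction S using Finset.induction_on with
  | empty => simp
  | insert i S hi ih =>
    rw [Finset.prod_insert hi, Finset.sum_insert hi]
    have ih' := ih fun j hj => hx j (Finset.mem_insert_of_mem hj)
    have hxi := hx i (Finset.mem_insert_self _ _)
    have h1 := one_sub_pow hm hxi (k i)
    have h2 : ∑ j ∈ S, (k j : MvPolynomial I ℤ) * x j ∈ J I m :=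
      (J I m).sum_mem fun j hj => (J I m).mul_mem_left _ (hx j (Finset.mem_insert_of_mem hj))
    have h3 : (1 - x i) ^ k i * ∏ j ∈ S, (1 - x j) ^ k j -
        (1 - ((k i : MvPolynomial I ℤ) * x i + ∑ j ∈ S, (k j : MvPolynomial I ℤ) * x j)) =
        (1 - x i) ^ k i * (∏ j ∈ S, (1 - x j) ^ k j -
          (1 - ∑ j ∈ S, (k j : MvPolynomial I ℤ) * x j)) +
        (1 - ∑ j ∈ S, (k j : MvPolynomial I ℤ) * x j) *
          ((1 - x i) ^ k i - (1 - (k i : MvPolynomial I ℤ) * x i)) +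
        (k i : MvPolynomial I ℤ) * (x i * ∑ j ∈ S, (k j : MvPolynomial I ℤ) * x j) := by ring
    rw [h3]
    refine (J I (m + 1)).add_mem ((J I (m + 1)).add_mem ((J I (m + 1)).mul_mem_left _ ih')
      ((J I (m + 1)).mul_mem_left _ h1)) ((J I (m + 1)).mul_mem_left _
        (J_mono (by omega) (J_mul hxi h2)))

end step

section wit

variable {I : Type} [Fintype I] [DecidableEq I]

lemma pos_one (a : (I → ℕ) → ℤ) (M : ℕ) : pos a M - 1 ∈ J I 1 := by
  rw [← pr_eq, map_one]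
  unfold pos
  rw [map_prod]
  refine Finset.prod_eq_one fun μ hμ => ?_
  rw [map_pow, map_sub, map_one, pr_zero.2 (mo_one hμ), sub_zero, one_pow]

lemma neg_one (a : (I → ℕ) → ℤ) (M : ℕ) : neg a M - 1 ∈ J I 1 := by
  rw [← pr_eq, map_one]
  unfold neg
  rw [map_prod]
  refine Finset.prod_eq_one fun μ hμ => ?_
  rw [map_pow, map_sub, map_one, pr_zero.2 (mo_one hμ), sub_zero, one_pow]

lemma pos_congr {a b : (I → ℕ) → ℤ} {M : ℕ} (h : ∀ μ, ∑ i, μ i ≤ M → a μ = b μ) :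
    pos a M = pos b M :=
  Finset.prod_congr rfl fun μ hμ => by rw [h μ (mem_idx.1 hμ).2]

lemma neg_congr {a b : (I → ℕ) → ℤ} {M : ℕ} (h : ∀ μ, ∑ i, μ i ≤ M → a μ = b μ) :
    neg a M = neg b M :=
  Finset.prod_congr rfl fun μ hμ => by rw [h μ (mem_idx.1 hμ).2]

lemma wit_step {Q Q' : MvPolynomial I ℤ} {M : ℕ} {a a' : (I → ℕ) → ℤ} (hQ1 : pr I 1 Q' = 1)
    (hQQ : pr I (M + 1) Q' = pr I (M + 1) Q)
    (h : pr I (M + 1) (Q * pos a M) = pr I (M + 1) (neg a M))
    (h1 : ∀ μ, ∑ i, μ i ≤ M → a' μ = a μ)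
    (h2 : ∀ μ, ∑ i, μ i = M + 1 → a' μ = cf μ (Q' * pos a M - neg a M)) :
    pr I (M + 2) (Q' * pos a' (M + 1)) = pr I (M + 2) (neg a' (M + 1)) := by
  set D := Q' * pos a M - neg a M with hD
  have hDm : D ∈ J I (M + 1) := by
    have h3 : D = pos a M * (Q' - Q) + (Q * pos a M - neg a M) := by
      rw [hD]
      ring
    rw [h3]
    exact (J I (M + 1)).add_mem ((J I (M + 1)).mul_mem_left _ (pr_eq.1 hQQ)) (pr_eq.1 h)
  set A : MvPolynomial I ℤ := ∑ μ ∈ lay I (M + 1), (((a' μ).toNat : ℕ) : MvPolynomial I ℤ) * mo μ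
    with hA
  set B : MvPolynomial I ℤ := ∑ μ ∈ lay I (M + 1), (((-a' μ).toNat : ℕ) : MvPolynomial I ℤ) * mo μ
    with hB
  have hAm : A ∈ J I (M + 1) :=
    (J I (M + 1)).sum_mem fun μ hμ => (J I (M + 1)).mul_mem_left _ (mo_lay hμ)
  have hBm : B ∈ J I (M + 1) :=
    (J I (M + 1)).sum_mem fun μ hμ => (J I (M + 1)).mul_mem_left _ (mo_lay hμ)
  have hAB : A - B = ∑ μ ∈ lay I (M + 1), (cf μ D : MvPolynomial I ℤ) * mo μ := by
    rw [hA, hB, ← Finset.sum_sub_distrib]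
    refine Finset.sum_congr rfl fun μ hμ => ?_
    rw [← h2 μ (mem_lay.1 hμ), ← sub_mul]
    congr 1
    have h4 : a' μ = (((a' μ).toNat : ℕ) : ℤ) - (((-a' μ).toNat : ℕ) : ℤ) := by omega
    conv_rhs => rw [h4]
    push_cast
    rfl
  have h5 : D - (A - B) ∈ J I (M + 2) := by
    rw [hAB]
    exact sub_homog hDm
  have hp : pos a' (M + 1) = pos a M * ∏ μ ∈ lay I (M + 1), (1 - mo μ) ^ (a' μ).toNat := by
    rw [← pos_congr h1]
    unfold pos
    rw [idx_succ, Finset.prod_union (idx_disj M)]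
  have hn : neg a' (M + 1) = neg a M * ∏ μ ∈ lay I (M + 1), (1 - mo μ) ^ (-a' μ).toNat := by
    rw [← neg_congr h1]
    unfold neg
    rw [idx_succ, Finset.prod_union (idx_disj M)]
  have hpA := prod_one_sub (m := M + 1) (by omega) (lay I (M + 1)) mo (fun μ => (a' μ).toNat)
    fun μ hμ => mo_lay hμ
  have hpB := prod_one_sub (m := M + 1) (by omega) (lay I (M + 1)) mo (fun μ => (-a' μ).toNat)
    fun μ hμ => mo_lay hμ
  rw [← hA] at hpA
  rw [← hB] at hpB
  have hQp : Q' * pos a M - 1 ∈ J I 1 := by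
    have h6 : Q' * pos a M - 1 = pos a M * (Q' - 1) + (pos a M - 1) := by ring
    rw [h6]
    refine (J I 1).add_mem ((J I 1).mul_mem_left _ (pr_eq.1 ?_)) (pos_one a M)
    rw [hQ1, map_one]
  rw [pr_eq, hp, hn]
  have h7 : Q' * (pos a M * ∏ μ ∈ lay I (M + 1), (1 - mo μ) ^ (a' μ).toNat) -
      neg a M * ∏ μ ∈ lay I (M + 1), (1 - mo μ) ^ (-a' μ).toNat =
      (D - (A - B)) - (Q' * pos a M - 1) * A + (neg a M - 1) * B +
      Q' * pos a M * (∏ μ ∈ lay I (M + 1), (1 - mo μ) ^ (a' μ).toNat - (1 - A)) -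
      neg a M * (∏ μ ∈ lay I (M + 1), (1 - mo μ) ^ (-a' μ).toNat - (1 - B)) := by
    rw [hD]
    ring
  rw [h7]
  have h8 : (Q' * pos a M - 1) * A ∈ J I (M + 2) := J_mono (by omega) (J_mul hQp hAm)
  have h9 : (neg a M - 1) * B ∈ J I (M + 2) := J_mono (by omega) (J_mul (neg_one a M) hBm)
  exact (J I (M + 2)).sub_mem ((J I (M + 2)).add_mem ((J I (M + 2)).add_mem
    ((J I (M + 2)).sub_mem h5 h8) h9) ((J I (M + 2)).mul_mem_left _ hpA))
    ((J I (M + 2)).mul_mem_left _ hpB)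

/-- the exponents of the monomials of degree at most `N + k` -/
noncomputable def seqA (z : (I → ℕ) → ℤ) (N : ℕ) : ℕ → (I → ℕ) → ℤ
  | 0 => z
  | k + 1 => fun μ => if ∑ i, μ i = N + k + 1 then
      cf μ (QM z N (N + k + 1) * pos (seqA z N k) (N + k) - neg (seqA z N k) (N + k))
      else seqA z N k μ

/-- the exponents -/
noncomputable def wa (z : (I → ℕ) → ℤ) (N : ℕ) (μ : I → ℕ) : ℤ := seqA z N (∑ i, μ i) μ

lemma seqA_stable (z : (I → ℕ) → ℤ) (N : ℕ) {k k' : ℕ} (h : k ≤ k') {μ : I → ℕ}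
    (hμ : ∑ i, μ i ≤ N + k) : seqA z N k' μ = seqA z N k μ := by
  induction k', h using Nat.le_induction with
  | base => rfl
  | succ k' hk ih =>
    rw [← ih]
    change (if _ then _ else _) = _
    rw [if_neg (by omega)]

lemma wa_eq (z : (I → ℕ) → ℤ) (N : ℕ) {k : ℕ} {μ : I → ℕ} (hμ : ∑ i, μ i ≤ N + k) :
    wa z N μ = seqA z N k μ := by
  unfold wa
  rcases le_total k (∑ i, μ i) with h | h
  · exact seqA_stable z N h hμ
  · exact (seqA_stable z N h (by omega)).symm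

lemma wa_first (z : (I → ℕ) → ℤ) (N : ℕ) {μ : I → ℕ} (hμ : ∑ i, μ i ≤ N) : wa z N μ = z μ :=
  wa_eq z N (k := 0) (by omega)

/-- **The factorization.** -/
theorem wit (z : (I → ℕ) → ℤ) (N M : ℕ) :
    pr I (M + 1) (QM z N M * pos (wa z N) M) = pr I (M + 1) (neg (wa z N) M) := by
  rcases le_or_gt M N with h | h
  · rw [pos_congr (b := z) fun μ hμ => wa_first z N (hμ.trans h),
      neg_congr (b := z) fun μ hμ => wa_first z N (hμ.trans h)]
    exact pr_mono (by omega) (QM_first z N M)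
  · obtain ⟨k, rfl⟩ : ∃ k, M = N + k := ⟨M - N, by omega⟩
    rw [pos_congr (b := seqA z N k) fun μ hμ => wa_eq z N hμ,
      neg_congr (b := seqA z N k) fun μ hμ => wa_eq z N hμ]
    clear h
    induction k with
    | zero => exact QM_first z N N
    | succ k ih =>
      refine wit_step (QM_one z N _) (QM_succ z N _) ih (fun μ hμ => ?_) fun μ hμ => ?_
      · exact seqA_stable z N (Nat.le_succ k) hμ
      · change (if _ then _ else _) = _
        rw [if_pos (by omega)]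
        rfl

end wit

section sym

variable {I : Type} [Fintype I] [DecidableEq I]

/-- the permutation of the variables -/
noncomputable def ren (σ : Equiv.Perm I) : MvPolynomial I ℤ →+* MvPolynomial I ℤ :=
  (rename (R := ℤ) σ.symm).toRingHom

lemma mapDomain_symm (σ : Equiv.Perm I) (μ : I → ℕ) :
    (Finsupp.equivFunOnFinite.symm μ : I →₀ ℕ).mapDomain σ.symm =
      Finsupp.equivFunOnFinite.symm fun i => μ (σ i) := by
  ext i
  rw [Finsupp.mapDomain_equiv_apply]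
  rfl

lemma ren_mo (σ : Equiv.Perm I) (μ : I → ℕ) : ren σ (mo μ) = mo fun i => μ (σ i) := by
  unfold ren mo
  change rename σ.symm _ = _
  rw [rename_monomial, mapDomain_symm]

lemma cf_ren (σ : Equiv.Perm I) (μ : I → ℕ) (P : MvPolynomial I ℤ) :
    cf (fun i => μ (σ i)) (ren σ P) = cf μ P := by
  unfold cf ren
  change (rename σ.symm P).coeff _ = _
  rw [← mapDomain_symm, coeff_rename_mapDomain _ σ.symm.injective]

lemma sum_comp_perm (σ : Equiv.Perm I) (μ : I → ℕ) : ∑ i, μ (σ i) = ∑ i, μ i :=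
  Equiv.sum_comp σ μ

lemma prod_idx {S : Type} [CommMonoid S] (σ : Equiv.Perm I) (M : ℕ) (f : (I → ℕ) → S) :
    ∏ μ ∈ idx I M, f (fun i => μ (σ i)) = ∏ μ ∈ idx I M, f μ := by
  refine Finset.prod_nbij' (fun μ i => μ (σ i)) (fun μ i => μ (σ.symm i)) ?_ ?_ ?_ ?_ ?_
  · intro μ hμ
    rw [mem_idx] at hμ ⊢
    rwa [sum_comp_perm]
  · intro μ hμ
    rw [mem_idx] at hμ ⊢
    rwa [sum_comp_perm σ.symm]
  · intro μ _
    funext i
    simp
  · intro μ _
    funext i
    simp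
  · intro μ _
    rfl

lemma ren_pos {σ : Equiv.Perm I} {a : (I → ℕ) → ℤ} (ha : ∀ μ, a (fun i => μ (σ i)) = a μ)
    (M : ℕ) : ren σ (pos a M) = pos a M := by
  unfold pos
  rw [map_prod, ← prod_idx σ M fun μ => (1 - mo μ) ^ (a μ).toNat]
  refine Finset.prod_congr rfl fun μ _ => ?_
  rw [map_pow, map_sub, map_one, ren_mo, ha]

lemma ren_neg {σ : Equiv.Perm I} {a : (I → ℕ) → ℤ} (ha : ∀ μ, a (fun i => μ (σ i)) = a μ)
    (M : ℕ) : ren σ (neg a M) = neg a M := by
  unfold neg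
  rw [map_prod, ← prod_idx σ M fun μ => (1 - mo μ) ^ (-a μ).toNat]
  refine Finset.prod_congr rfl fun μ _ => ?_
  rw [map_pow, map_sub, map_one, ren_mo, ha]

lemma ren_QM {σ : Equiv.Perm I} {z : (I → ℕ) → ℤ} (hz : ∀ μ, z (fun i => μ (σ i)) = z μ)
    (N M : ℕ) : ren σ (QM z N M) = QM z N M := by
  unfold QM
  rw [TN_map]
  unfold TN
  have h1 : PowerSeries.map (ren σ) (VM z M) = VM z M := by
    unfold VM
    rw [map_prod, ← prod_idx σ M fun μ => fac (mo μ) (z μ)]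
    refine Finset.prod_congr rfl fun μ _ => ?_
    rw [fac_map, ren_mo, hz]
  rw [h1]

lemma seqA_sym {σ : Equiv.Perm I} {z : (I → ℕ) → ℤ} (hz : ∀ μ, z (fun i => μ (σ i)) = z μ)
    (N k : ℕ) (μ : I → ℕ) : seqA z N k (fun i => μ (σ i)) = seqA z N k μ := by
  induction k generalizing μ with
  | zero => exact hz μ
  | succ k ih =>
    change (if _ then _ else _) = if _ then _ else _
    rw [sum_comp_perm]
    split_ifs with h
    · conv_rhs => rw [← cf_ren σ]
      rw [map_sub, map_mul, ren_QM hz, ren_pos ih, ren_neg ih]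
    · exact ih μ

lemma wa_sym {σ : Equiv.Perm I} {z : (I → ℕ) → ℤ} (hz : ∀ μ, z (fun i => μ (σ i)) = z μ)
    (N : ℕ) (μ : I → ℕ) : wa z N (fun i => μ (σ i)) = wa z N μ := by
  unfold wa
  rw [sum_comp_perm]
  exact seqA_sym hz N _ μ

end sym

end Pool.Agent.KS6_22.SP
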